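import Mathlib

/-!
# Reflection positivity for product measures: the abstract lemma
-/

open MeasureTheory

namespace Run7.h4.YM

section Pi

variable {ι X : Type*} [Fintype ι] [MeasurableSpace X] (μ : Measure X) [IsProbabilityMeasure μ]

/-- permuting coordinates and applying measure preserving maps coordinatewise -/
theorem mp_gen (σ : ι ≃ ι) (g : ι → X → X) (hg : ∀ i, MeasurePreserving (g i) μ μ) :
    MeasurePreserving (fun (U : ι → X) i => g i (U (σ i)))
      (Measure.pi fun _ : ι => μ) (Measure.pi fun _ : ι => μ) := by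
  refine ⟨?_, ?_⟩
  · exact measurable_pi_lambda _ fun i => (hg i).measurable.comp (measurable_pi_apply _)
  · symm
    refine Measure.pi_eq fun s hs => ?_
    have hm : Measurable (fun (U : ι → X) i => g i (U (σ i))) :=
      measurable_pi_lambda _ fun i => (hg i).measurable.comp (measurable_pi_apply _)
    rw [Measure.map_apply hm (MeasurableSet.univ_pi hs)]
    have e1 : (fun (U : ι → X) i => g i (U (σ i))) ⁻¹' (Set.univ.pi s) =
        Set.univ.pi (fun j => g (σ.symm j) ⁻¹' (s (σ.symm j))) := by
      ext U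
      simp only [Set.mem_preimage, Set.mem_pi, Set.mem_univ, true_implies]
      constructor
      · intro h j
        have := h (σ.symm j)
        simpa using this
      · intro h i
        have := h (σ i)
        simpa using this
    rw [e1, Measure.pi_pi]
    have e2 : ∀ j, μ (g (σ.symm j) ⁻¹' (s (σ.symm j))) = μ (s (σ.symm j)) := fun j =>
      (hg _).measure_preimage (hs _).nullMeasurableSet
    simp only [e2]
    exact Equiv.prod_comp σ.symm (fun i => μ (s i))

open Classical in
/-- `U` on `s`, `V` off `s` -/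
noncomputable def mix (s : Set ι) (U V : ι → X) : ι → X := fun i => if i ∈ s then U i else V i

omit [Fintype ι] in
theorem measurable_mix (s : Set ι) :
    Measurable (fun p : (ι → X) × (ι → X) => mix s p.1 p.2) := by
  classical
  refine measurable_pi_lambda _ fun i => ?_
  by_cases h : i ∈ s
  · simp only [mix, h, if_true]
    exact (measurable_pi_apply i).comp measurable_fst
  · simp only [mix, h, if_false]
    exact (measurable_pi_apply i).comp measurable_snd

theorem mp_mix (s : Set ι) :
    MeasurePreserving (fun p : (ι → X) × (ι → X) => mix s p.1 p.2)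
      ((Measure.pi fun _ : ι => μ).prod (Measure.pi fun _ : ι => μ)) (Measure.pi fun _ : ι => μ) := by
  classical
  refine ⟨measurable_mix s, ?_⟩
  symm
  refine Measure.pi_eq fun t ht => ?_
  rw [Measure.map_apply (measurable_mix s) (MeasurableSet.univ_pi ht)]
  have e1 : (fun p : (ι → X) × (ι → X) => mix s p.1 p.2) ⁻¹' (Set.univ.pi t) =
      (Set.univ.pi fun i => if i ∈ s then t i else Set.univ) ×ˢ
        (Set.univ.pi fun i => if i ∈ s then Set.univ else t i) := by
    ext ⟨U, V⟩
    simp only [Set.mem_preimage, Set.mem_pi, Set.mem_univ, true_implies, Set.mem_prod, mix]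
    constructor
    · intro h
      refine ⟨fun i => ?_, fun i => ?_⟩
      · have := h i
        by_cases hi : i ∈ s <;> simp_all
      · have := h i
        by_cases hi : i ∈ s <;> simp_all
    · rintro ⟨h1, h2⟩ i
      have a1 := h1 i
      have a2 := h2 i
      by_cases hi : i ∈ s <;> simp_all
  rw [e1, Measure.prod_prod, Measure.pi_pi, Measure.pi_pi, ← Finset.prod_mul_distrib]
  refine Finset.prod_congr rfl fun i _ => ?_
  by_cases hi : i ∈ s <;> simp [hi]

end Pi

section RP

variable {ι X : Type*} [Fintype ι] [MeasurableSpace X] (μ : Measure X) [IsProbabilityMeasure μ]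

/-- bounded measurable functions -/
def Bd {Ω : Type*} [MeasurableSpace Ω] (f : Ω → ℝ) : Prop :=
  Measurable f ∧ ∃ C : ℝ, ∀ U, |f U| ≤ C

section Bd

variable {Ω : Type*} [MeasurableSpace Ω] {f g : Ω → ℝ}

theorem Bd.integrable {ν : Measure Ω} [IsFiniteMeasure ν] (hf : Bd f) : Integrable f ν := by
  obtain ⟨h1, C, hC⟩ := hf
  exact Integrable.of_bound h1.aestronglyMeasurable C (Filter.Eventually.of_forall fun U => by
    rw [Real.norm_eq_abs]; exact hC U)

theorem Bd.add (hf : Bd f) (hg : Bd g) : Bd (fun U => f U + g U) := by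
  obtain ⟨h1, C, hC⟩ := hf
  obtain ⟨h2, D, hD⟩ := hg
  exact ⟨h1.add h2, C + D, fun U => (abs_add_le _ _).trans (add_le_add (hC U) (hD U))⟩

theorem Bd.neg (hf : Bd f) : Bd (fun U => - f U) := by
  obtain ⟨h1, C, hC⟩ := hf
  exact ⟨h1.neg, C, fun U => by rw [abs_neg]; exact hC U⟩

theorem Bd.sub (hf : Bd f) (hg : Bd g) : Bd (fun U => f U - g U) := by
  have := hf.add hg.neg
  simpa [sub_eq_add_neg] using this

theorem Bd.mul (hf : Bd f) (hg : Bd g) : Bd (fun U => f U * g U) := by
  obtain ⟨h1, C, hC⟩ := hf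
  obtain ⟨h2, D, hD⟩ := hg
  refine ⟨h1.mul h2, |C| * |D|, fun U => ?_⟩
  rw [abs_mul]
  exact mul_le_mul ((hC U).trans (le_abs_self C)) ((hD U).trans (le_abs_self D)) (abs_nonneg _)
    (abs_nonneg _)

theorem Bd.const (c : ℝ) : Bd (fun _ : Ω => c) := ⟨measurable_const, |c|, fun _ => le_refl _⟩

theorem Bd.smul (c : ℝ) (hf : Bd f) : Bd (fun U => c * f U) := (Bd.const c).mul hf

theorem Bd.sum {κ : Type*} (s : Finset κ) {F : κ → Ω → ℝ} (h : ∀ c ∈ s, Bd (F c)) :
    Bd (fun U => ∑ c ∈ s, F c U) := by
  classical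
  induction s using Finset.induction_on with
  | empty => simpa using Bd.const (Ω := Ω) 0
  | insert a s ha ih =>
    have := (h a (Finset.mem_insert_self a s)).add (ih fun c hc => h c (Finset.mem_insert_of_mem hc))
    simpa [Finset.sum_insert ha] using this

theorem Bd.prod {κ : Type*} (s : Finset κ) {F : κ → Ω → ℝ} (h : ∀ c ∈ s, Bd (F c)) :
    Bd (fun U => ∏ c ∈ s, F c U) := by
  classical
  induction s using Finset.induction_on with
  | empty => simpa using Bd.const (Ω := Ω) 1
  | insert a s ha ih =>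
    have := (h a (Finset.mem_insert_self a s)).mul (ih fun c hc => h c (Finset.mem_insert_of_mem hc))
    simpa [Finset.prod_insert ha] using this

theorem Bd.exp (hf : Bd f) : Bd (fun U => Real.exp (f U)) := by
  obtain ⟨h1, C, hC⟩ := hf
  refine ⟨h1.exp, Real.exp C, fun U => ?_⟩
  rw [abs_of_pos (Real.exp_pos _)]
  exact Real.exp_le_exp.mpr ((le_abs_self _).trans (hC U))

theorem Bd.comp {Ω' : Type*} [MeasurableSpace Ω'] {T : Ω' → Ω} (hf : Bd f) (hT : Measurable T) :
    Bd (fun U => f (T U)) := by
  obtain ⟨h1, C, hC⟩ := hf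
  exact ⟨h1.comp hT, C, fun U => hC _⟩

theorem Bd.congr (hf : Bd f) (h : ∀ U, g U = f U) : Bd g := by
  have : g = f := funext h
  rw [this]; exact hf

end Bd

/-- change of variables -/
theorem mp_int {Ω Ω' : Type*} [MeasurableSpace Ω] [MeasurableSpace Ω'] {P : Measure Ω}
    {Q : Measure Ω'} {T : Ω → Ω'} (hT : MeasurePreserving T P Q) {f : Ω' → ℝ} (hf : Bd f) :
    ∫ U, f U ∂Q = ∫ U, f (T U) ∂P := by
  rw [← hT.map_eq, integral_map hT.measurable.aemeasurable hf.1.aestronglyMeasurable]

/-- The abstract reflection positivity lemma: `f` depends only on the coordinates in `D`, the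
reflection fixes the coordinates in `D \ R`, and the coordinates in `D` of `θ U` do not depend on
the coordinates of `U` in `R`. -/
theorem rp_core (θ : (ι → X) → (ι → X))
    (hθ : MeasurePreserving θ (Measure.pi fun _ : ι => μ) (Measure.pi fun _ : ι => μ))
    (hθθ : ∀ U, θ (θ U) = U) (D R : Set ι)
    (h1 : ∀ U, ∀ i ∈ D, i ∉ R → θ U i = U i)
    (h2 : ∀ U V, (∀ i, i ∉ R → U i = V i) → ∀ i ∈ D, θ U i = θ V i)
    (f : (ι → X) → ℝ) (hf : Bd f) (hfD : DependsOn f D) :
    0 ≤ ∫ U, f U * f (θ U) ∂(Measure.pi fun _ : ι => μ) := by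
  classical
  set P := (Measure.pi fun _ : ι => μ) with hP
  -- the average over the coordinates in `R`
  set g : (ι → X) → ℝ := fun U => ∫ V, f (mix R V U) ∂P with hg
  have hmix2 : ∀ f' : (ι → X) → ℝ, Bd f' →
      ∫ U, f' U ∂P = ∫ V, ∫ U, f' (mix R U V) ∂P ∂P := by
    intro f' hf'
    have hm := mp_mix μ R
    have e1 : ∫ U, f' U ∂P = ∫ p : (ι → X) × (ι → X), f' (mix R p.1 p.2) ∂(P.prod P) :=
      mp_int hm hf'
    rw [e1]
    exact integral_prod_symm _ ((hf'.comp hm.measurable).integrable)
  -- step 1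
  have hf_indep : ∀ U V : ι → X, f (θ (mix R U V)) = f (θ V) := by
    intro U V
    refine hfD fun i hi => h2 _ _ (fun j hj => ?_) i hi
    simp [mix, hj]
  have hgdep : ∀ U V : ι → X, (∀ i ∈ D, i ∉ R → U i = V i) → g U = g V := by
    intro U V h
    simp only [hg]
    congr 1
    funext W
    refine hfD fun i hi => ?_
    by_cases hR : i ∈ R
    · simp [mix, hR]
    · simp [mix, hR, h i hi hR]
  have hgbd : Bd g := by
    obtain ⟨hfm, C, hC⟩ := hf
    refine ⟨?_, C, fun U => ?_⟩
    · have : StronglyMeasurable (fun p : (ι → X) × (ι → X) => f (mix R p.2 p.1)) :=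
        (hfm.comp ((measurable_mix R).comp measurable_swap)).stronglyMeasurable
      exact (StronglyMeasurable.integral_prod_right' this).measurable
    · simp only [hg]
      calc |∫ V, f (mix R V U) ∂P| ≤ ∫ V, |f (mix R V U)| ∂P := abs_integral_le_integral_abs
        _ ≤ ∫ _V, C ∂P := by
          refine integral_mono_of_nonneg (Filter.Eventually.of_forall fun _ => abs_nonneg _)
            (integrable_const _) (Filter.Eventually.of_forall fun V => hC _)
        _ = C := by simp
  have s1 : ∫ U, f U * f (θ U) ∂P = ∫ U, g U * f (θ U) ∂P := by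
    rw [hmix2 (fun U => f U * f (θ U)) (hf.mul (hf.comp hθ.measurable))]
    congr 1
    funext V
    simp only [hf_indep]
    rw [integral_mul_const]
  have s2 : ∫ U, g U * f (θ U) ∂P = ∫ U, g U * f U ∂P := by
    have e : ∫ U, g U * f (θ U) ∂P = ∫ U, g (θ U) * f (θ (θ U)) ∂P :=
      mp_int hθ (hgbd.mul (hf.comp hθ.measurable))
    rw [e]
    congr 1
    funext U
    rw [hθθ, hgdep (θ U) U (fun i hi hR => h1 U i hi hR)]
  have s3 : ∫ U, g U * f U ∂P = ∫ V, g V * g V ∂P := by
    rw [hmix2 (fun U => g U * f U) (hgbd.mul hf)]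
    congr 1
    funext V
    have : ∀ U, g (mix R U V) = g V := fun U => hgdep _ _ fun i _ hR => by simp [mix, hR]
    simp only [this]
    rw [integral_const_mul]
  rw [s1, s2, s3]
  exact integral_nonneg fun V => mul_self_nonneg _

end RP

end Run7.h4.YM
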