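import Mathlib
import Pool.Agent.Run7.h4.YM.Rp

/-!
# The reflection form, the Schwarz inequality and log-convexity
-/

open MeasureTheory

namespace Run7.h4.YM

/-! ### A lemma on log-convex sequences -/

theorem lc_pos {a : ℕ → ℝ} {M : ℕ} (h0 : 0 < a 0) (h1 : 0 < a 1)
    (hc : ∀ k, k + 2 ≤ M → a (k + 1) ^ 2 ≤ a k * a (k + 2)) :
    ∀ k, k ≤ M → 0 < a k := by
  have key : ∀ k, k + 1 ≤ M → 0 < a k ∧ 0 < a (k + 1) := by
    intro k
    induction k with
    | zero => intro _; exact ⟨h0, h1⟩
    | succ k ih =>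
      intro hk
      obtain ⟨h2, h3⟩ := ih (by omega)
      refine ⟨h3, ?_⟩
      have := hc k (by omega)
      have h4 : 0 < a k * a (k + 2) := lt_of_lt_of_le (by positivity) this
      exact (pos_iff_pos_of_mul_pos h4).mp h2
  intro k hk
  rcases k with _ | k
  · exact h0
  · exact (key k hk).2

/-- ratios increase -/
theorem lc_ratio {a : ℕ → ℝ} {M : ℕ} (h0 : 0 < a 0) (h1 : 0 < a 1)
    (hc : ∀ k, k + 2 ≤ M → a (k + 1) ^ 2 ≤ a k * a (k + 2)) {j k : ℕ} (hj : 0 < j) (hjk : j ≤ k)
    (hk : k ≤ M) : (a j / a 0) ^ k ≤ (a k / a 0) ^ j := by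
  have hpos := lc_pos h0 h1 hc
  -- logarithms
  set d : ℕ → ℝ := fun i => Real.log (a (i + 1)) - Real.log (a i) with hd
  have hmono : ∀ i, i + 2 ≤ M → d i ≤ d (i + 1) := by
    intro i hi
    have e0 := hpos i (by omega)
    have e1 := hpos (i + 1) (by omega)
    have e2 := hpos (i + 2) (by omega)
    have := Real.log_le_log (by positivity) (hc i hi)
    rw [Real.log_pow, Real.log_mul e0.ne' e2.ne'] at this
    simp only [hd]
    push_cast at this
    have e3 : i + 1 + 1 = i + 2 := rfl
    rw [e3]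
    linarith
  have hmono2 : ∀ i r, i + r + 1 ≤ M → d i ≤ d (i + r) := by
    intro i r
    induction r with
    | zero => intro _; exact le_refl _
    | succ r ih =>
      intro h
      exact (ih (by omega)).trans (hmono (i + r) (by omega))
  have hsum : ∀ r, Real.log (a r) - Real.log (a 0) = ∑ i ∈ Finset.range r, d i := by
    intro r
    rw [Finset.sum_range_sub (fun i => Real.log (a i))]
  obtain ⟨r, rfl⟩ := Nat.exists_eq_add_of_le hjk
  have hA : (∑ i ∈ Finset.range j, d i) ≤ j * d (j - 1) := by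
    calc (∑ i ∈ Finset.range j, d i) ≤ ∑ i ∈ Finset.range j, d (j - 1) := by
          refine Finset.sum_le_sum fun i hi => ?_
          rw [Finset.mem_range] at hi
          have : j - 1 = i + (j - 1 - i) := by omega
          rw [this]
          exact hmono2 i _ (by omega)
      _ = j * d (j - 1) := by simp
  have hB : (r : ℝ) * d (j - 1) ≤ ∑ i ∈ Finset.range r, d (j + i) := by
    calc (r : ℝ) * d (j - 1) = ∑ i ∈ Finset.range r, d (j - 1) := by simp
      _ ≤ ∑ i ∈ Finset.range r, d (j + i) := by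
          refine Finset.sum_le_sum fun i hi => ?_
          rw [Finset.mem_range] at hi
          have : j + i = (j - 1) + (i + 1) := by omega
          rw [this]
          exact hmono2 _ _ (by omega)
  have hC : (∑ i ∈ Finset.range (j + r), d i) =
      (∑ i ∈ Finset.range j, d i) + ∑ i ∈ Finset.range r, d (j + i) := Finset.sum_range_add _ _ _
  have hj' := hpos j (by omega)
  have hk' := hpos (j + r) hk
  have hjr : (0 : ℝ) < j := by exact_mod_cast hj
  have key : ((j + r : ℕ) : ℝ) * (Real.log (a j) - Real.log (a 0)) ≤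
      (j : ℝ) * (Real.log (a (j + r)) - Real.log (a 0)) := by
    rw [hsum, hsum, hC]
    push_cast
    have hr0 : (0 : ℝ) ≤ r := Nat.cast_nonneg r
    nlinarith [mul_le_mul_of_nonneg_left hA hr0, mul_le_mul_of_nonneg_left hB hjr.le]
  have p1 : 0 < a j / a 0 := by positivity
  have p2 : 0 < a (j + r) / a 0 := by positivity
  rw [← Real.log_le_log_iff (by positivity) (by positivity), Real.log_pow, Real.log_pow,
    Real.log_div hj'.ne' h0.ne', Real.log_div hk'.ne' h0.ne']
  exact key

section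

variable {Ω : Type*} [MeasurableSpace Ω]

/-- A reflection positive weighted measure: `P` is the reference measure, `w` the weight, `D` the
class of functions of the variables on one side. -/
structure RS (Ω : Type*) [MeasurableSpace Ω] where
  P : Measure Ω
  hP : IsProbabilityMeasure P
  θ : Ω → Ω
  mpθ : MeasurePreserving θ P P
  θθ : ∀ U, θ (θ U) = U
  w : Ω → ℝ
  wbd : Bd w
  wpos : ∀ U, 0 < w U
  wθ : ∀ U, w (θ U) = w U
  Ad : (Ω → ℝ) → Prop
  ad_add : ∀ f g, Ad f → Ad g → Ad (fun U => f U + g U)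
  ad_smul : ∀ (c : ℝ) f, Ad f → Ad (fun U => c * f U)
  rp : ∀ f, Bd f → Ad f → 0 ≤ ∫ U, f U * f (θ U) * w U ∂P

attribute [instance] RS.hP

namespace RS

variable (S : RS Ω)

/-- the unnormalised expectation -/
noncomputable def I (f : Ω → ℝ) : ℝ := ∫ U, f U * S.w U ∂S.P

/-- the reflection form -/
noncomputable def b (f g : Ω → ℝ) : ℝ := ∫ U, f U * g (S.θ U) * S.w U ∂S.P

theorem mθ : Measurable S.θ := S.mpθ.measurable

theorem b_symm {f g : Ω → ℝ} (hf : Bd f) (hg : Bd g) : S.b f g = S.b g f := by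
  unfold b
  rw [mp_int S.mpθ ((hf.mul (hg.comp S.mθ)).mul S.wbd)]
  congr 1
  funext U
  rw [S.θθ, S.wθ]; ring

theorem b_add_left {f f' g : Ω → ℝ} (hf : Bd f) (hf' : Bd f') (hg : Bd g) :
    S.b (fun U => f U + f' U) g = S.b f g + S.b f' g := by
  unfold b
  rw [← integral_add (((hf.mul (hg.comp S.mθ)).mul S.wbd).integrable)
    (((hf'.mul (hg.comp S.mθ)).mul S.wbd).integrable)]
  congr 1
  funext U
  ring

theorem b_smul_left (c : ℝ) {f g : Ω → ℝ} :
    S.b (fun U => c * f U) g = c * S.b f g := by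
  unfold b
  rw [← integral_const_mul]
  congr 1
  funext U
  ring

theorem b_smul_right (c : ℝ) {f g : Ω → ℝ} :
    S.b f (fun U => c * g U) = c * S.b f g := by
  unfold b
  rw [← integral_const_mul]
  congr 1
  funext U
  ring

theorem b_add_right {f g g' : Ω → ℝ} (hf : Bd f) (hg : Bd g) (hg' : Bd g') :
    S.b f (fun U => g U + g' U) = S.b f g + S.b f g' := by
  unfold b
  rw [← integral_add (((hf.mul (hg.comp S.mθ)).mul S.wbd).integrable)
    (((hf.mul (hg'.comp S.mθ)).mul S.wbd).integrable)]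
  congr 1
  funext U
  ring

theorem b_nonneg {f : Ω → ℝ} (hf : Bd f) (hfa : S.Ad f) : 0 ≤ S.b f f := S.rp f hf hfa

/-- the Schwarz inequality, for finite families of functions -/
theorem cs {κ : Type*} (s : Finset κ) {f g : κ → Ω → ℝ} (hf : ∀ c ∈ s, Bd (f c))
    (hg : ∀ c ∈ s, Bd (g c)) (hfa : ∀ c ∈ s, S.Ad (f c)) (hga : ∀ c ∈ s, S.Ad (g c)) :
    (∑ c ∈ s, S.b (f c) (g c)) ^ 2 ≤ (∑ c ∈ s, S.b (f c) (f c)) * ∑ c ∈ s, S.b (g c) (g c) := by
  set A := ∑ c ∈ s, S.b (f c) (f c) with hA
  set B := ∑ c ∈ s, S.b (f c) (g c) with hB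
  set C := ∑ c ∈ s, S.b (g c) (g c) with hC
  have key : ∀ t : ℝ, 0 ≤ C * (t * t) + (2 * B) * t + A := by
    intro t
    have e : ∀ c ∈ s, S.b (fun U => f c U + t * g c U) (fun U => f c U + t * g c U) =
        S.b (g c) (g c) * (t * t) + 2 * S.b (f c) (g c) * t + S.b (f c) (f c) := by
      intro c hc
      have h1 := hf c hc
      have h2 := hg c hc
      rw [S.b_add_left h1 (h2.smul t) (h1.add (h2.smul t)), S.b_add_right h1 h1 (h2.smul t),
        S.b_smul_left t, S.b_add_right h2 h1 (h2.smul t), S.b_smul_right, S.b_smul_right,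
        S.b_symm h2 h1]
      ring
    have h3 : 0 ≤ ∑ c ∈ s, S.b (fun U => f c U + t * g c U) (fun U => f c U + t * g c U) :=
      Finset.sum_nonneg fun c hc => S.b_nonneg ((hf c hc).add ((hg c hc).smul t))
        (S.ad_add _ _ (hfa c hc) (S.ad_smul t _ (hga c hc)))
    rw [Finset.sum_congr rfl e, Finset.sum_add_distrib, Finset.sum_add_distrib,
      ← Finset.sum_mul, ← Finset.sum_mul, ← Finset.mul_sum] at h3
    exact h3
  have hd := discrim_le_zero key
  unfold discrim at hd
  nlinarith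

theorem I_add {f g : Ω → ℝ} (hf : Bd f) (hg : Bd g) :
    S.I (fun U => f U + g U) = S.I f + S.I g := by
  unfold I
  rw [← integral_add ((hf.mul S.wbd).integrable) ((hg.mul S.wbd).integrable)]
  congr 1
  funext U
  ring

theorem I_smul (c : ℝ) {f : Ω → ℝ} : S.I (fun U => c * f U) = c * S.I f := by
  unfold I
  rw [← integral_const_mul]
  congr 1
  funext U
  ring

theorem I_mono {f g : Ω → ℝ} (hf : Bd f) (hg : Bd g) (h : ∀ U, f U ≤ g U) : S.I f ≤ S.I g := by
  unfold I
  exact integral_mono ((hf.mul S.wbd).integrable) ((hg.mul S.wbd).integrable)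
    fun U => mul_le_mul_of_nonneg_right (h U) (S.wpos U).le

theorem I_pos {f : Ω → ℝ} (hf : Bd f) (h : ∀ U, 0 < f U) : 0 < S.I f := by
  unfold I
  have hi : Integrable (fun U => f U * S.w U) S.P := (hf.mul S.wbd).integrable
  refine (integral_pos_iff_support_of_nonneg (fun U => ?_) hi).mpr ?_
  · exact (mul_pos (h U) (S.wpos U)).le
  · have : Function.support (fun U => f U * S.w U) = Set.univ := by
      ext U
      simp only [Function.mem_support, Set.mem_univ, iff_true]
      exact (mul_pos (h U) (S.wpos U)).ne'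
    rw [this]
    simp

/-- translation invariance -/
theorem I_shift {T : Ω → Ω} (hT : MeasurePreserving T S.P S.P) (hw : ∀ U, S.w (T U) = S.w U)
    {f : Ω → ℝ} (hf : Bd f) : S.I (fun U => f (T U)) = S.I f := by
  unfold I
  rw [mp_int hT (hf.mul S.wbd)]
  congr 1
  funext U
  rw [hw]

end RS

end

end Run7.h4.YM
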