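import Mathlib
import Pool.Agent.Run7.h4.YM.Form

/-!
# The chessboard estimate, one direction
-/

open MeasureTheory

namespace Run7.h4.YM

theorem prod_zmod {M : Type*} [CommMonoid M] (n : ℕ) [NeZero n] (f : ZMod n → M) :
    ∏ t, f t = ∏ i ∈ Finset.range n, f (i : ZMod n) := by
  refine Finset.prod_nbij' (fun t => t.val) (fun i => (i : ZMod n)) ?_ ?_ ?_ ?_ ?_
  · intro t _
    simpa using ZMod.val_lt t
  · intro i _
    simp
  · intro t _
    simp
  · intro i hi
    rw [Finset.mem_range] at hi
    exact ZMod.val_cast_of_lt hi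
  · intro t _
    simp

theorem sum_zmod {M : Type*} [AddCommMonoid M] (n : ℕ) [NeZero n] (f : ZMod n → M) :
    ∑ t, f t = ∑ i ∈ Finset.range n, f (i : ZMod n) := by
  refine Finset.sum_nbij' (fun t => t.val) (fun i => (i : ZMod n)) ?_ ?_ ?_ ?_ ?_
  · intro t _
    simpa using ZMod.val_lt t
  · intro i _
    simp
  · intro t _
    simp
  · intro i hi
    rw [Finset.mem_range] at hi
    exact ZMod.val_cast_of_lt hi
  · intro t _
    simp

section

variable {Ω : Type*} [MeasurableSpace Ω]

theorem RS.cs1 (S : RS Ω) {f g : Ω → ℝ} (hf : Bd f) (hg : Bd g) (hfa : S.Ad f) (hga : S.Ad g) :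
    S.b f g ^ 2 ≤ S.b f f * S.b g g := by
  have := S.cs (κ := Unit) {()} (f := fun _ => f) (g := fun _ => g) (fun _ _ => hf) (fun _ _ => hg)
    (fun _ _ => hfa) (fun _ _ => hga)
  simpa using this

omit [MeasurableSpace Ω] in
theorem iter_w {w : Ω → ℝ} {T : Ω → Ω} (hw : ∀ U, w (T U) = w U) (k : ℕ) (U : Ω) :
    w (T^[k] U) = w U := by
  induction k generalizing U with
  | zero => rfl
  | succ k ih => rw [Function.iterate_succ, Function.comp, ih, hw]

/-- The chessboard estimate for functions of one column. -/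
theorem chess (S : RS Ω) {m : ℕ} [NeZero m] (T : Ω → Ω) (hT : MeasurePreserving T S.P S.P)
    (hw : ∀ U, S.w (T U) = S.w U) (q : ZMod (2 * m) → Ω → ℝ) (hq : ∀ t, Bd (q t))
    (hpos : ∀ t U, 0 < q t U) (hqT : ∀ t U, q t (T U) = q (t + 1) U)
    (hqθ : ∀ t U, q t (S.θ U) = q (-t - 1) U)
    (had : ∀ a, a ≤ m → S.Ad (fun U => ∏ i ∈ Finset.range a, q (i : ZMod (2 * m)) U)) :
    (S.I (q 0) / S.I (fun _ => 1)) ^ (2 * m) ≤
      S.I (fun U => ∏ t, q t U) / S.I (fun _ => 1) := by
  have hm : 0 < m := Nat.pos_of_ne_zero (NeZero.ne m)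
  set Q : ℕ → Ω → ℝ := fun a U => ∏ i ∈ Finset.range a, q (i : ZMod (2 * m)) U with hQ
  have hQbd : ∀ a, Bd (Q a) := fun a => Bd.prod _ fun i _ => hq _
  have hQpos : ∀ a U, 0 < Q a U := fun a U => Finset.prod_pos fun i _ => hpos _ _
  set E : ℕ → ℝ := fun a => S.I (Q a) with hE
  have hqk : ∀ (k : ℕ) (t : ZMod (2 * m)) U, q t (T^[k] U) = q (t + k) U := by
    intro k
    induction k with
    | zero => intro t U; simp
    | succ k ih =>
      intro t U
      rw [Function.iterate_succ, Function.comp, ih, hqT]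
      push_cast
      congr 1
      ring
  have hform : ∀ a c : ℕ, S.b (Q a) (Q c) = E (a + c) := by
    intro a c
    have h1 : S.b (Q a) (Q c) = S.I (fun U => Q a U * ∏ i ∈ Finset.range c, q (-(i : ZMod (2 * m)) - 1) U) := by
      unfold RS.b RS.I
      congr 1
      funext U
      simp only [hQ, hqθ]
    have h2 : Bd (fun U => Q a U * ∏ i ∈ Finset.range c, q (-(i : ZMod (2 * m)) - 1) U) :=
      (hQbd a).mul (Bd.prod _ fun i _ => hq _)
    rw [h1, ← S.I_shift (hT.iterate c) (iter_w hw c) h2]
    simp only [hE]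
    congr 1
    funext U
    simp only [hQ, hqk]
    rw [add_comm a c, Finset.prod_range_add, mul_comm]
    congr 1
    · rw [← Finset.prod_range_reflect]
      refine Finset.prod_congr rfl fun i hi => ?_
      rw [Finset.mem_range] at hi
      congr 1
      have : ((c - 1 - i : ℕ) : ZMod (2 * m)) = (c : ZMod (2 * m)) - 1 - i := by
        rw [Nat.cast_sub (by omega), Nat.cast_sub (by omega)]
        simp
      rw [this]; ring
    · refine Finset.prod_congr rfl fun i _ => ?_
      congr 1
      push_cast; ring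
  have hcs : ∀ a c : ℕ, a ≤ m → c ≤ m → E (a + c) ^ 2 ≤ E (2 * a) * E (2 * c) := by
    intro a c ha hc
    have := S.cs1 (hQbd a) (hQbd c) (had a ha) (had c hc)
    rw [hform, hform, hform] at this
    rw [two_mul, two_mul]
    exact this
  have hEpos : ∀ a, 0 < E a := fun a => S.I_pos (hQbd a) (hQpos a)
  have h0 : E 0 = S.I (fun _ => 1) := by
    simp [hE, hQ]
  have h1 : E 1 = S.I (q 0) := by
    simp [hE, hQ]
  have hlast : E (2 * m) = S.I (fun U => ∏ t, q t U) := by
    simp only [hE, hQ]
    congr 1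
    funext U
    rw [prod_zmod]
  have hE0 := hEpos 0
  -- log-convexity
  have key := lc_ratio (a := fun k => E (2 * k)) (M := m) (by simpa using hE0) (hEpos _)
    (fun k hk => by
      have := hcs k (k + 2) (by omega) (by omega)
      have e : k + (k + 2) = 2 * (k + 1) := by ring
      rw [e] at this
      exact this) (j := 1) (k := m) one_pos (by omega) (le_refl m)
  simp only [mul_one, mul_zero, pow_one] at key
  have hfirst : (E 1 / E 0) ^ 2 ≤ E 2 / E 0 := by
    have := hcs 1 0 hm (Nat.zero_le _)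
    simp only [add_zero, mul_one, mul_zero] at this
    rw [div_pow, div_le_div_iff₀ (by positivity) hE0]
    nlinarith
  rw [← h0, ← h1, ← hlast, pow_mul]
  refine le_trans ?_ key
  have := hEpos 1
  exact pow_le_pow_left₀ (by positivity) hfirst m

end

end Run7.h4.YM
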