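import Mathlib
import Pool.Agent.Run7.h4.YM.Chess

/-!
# Reflections of one periodic coordinate of a lattice gauge field
-/

open MeasureTheory

namespace Run7.h4.YM

/-- A reflection of a periodic coordinate: `ve` are the links in the direction of the coordinate. -/
structure Refl (ι : Type*) (m : ℕ) where
  ρ : ι → ι
  ρρ : ∀ i, ρ (ρ i) = i
  co : ι → ZMod (2 * m)
  ve : ι → Prop
  hve : ∀ i, ve (ρ i) ↔ ve i
  hco1 : ∀ i, ve i → co (ρ i) = - co i - 1
  hco2 : ∀ i, ¬ ve i → co (ρ i) = - co i
  hfix : ∀ i, ¬ ve i → co i = - co i → ρ i = i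

namespace Refl

variable {ι : Type*} {m : ℕ}

/-- the links with variables on one side, planes included -/
def D (r : Refl ι m) : Set ι :=
  {i | (r.ve i ∧ (r.co i).val < m) ∨ (¬ r.ve i ∧ (r.co i).val ≤ m)}

/-- the links strictly on one side -/
def R (r : Refl ι m) : Set ι :=
  {i | (r.ve i ∧ (r.co i).val < m) ∨ (¬ r.ve i ∧ 0 < (r.co i).val ∧ (r.co i).val < m)}

open Classical in
/-- the reflected field -/
noncomputable def θ {G : Type*} [Group G] (r : Refl ι m) (U : ι → G) : ι → G :=
  fun i => if r.ve i then (U (r.ρ i))⁻¹ else U (r.ρ i)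

variable {G : Type*} [Group G] (r : Refl ι m)

theorem θ_ve {U : ι → G} {i : ι} (h : r.ve i) : r.θ U i = (U (r.ρ i))⁻¹ := by
  simp [θ, h]

theorem θ_nve {U : ι → G} {i : ι} (h : ¬ r.ve i) : r.θ U i = U (r.ρ i) := by
  simp [θ, h]

theorem θθ (U : ι → G) : r.θ (r.θ U) = U := by
  funext i
  by_cases h : r.ve i
  · rw [r.θ_ve h, r.θ_ve ((r.hve i).mpr h), r.ρρ, inv_inv]
  · rw [r.θ_nve h, r.θ_nve (fun h' => h ((r.hve i).mp h')), r.ρρ]

theorem val_neg [NeZero m] (a : ZMod (2 * m)) :
    (-a).val = if a = 0 then 0 else 2 * m - a.val := by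
  exact ZMod.neg_val a

theorem val_neg_sub [NeZero m] (a : ZMod (2 * m)) : (-a - 1).val = 2 * m - 1 - a.val := by
  have h1 := ZMod.val_lt a
  have : -a - 1 = ((2 * m - 1 - a.val : ℕ) : ZMod (2 * m)) := by
    rw [Nat.cast_sub (by omega), Nat.cast_sub (by omega)]
    rw [ZMod.natCast_zmod_val]
    simp
    ring
  rw [this]
  exact ZMod.val_cast_of_lt (by omega)

theorem eq_neg_of [NeZero m] {a : ZMod (2 * m)} (h : a.val = 0 ∨ a.val = m) : a = -a := by
  apply ZMod.val_injective
  rw [val_neg]
  have h1 := ZMod.val_lt a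
  rcases h with h | h
  · have : a = 0 := (ZMod.val_eq_zero a).mp h
    simp [this]
  · have hm : m ≠ 0 := NeZero.ne m
    have : a ≠ 0 := by
      intro h0
      rw [h0] at h
      simp at h
      omega
    rw [if_neg this]; omega

theorem h1 [NeZero m] (U : ι → G) : ∀ i ∈ r.D, i ∉ r.R → r.θ U i = U i := by
  intro i hi hR
  have hv : ¬ r.ve i := by
    intro hv
    rcases hi with h | h
    · exact hR (Or.inl h)
    · exact h.1 hv
  have h2 : (r.co i).val ≤ m := by
    rcases hi with h | h
    · exact absurd h.1 hv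
    · exact h.2
  have h3 : (r.co i).val = 0 ∨ (r.co i).val = m := by
    by_contra hcon
    push Not at hcon
    exact hR (Or.inr ⟨hv, by omega, by omega⟩)
  rw [r.θ_nve hv, r.hfix i hv (eq_neg_of h3)]

theorem h2 [NeZero m] (U V : ι → G) (h : ∀ i, i ∉ r.R → U i = V i) :
    ∀ i ∈ r.D, r.θ U i = r.θ V i := by
  intro i hi
  by_cases hv : r.ve i
  · rw [r.θ_ve hv, r.θ_ve hv, h]
    intro hR
    have h3 : (r.co i).val < m := by
      rcases hi with h | h
      · exact h.2
      · exact absurd hv h.1
    rcases hR with h | h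
    · rw [r.hco1 i hv, val_neg_sub] at h
      omega
    · exact h.1 ((r.hve i).mpr hv)
  · rw [r.θ_nve hv, r.θ_nve hv, h]
    intro hR
    have h3 : (r.co i).val ≤ m := by
      rcases hi with h | h
      · exact absurd h.1 hv
      · exact h.2
    rcases hR with h | h
    · exact hv ((r.hve i).mp h.1)
    · rw [r.hco2 i hv, val_neg] at h
      split_ifs at h with h0
      · omega
      · omega

variable [Fintype ι] [MeasurableSpace G] [MeasurableInv G] (μ : Measure G)
  [IsProbabilityMeasure μ] [μ.IsInvInvariant]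

theorem mpθ : MeasurePreserving (r.θ : (ι → G) → ι → G) (Measure.pi fun _ : ι => μ)
    (Measure.pi fun _ : ι => μ) := by
  classical
  let σ : ι ≃ ι := ⟨r.ρ, r.ρ, r.ρρ, r.ρρ⟩
  let g : ι → G → G := fun i x => if r.ve i then x⁻¹ else x
  have hg : ∀ i, MeasurePreserving (g i) μ μ := by
    intro i
    by_cases h : r.ve i
    · have : g i = fun x => x⁻¹ := by funext x; simp [g, h]
      rw [this]
      exact Measure.measurePreserving_inv μ
    · have : g i = id := by funext x; simp [g, h]
      rw [this]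
      exact MeasurePreserving.id μ
  have := mp_gen μ σ g hg
  have e : (r.θ : (ι → G) → ι → G) = fun (U : ι → G) i => g i (U (σ i)) := by
    funext U i
    by_cases h : r.ve i
    · rw [r.θ_ve h]; simp [g, σ, h]
    · rw [r.θ_nve h]; simp [g, σ, h]
  rw [e]
  exact this

/-- the reflection positive weighted measure -/
noncomputable def rs [NeZero m] (A AR : (ι → G) → ℝ) (hAR : Bd AR) (hARD : DependsOn AR r.D)
    (hA : ∀ U, A U = AR U + AR (r.θ U)) : RS (ι → G) where
  P := Measure.pi fun _ : ι => μ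
  hP := inferInstance
  θ := r.θ
  mpθ := r.mpθ μ
  θθ := r.θθ
  w := fun U => Real.exp (- A U)
  wbd := by
    have h : Bd (fun U => AR U + AR (r.θ U)) := hAR.add (hAR.comp (r.mpθ μ).measurable)
    exact ((h.congr hA).neg).exp
  wpos := fun U => Real.exp_pos _
  wθ := fun U => by rw [hA, hA, r.θθ, add_comm]
  Ad := fun f => DependsOn f r.D
  ad_add := fun f g hf hg U V h => by
    show f U + g U = f V + g V
    rw [hf h, hg h]
  ad_smul := fun c f hf U V h => by
    show c * f U = c * f V
    rw [hf h]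
  rp := by
    intro f hf hfa
    have h := rp_core μ r.θ (r.mpθ μ) r.θθ r.D r.R r.h1 r.h2
      (fun U => f U * Real.exp (- AR U)) (hf.mul hAR.neg.exp) (by
        intro U V h
        show f U * Real.exp (- AR U) = f V * Real.exp (- AR V)
        rw [hfa h, hARD h])
    refine h.trans (le_of_eq ?_)
    congr 1
    funext U
    rw [hA, neg_add, Real.exp_add]
    ring

end Refl

end Run7.h4.YM
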