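import Mathlib

/-!
# SU(N) lattice Yang-Mills theory on the torus `Z/n x Z/L x (Z/l)^2` with 't Hooft flux
-/

open MeasureTheory

namespace Run7.h4.YM

/-- the group `SU(N)` -/
abbrev SU (N : ℕ) : Type := Matrix.specialUnitaryGroup (Fin N) ℂ

/-- the sites of the periodic lattice with sides `n, L, l, l` -/
abbrev Site (n L l : ℕ) : Type := ZMod n × ZMod L × ZMod l × ZMod l

/-- the positively oriented links: `(i, x)` joins `x` to `x + dir i` -/
abbrev Link (n L l : ℕ) : Type := Fin 4 × Site n L l

/-- the unit vectors -/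
def dir {n L l : ℕ} : Fin 4 → Site n L l := ![(1, 0, 0, 0), (0, 1, 0, 0), (0, 0, 1, 0), (0, 0, 0, 1)]

/-- the product of the link variables around the plaquette at `x` in the plane `(i, j)` -/
def plaq {N n L l : ℕ} (U : Link n L l → SU N) (x : Site n L l) (i j : Fin 4) : SU N :=
  U (i, x) * U (j, x + dir i) * (U (i, x + dir j))⁻¹ * (U (j, x))⁻¹

/-- the 't Hooft twist: the plaquettes in the plane `(2, 3)` at the sites with last two
coordinates `0` carry the centre element `exp (2 π i k / N)` -/
noncomputable def twist {n L l : ℕ} (N k : ℕ) (x : Site n L l) (i j : Fin 4) : ℂ :=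
  if i = 2 ∧ j = 3 ∧ x.2.2 = 0 then Complex.exp (2 * Real.pi * Complex.I * (k / N)) else 1

/-- the Wilson action -/
noncomputable def action {N n L l : ℕ} [NeZero n] [NeZero L] [NeZero l] (k : ℕ)
    (U : Link n L l → SU N) : ℝ :=
  ∑ x : Site n L l, ∑ i : Fin 4, ∑ j ∈ Finset.Ioi i,
    ((N : ℝ) - (twist N k x i j * Matrix.trace (plaq U x i j).1).re)

/-- the product of the link variables along the closed line in direction `0` through the site
with coordinates `0, x, 0, 0` -/
def line {N n L l : ℕ} (U : Link n L l → SU N) (x : ZMod L) : SU N :=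
  ((List.range n).map fun t : ℕ => U (0, ((t : ZMod n), x, 0, 0))).prod

/-- the normalised expectation with respect to the Wilson weight `exp (- β action)` times the
product of the measures `μ` -/
noncomputable def expect {N n L l : ℕ} [NeZero n] [NeZero L] [NeZero l] [MeasurableSpace (SU N)]
    (μ : Measure (SU N)) (k : ℕ) (β : ℝ) (f : (Link n L l → SU N) → ℝ) : ℝ :=
  (∫ U, f U * Real.exp (-(β * action k U)) ∂(Measure.pi fun _ : Link n L l => μ)) /
    ∫ U, Real.exp (-(β * action k U)) ∂(Measure.pi fun _ : Link n L l => μ)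

/-- the correlation of the normalised traces of two Polyakov loops at distance `R` -/
noncomputable def polyakov {N : ℕ} (n L l : ℕ) [NeZero n] [NeZero L] [NeZero l]
    [MeasurableSpace (SU N)] (μ : Measure (SU N)) (k : ℕ) (β : ℝ) (R : ℕ) : ℝ :=
  expect μ k β fun U : Link n L l → SU N =>
    (Matrix.trace (line U 0).1 / N * star (Matrix.trace (line U (R : ZMod L)).1 / N)).re

end Run7.h4.YM
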