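import Mathlib
import Pool.Agent.Run7.h4.YM.Defs
import Pool.Agent.Run7.h4.YM.Chess

/-!
# The cells of the base lattice
-/

open MeasureTheory

namespace Run7.h4.YM

noncomputable section

variable {N n L l : ℕ}

/-- the energy of a plaquette -/
def aw (c : ℂ) (g : SU N) : ℝ := (N : ℝ) - (c * Matrix.trace g.1).re

/-- the twist as a function of the coordinates in the fibre -/
def twf (N k : ℕ) (y : ZMod l × ZMod l) : ℂ :=
  if y = 0 then Complex.exp (2 * Real.pi * Complex.I * (k / N)) else 1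

variable [NeZero n] [NeZero L] [NeZero l] (k : ℕ) (U : Link n L l → SU N) (t : ZMod n) (x : ZMod L)

/-- energy of the fibre -/
def Vf : ℝ := ∑ y : ZMod l × ZMod l, aw (twf N k y) (U (2, t, x, y) * U (3, t, x, y + (1, 0)) *
    (U (2, t, x, y + (0, 1)))⁻¹ * (U (3, t, x, y))⁻¹)

/-- energy of the plaquettes in the planes `(0,2)`, `(0,3)` -/
def K0 : ℝ := ∑ y : ZMod l × ZMod l, (aw 1 (U (0, t, x, y) * U (2, t + 1, x, y) *
    (U (0, t, x, y + (1, 0)))⁻¹ * (U (2, t, x, y))⁻¹) + aw 1 (U (0, t, x, y) * U (3, t + 1, x, y) *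
    (U (0, t, x, y + (0, 1)))⁻¹ * (U (3, t, x, y))⁻¹))

/-- energy of the plaquettes in the planes `(1,2)`, `(1,3)` -/
def K1 : ℝ := ∑ y : ZMod l × ZMod l, (aw 1 (U (1, t, x, y) * U (2, t, x + 1, y) *
    (U (1, t, x, y + (1, 0)))⁻¹ * (U (2, t, x, y))⁻¹) + aw 1 (U (1, t, x, y) * U (3, t, x + 1, y) *
    (U (1, t, x, y + (0, 1)))⁻¹ * (U (3, t, x, y))⁻¹))

/-- energy of the plaquettes in the plane `(0,1)` -/
def Wf : ℝ := ∑ y : ZMod l × ZMod l, aw 1 (U (0, t, x, y) * U (1, t + 1, x, y) *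
    (U (0, t, x + 1, y))⁻¹ * (U (1, t, x, y))⁻¹)

/-- energy of a cell of the base -/
def cell : ℝ := (Vf k U t x + Vf k U (t + 1) x + Vf k U t (x + 1) + Vf k U (t + 1) (x + 1)) / 4 +
  (K0 U t x + K0 U t (x + 1) + K1 U t x + K1 U (t + 1) x) / 2 + Wf U t x

theorem action_eq : action k U = ∑ t, ∑ x, (Vf k U t x + K0 U t x + K1 U t x + Wf U t x) := by
  unfold action
  have hI0 : (Finset.Ioi (0 : Fin 4)) = {1, 2, 3} := by decide
  have hI1 : (Finset.Ioi (1 : Fin 4)) = {2, 3} := by decide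
  have hI2 : (Finset.Ioi (2 : Fin 4)) = {3} := by decide
  have hI3 : (Finset.Ioi (3 : Fin 4)) = ∅ := by decide
  rw [Fintype.sum_prod_type]
  refine Finset.sum_congr rfl fun t _ => ?_
  rw [Fintype.sum_prod_type]
  refine Finset.sum_congr rfl fun x _ => ?_
  unfold Vf K0 K1 Wf
  rw [← Finset.sum_add_distrib, ← Finset.sum_add_distrib, ← Finset.sum_add_distrib]
  refine Finset.sum_congr rfl fun y _ => ?_
  obtain ⟨a, b⟩ := y
  rw [Fin.sum_univ_four, hI0, hI1, hI2, hI3]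
  simp [twist, twf, plaq, dir, aw, Prod.mk_eq_zero]
  ring

theorem action_cell : action k U = ∑ t, ∑ x, cell k U t x := by
  rw [action_eq]
  have ht : ∀ f : ZMod n → ZMod L → ℝ, ∑ t, ∑ x, f (t + 1) x = ∑ t, ∑ x, f t x := fun f =>
    Equiv.sum_comp (Equiv.addRight (1 : ZMod n)) (fun t => ∑ x, f t x)
  have hx : ∀ f : ZMod n → ZMod L → ℝ, ∑ t, ∑ x, f t (x + 1) = ∑ t, ∑ x, f t x := fun f =>
    Finset.sum_congr rfl fun t _ => Equiv.sum_comp (Equiv.addRight (1 : ZMod L)) (fun x => f t x)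
  unfold cell
  simp only [Finset.sum_add_distrib, ← Finset.sum_div]
  rw [ht (fun t x => Vf k U t x), hx (fun t x => Vf k U t x), hx (fun t x => K0 U t x),
    ht (fun t x => K1 U t x)]
  rw [hx (fun t x => Vf k U (t + 1) x), ht (fun t x => Vf k U t x)]
  ring

end

end Run7.h4.YM
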