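import Mathlib
import Pool.Agent.Run7.h4.YM.Model

/-!
# Topology of `SU(N)`
-/

open MeasureTheory Matrix

namespace Run7.h4.YM

/-- A Haar probability measure is invariant under right multiplications. -/
theorem right_inv {H : Type*} [Group H] [TopologicalSpace H] [IsTopologicalGroup H]
    [CompactSpace H] [MeasurableSpace H] [BorelSpace H] (μ : Measure H)
    [IsProbabilityMeasure μ] [μ.IsHaarMeasure] : μ.IsMulRightInvariant := by
  refine ⟨fun g => ?_⟩
  have h1 : IsProbabilityMeasure (Measure.map (fun x => x * g) μ) :=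
    Measure.isProbabilityMeasure_map (measurable_mul_const g).aemeasurable
  exact Measure.isHaarMeasure_eq_of_isProbabilityMeasure _ _

/-- A Haar probability measure is invariant under the inversion. -/
theorem inv_inv' {H : Type*} [Group H] [TopologicalSpace H] [IsTopologicalGroup H]
    [CompactSpace H] [MeasurableSpace H] [BorelSpace H] (μ : Measure H)
    [IsProbabilityMeasure μ] [μ.IsHaarMeasure] : μ.IsInvInvariant := by
  have hr := right_inv μ
  refine ⟨?_⟩
  have h1 : IsProbabilityMeasure μ.inv :=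
    Measure.isProbabilityMeasure_map measurable_inv.aemeasurable
  have h2 : μ.inv.IsMulLeftInvariant := inferInstance
  have h3 : μ.inv.IsHaarMeasure :=
    Measure.isHaarMeasure_of_isCompact_nonempty_interior μ.inv Set.univ isCompact_univ
      (by simp) (by simp) (by simp)
  exact Measure.isHaarMeasure_eq_of_isProbabilityMeasure _ _

variable {N : ℕ}

instance : IsTopologicalGroup (SU N) where
  continuous_inv := by
    refine Continuous.subtype_mk ?_ _
    exact continuous_star.comp continuous_subtype_val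

theorem SU_mem_iff (A : Matrix (Fin N) (Fin N) ℂ) :
    A ∈ specialUnitaryGroup (Fin N) ℂ ↔ A * star A = 1 ∧ A.det = 1 := by
  rw [mem_specialUnitaryGroup_iff, mem_unitaryGroup_iff]

theorem entry_le (g : SU N) (i j : Fin N) : ‖g.1 i j‖ ≤ 1 :=
  entry_norm_bound_of_unitary (specialUnitaryGroup_le_unitaryGroup g.2) i j

instance : CompactSpace (SU N) := by
  suffices h : IsCompact ((specialUnitaryGroup (Fin N) ℂ : Submonoid _) :
      Set (Matrix (Fin N) (Fin N) ℂ)) from isCompact_iff_compactSpace.mp h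
  have hc : IsClosed ((specialUnitaryGroup (Fin N) ℂ : Submonoid _) :
      Set (Matrix (Fin N) (Fin N) ℂ)) := by
    have : ((specialUnitaryGroup (Fin N) ℂ : Submonoid _) : Set (Matrix (Fin N) (Fin N) ℂ)) =
        {A | A * star A = 1} ∩ {A | A.det = 1} := by
      ext A
      exact SU_mem_iff A
    rw [this]
    refine IsClosed.inter ?_ ?_
    · exact isClosed_eq (continuous_id.mul continuous_star) continuous_const
    · exact isClosed_eq (Continuous.matrix_det continuous_id) continuous_const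
  have hsub : ((specialUnitaryGroup (Fin N) ℂ : Submonoid _) : Set (Matrix (Fin N) (Fin N) ℂ)) ⊆
      Set.univ.pi (fun _ => Set.univ.pi fun _ => Metric.closedBall (0 : ℂ) 1) := by
    intro A hA i _ j _
    simpa using entry_le ⟨A, hA⟩ i j
  refine IsCompact.of_isClosed_subset ?_ hc hsub
  exact isCompact_univ_pi fun _ => isCompact_univ_pi fun _ => isCompact_closedBall _ _

instance : SecondCountableTopology (Matrix (Fin N) (Fin N) ℂ) :=
  inferInstanceAs (SecondCountableTopology (Fin N → Fin N → ℂ))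

instance : SecondCountableTopology (SU N) :=
  TopologicalSpace.Subtype.secondCountableTopology _

theorem continuous_coe : Continuous (fun g : SU N => g.1) := continuous_subtype_val

theorem continuous_tr : Continuous (fun g : SU N => trace g.1) :=
  Continuous.matrix_trace continuous_subtype_val

theorem continuous_aw (c : ℂ) : Continuous (fun g : SU N => aw c g) := by
  unfold aw
  exact continuous_const.sub (Complex.continuous_re.comp (continuous_const.mul continuous_tr))

theorem coe_mul' (a b : SU N) : (a * b).1 = a.1 * b.1 := rfl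
theorem coe_one' : (1 : SU N).1 = 1 := rfl
theorem coe_inv' (a : SU N) : (a⁻¹).1 = star a.1 := rfl

theorem mul_star_self' (a : SU N) : a.1 * star a.1 = 1 := ((SU_mem_iff a.1).mp a.2).1
theorem star_mul_self' (a : SU N) : star a.1 * a.1 = 1 := by
  rw [← coe_inv', ← coe_mul', inv_mul_cancel]; rfl

theorem tr_cyc (a b : SU N) : trace (a * b).1 = trace (b * a).1 := by
  rw [coe_mul', coe_mul', Matrix.trace_mul_comm]

theorem tr_inv (a : SU N) : trace (a⁻¹).1 = star (trace a.1) := by
  rw [coe_inv', star_eq_conjTranspose, Matrix.trace_conjTranspose]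

theorem aw_inv (a : SU N) : aw 1 a⁻¹ = aw 1 a := by
  unfold aw
  rw [tr_inv]
  simp

theorem aw_cyc (c : ℂ) (a b : SU N) : aw c (a * b) = aw c (b * a) := by
  unfold aw
  rw [tr_cyc]

theorem aw_flip (a b c d : SU N) : aw 1 (a⁻¹ * b * c * d⁻¹) = aw 1 (a * d * c⁻¹ * b⁻¹) := by
  rw [← aw_inv (a * d * c⁻¹ * b⁻¹)]
  have e1 : (a * d * c⁻¹ * b⁻¹)⁻¹ = (b * c * d⁻¹) * a⁻¹ := by group
  have e2 : a⁻¹ * b * c * d⁻¹ = a⁻¹ * (b * c * d⁻¹) := by group
  rw [e1, e2, aw_cyc]

theorem aw_flip2 (a b c d : SU N) : aw 1 (a * b⁻¹ * c⁻¹ * d) = aw 1 (c * b * a⁻¹ * d⁻¹) := by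
  rw [← aw_inv (c * b * a⁻¹ * d⁻¹)]
  have e1 : (c * b * a⁻¹ * d⁻¹)⁻¹ = d * (a * b⁻¹ * c⁻¹) := by group
  rw [e1, aw_cyc]

/-- `Re tr (a b*)` -/
theorem re_tr_mul_inv (a b : SU N) : (trace (a * b⁻¹).1).re =
    ∑ i, ∑ j, (a.1 i j * star (b.1 i j)).re := by
  rw [coe_mul', coe_inv', Matrix.trace]
  simp only [Matrix.diag, Matrix.mul_apply, star_eq_conjTranspose, conjTranspose_apply,
    Complex.re_sum]

theorem sum_norm_sq (a : SU N) : ∑ i, ∑ j, ‖a.1 i j‖ ^ 2 = N := by
  have h := re_tr_mul_inv a a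
  rw [mul_inv_cancel, coe_one', Matrix.trace_one] at h
  simp only [Fintype.card_fin, Complex.natCast_re] at h
  rw [h]
  refine Finset.sum_congr rfl fun i _ => Finset.sum_congr rfl fun j _ => ?_
  rw [← Complex.normSq_eq_norm_sq, RCLike.star_def, Complex.mul_conj, Complex.ofReal_re]

/-- the Hilbert-Schmidt distance -/
noncomputable def dd (a b : SU N) : ℝ := Real.sqrt (∑ i, ∑ j, ‖a.1 i j - b.1 i j‖ ^ 2)

theorem dd_nonneg (a b : SU N) : 0 ≤ dd a b := Real.sqrt_nonneg _

theorem dd_sq (a b : SU N) : dd a b ^ 2 = ∑ i, ∑ j, ‖a.1 i j - b.1 i j‖ ^ 2 :=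
  Real.sq_sqrt (Finset.sum_nonneg fun _ _ => Finset.sum_nonneg fun _ _ => sq_nonneg _)

theorem dd_sq_tr (a b : SU N) : dd a b ^ 2 = 2 * (N - (trace (a * b⁻¹).1).re) := by
  rw [dd_sq, re_tr_mul_inv]
  have h1 := sum_norm_sq a
  have h2 := sum_norm_sq b
  have h3 : ∀ i j, ‖a.1 i j - b.1 i j‖ ^ 2 = ‖a.1 i j‖ ^ 2 + ‖b.1 i j‖ ^ 2 -
      2 * (a.1 i j * star (b.1 i j)).re := by
    intro i j
    rw [← Complex.normSq_eq_norm_sq, ← Complex.normSq_eq_norm_sq, ← Complex.normSq_eq_norm_sq,
      Complex.normSq_sub]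
    rfl
  simp only [h3, Finset.sum_sub_distrib, Finset.sum_add_distrib, h1, h2, ← Finset.mul_sum]
  ring

theorem aw_one_eq (a : SU N) : aw 1 a = dd a 1 ^ 2 / 2 := by
  rw [dd_sq_tr]
  unfold aw
  simp

theorem dd_comm (a b : SU N) : dd a b = dd b a := by
  unfold dd
  simp only [norm_sub_rev]

theorem dd_self (a : SU N) : dd a a = 0 := by
  unfold dd; simp

theorem dd_eq_iff {a b : SU N} : dd a b = 0 ↔ a = b := by
  constructor
  · intro h
    have h1 := dd_sq a b
    rw [h] at h1
    have h2 : ∑ i, ∑ j, ‖a.1 i j - b.1 i j‖ ^ 2 = 0 := by rw [← h1]; ring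
    rw [Finset.sum_eq_zero_iff_of_nonneg (fun _ _ => Finset.sum_nonneg fun _ _ => sq_nonneg _)] at h2
    refine Subtype.ext (Matrix.ext fun i j => ?_)
    have h3 := h2 i (Finset.mem_univ i)
    rw [Finset.sum_eq_zero_iff_of_nonneg (fun _ _ => sq_nonneg _)] at h3
    have h4 := h3 j (Finset.mem_univ j)
    exact sub_eq_zero.mp (norm_eq_zero.mp (pow_eq_zero_iff (two_ne_zero) |>.mp h4))
  · rintro rfl
    exact dd_self a

section

open scoped Matrix.Norms.Frobenius

theorem dd_eq_norm (a b : SU N) : dd a b = ‖a.1 - b.1‖ := by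
  rw [Matrix.frobenius_norm_def]
  unfold dd
  rw [Real.sqrt_eq_rpow]
  simp

theorem dd_triangle (a b c : SU N) : dd a c ≤ dd a b + dd b c := by
  rw [dd_eq_norm, dd_eq_norm, dd_eq_norm]
  have : a.1 - c.1 = (a.1 - b.1) + (b.1 - c.1) := by abel
  rw [this]
  exact norm_add_le _ _

end

theorem dd_of_sq {a b c d : SU N} (h : dd a b ^ 2 = dd c d ^ 2) : dd a b = dd c d :=
  (sq_eq_sq₀ (dd_nonneg _ _) (dd_nonneg _ _)).mp h

theorem dd_mul_right (a b c : SU N) : dd (a * c) (b * c) = dd a b := by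
  apply dd_of_sq
  rw [dd_sq_tr, dd_sq_tr]
  have : a * c * (b * c)⁻¹ = a * b⁻¹ := by group
  rw [this]

theorem dd_mul_left (a b c : SU N) : dd (c * a) (c * b) = dd a b := by
  apply dd_of_sq
  rw [dd_sq_tr, dd_sq_tr]
  have : c * a * (c * b)⁻¹ = c * (a * b⁻¹ * c⁻¹) := by group
  rw [this, tr_cyc]
  have : a * b⁻¹ * c⁻¹ * c = a * b⁻¹ := by group
  rw [this]

theorem dd_inv (a b : SU N) : dd a⁻¹ b⁻¹ = dd a b := by
  have h1 := dd_mul_left a⁻¹ b⁻¹ a
  rw [← h1, mul_inv_cancel]
  have h2 := dd_mul_right 1 (a * b⁻¹) b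
  rw [← h2, one_mul, inv_mul_cancel_right, dd_comm]

theorem dd_mul_mul (a b c d : SU N) : dd (a * b) (c * d) ≤ dd a c + dd b d := by
  have h := dd_triangle (a * b) (c * b) (c * d)
  rw [dd_mul_right, dd_mul_left] at h
  exact h

theorem continuous_dd : Continuous (fun p : SU N × SU N => dd p.1 p.2) := by
  unfold dd
  refine Real.continuous_sqrt.comp ?_
  refine continuous_finsetSum _ fun i _ => continuous_finsetSum _ fun j _ => ?_
  refine (Continuous.norm ?_).pow 2
  exact ((continuous_apply_apply i j).comp (continuous_coe.comp continuous_fst)).sub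
    ((continuous_apply_apply i j).comp (continuous_coe.comp continuous_snd))

theorem continuous_dd' {X : Type*} [TopologicalSpace X] {f g : X → SU N} (hf : Continuous f)
    (hg : Continuous g) : Continuous (fun x => dd (f x) (g x)) := by
  have h1 : Continuous (fun x => (f x, g x)) := hf.prodMk hg
  have h2 := Continuous.comp (g := fun p : SU N × SU N => dd p.1 p.2) continuous_dd h1
  exact h2

end Run7.h4.YM
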