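import Mathlib
import Pool.Agent.Run7.h4.YM.SUN
import Pool.Agent.Run7.h4.YM.Refl

/-!
# Reflections and translations of the base
-/

open MeasureTheory Matrix

namespace Run7.h4.YM

set_option linter.unusedSectionVars false

noncomputable section

variable {N : ℕ}

/-- the reflection `t ↦ -t` of the coordinate in direction `0` -/
def r0 (m L l : ℕ) : Refl (Link (2 * m) L l) m where
  ρ := fun e => (e.1, (if e.1 = 0 then -e.2.1 - 1 else -e.2.1, e.2.2))
  ρρ := by
    rintro ⟨i, t, x⟩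
    by_cases h : i = 0 <;> simp [h]
  co := fun e => e.2.1
  ve := fun e => e.1 = 0
  hve := fun e => Iff.rfl
  hco1 := fun e h => by simp [h]
  hco2 := fun e h => by simp [h]
  hfix := by
    rintro ⟨i, t, x⟩ h h'
    simp only at h h'
    simp [h, ← h']

/-- the reflection `x ↦ -x` of the coordinate in direction `1` -/
def r1 (n m l : ℕ) : Refl (Link n (2 * m) l) m where
  ρ := fun e => (e.1, (e.2.1, (if e.1 = 1 then -e.2.2.1 - 1 else -e.2.2.1, e.2.2.2)))
  ρρ := by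
    rintro ⟨i, t, x, y⟩
    by_cases h : i = 1 <;> simp [h]
  co := fun e => e.2.2.1
  ve := fun e => e.1 = 1
  hve := fun e => Iff.rfl
  hco1 := fun e h => by simp [h]
  hco2 := fun e h => by simp [h]
  hfix := by
    rintro ⟨i, t, x, y⟩ h h'
    simp only at h h'
    simp [h, ← h']

/-- the translation by one unit in direction `0` -/
def T0 {G : Type*} {n L l : ℕ} (U : Link n L l → G) : Link n L l → G :=
  fun e => U (e.1, (e.2.1 + 1, e.2.2))

/-- the translation by one unit in direction `1` -/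
def T1 {G : Type*} {n L l : ℕ} (U : Link n L l → G) : Link n L l → G :=
  fun e => U (e.1, (e.2.1, (e.2.2.1 + 1, e.2.2.2)))

section symm

variable {n L l m k : ℕ} [NeZero n] [NeZero L] [NeZero l] [NeZero m]

theorem r0_0 (U : Link (2 * m) L l → SU N) (t x y) :
    (r0 m L l).θ U (0, t, x, y) = (U (0, -t - 1, x, y))⁻¹ := by
  rw [Refl.θ_ve]
  · rfl
  · rfl

theorem r0_1 (U : Link (2 * m) L l → SU N) (t x y) :
    (r0 m L l).θ U (1, t, x, y) = U (1, -t, x, y) := by
  rw [Refl.θ_nve]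
  · rfl
  · intro h; exact absurd h (by decide : (1 : Fin 4) ≠ 0)

theorem r0_2 (U : Link (2 * m) L l → SU N) (t x y) :
    (r0 m L l).θ U (2, t, x, y) = U (2, -t, x, y) := by
  rw [Refl.θ_nve]
  · rfl
  · intro h; exact absurd h (by decide : (2 : Fin 4) ≠ 0)

theorem r0_3 (U : Link (2 * m) L l → SU N) (t x y) :
    (r0 m L l).θ U (3, t, x, y) = U (3, -t, x, y) := by
  rw [Refl.θ_nve]
  · rfl
  · intro h; exact absurd h (by decide : (3 : Fin 4) ≠ 0)

theorem r1_0 (U : Link n (2 * m) l → SU N) (t x y) :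
    (r1 n m l).θ U (0, t, x, y) = U (0, t, -x, y) := by
  rw [Refl.θ_nve]
  · rfl
  · intro h; exact absurd h (by decide : (0 : Fin 4) ≠ 1)

theorem r1_1 (U : Link n (2 * m) l → SU N) (t x y) :
    (r1 n m l).θ U (1, t, x, y) = (U (1, t, -x - 1, y))⁻¹ := by
  rw [Refl.θ_ve]
  · rfl
  · rfl

theorem r1_2 (U : Link n (2 * m) l → SU N) (t x y) :
    (r1 n m l).θ U (2, t, x, y) = U (2, t, -x, y) := by
  rw [Refl.θ_nve]
  · rfl
  · intro h; exact absurd h (by decide : (2 : Fin 4) ≠ 1)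

theorem r1_3 (U : Link n (2 * m) l → SU N) (t x y) :
    (r1 n m l).θ U (3, t, x, y) = U (3, t, -x, y) := by
  rw [Refl.θ_nve]
  · rfl
  · intro h; exact absurd h (by decide : (3 : Fin 4) ≠ 1)

theorem Vf_r0 (U : Link (2 * m) L l → SU N) (t x) :
    Vf k ((r0 m L l).θ U) t x = Vf k U (-t) x := by
  unfold Vf
  simp only [r0_2, r0_3]

theorem K0_r0 (U : Link (2 * m) L l → SU N) (t x) :
    K0 ((r0 m L l).θ U) t x = K0 U (-t - 1) x := by
  unfold K0
  simp only [r0_0, r0_2, r0_3, inv_inv]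
  refine Finset.sum_congr rfl fun y _ => ?_
  rw [aw_flip, aw_flip]
  have e1 : -t - 1 + 1 = -t := by ring
  have e2 : -(t + 1) = -t - 1 := by ring
  rw [e1, e2]

theorem K1_r0 (U : Link (2 * m) L l → SU N) (t x) :
    K1 ((r0 m L l).θ U) t x = K1 U (-t) x := by
  unfold K1
  simp only [r0_1, r0_2, r0_3]

theorem Wf_r0 (U : Link (2 * m) L l → SU N) (t x) :
    Wf ((r0 m L l).θ U) t x = Wf U (-t - 1) x := by
  unfold Wf
  simp only [r0_0, r0_1, inv_inv]
  refine Finset.sum_congr rfl fun y _ => ?_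
  rw [aw_flip]
  have e1 : -t - 1 + 1 = -t := by ring
  have e2 : -(t + 1) = -t - 1 := by ring
  rw [e1, e2]

theorem cell_r0 (U : Link (2 * m) L l → SU N) (t x) :
    cell k ((r0 m L l).θ U) t x = cell k U (-t - 1) x := by
  unfold cell
  simp only [Vf_r0, K0_r0, K1_r0, Wf_r0]
  have e1 : -t - 1 + 1 = -t := by ring
  have e2 : -(t + 1) = -t - 1 := by ring
  rw [e1, e2]
  ring

theorem Vf_r1 (U : Link n (2 * m) l → SU N) (t x) :
    Vf k ((r1 n m l).θ U) t x = Vf k U t (-x) := by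
  unfold Vf
  simp only [r1_2, r1_3]

theorem K0_r1 (U : Link n (2 * m) l → SU N) (t x) :
    K0 ((r1 n m l).θ U) t x = K0 U t (-x) := by
  unfold K0
  simp only [r1_0, r1_2, r1_3]

theorem K1_r1 (U : Link n (2 * m) l → SU N) (t x) :
    K1 ((r1 n m l).θ U) t x = K1 U t (-x - 1) := by
  unfold K1
  simp only [r1_1, r1_2, r1_3, inv_inv]
  refine Finset.sum_congr rfl fun y _ => ?_
  rw [aw_flip, aw_flip]
  have e1 : -x - 1 + 1 = -x := by ring
  have e2 : -(x + 1) = -x - 1 := by ring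
  rw [e1, e2]

theorem Wf_r1 (U : Link n (2 * m) l → SU N) (t x) :
    Wf ((r1 n m l).θ U) t x = Wf U t (-x - 1) := by
  unfold Wf
  simp only [r1_0, r1_1, inv_inv]
  refine Finset.sum_congr rfl fun y _ => ?_
  rw [aw_flip2]
  have e1 : -x - 1 + 1 = -x := by ring
  have e2 : -(x + 1) = -x - 1 := by ring
  rw [e1, e2]

theorem cell_r1 (U : Link n (2 * m) l → SU N) (t x) :
    cell k ((r1 n m l).θ U) t x = cell k U t (-x - 1) := by
  unfold cell
  simp only [Vf_r1, K0_r1, K1_r1, Wf_r1]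
  have e1 : -x - 1 + 1 = -x := by ring
  have e2 : -(x + 1) = -x - 1 := by ring
  rw [e1, e2]
  ring

theorem cell_T0 (U : Link n L l → SU N) (t x) : cell k (T0 U) t x = cell k U (t + 1) x := by
  unfold cell Vf K0 K1 Wf T0
  rfl

theorem cell_T1 (U : Link n L l → SU N) (t x) : cell k (T1 U) t x = cell k U t (x + 1) := by
  unfold cell Vf K0 K1 Wf T1
  rfl

/-- locality of the cell, direction `0` -/
theorem cell_congr0 {U U' : Link n L l → SU N} {t : ZMod n} {x : ZMod L}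
    (h : ∀ j x y, U (j, t, x, y) = U' (j, t, x, y))
    (h' : ∀ j x y, j ≠ 0 → U (j, t + 1, x, y) = U' (j, t + 1, x, y)) :
    cell k U t x = cell k U' t x := by
  have h1 : ∀ x y, U (1, t + 1, x, y) = U' (1, t + 1, x, y) := fun x y => h' 1 x y (by decide)
  have h2 : ∀ x y, U (2, t + 1, x, y) = U' (2, t + 1, x, y) := fun x y => h' 2 x y (by decide)
  have h3 : ∀ x y, U (3, t + 1, x, y) = U' (3, t + 1, x, y) := fun x y => h' 3 x y (by decide)
  unfold cell Vf K0 K1 Wf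
  simp only [h, h1, h2, h3]

/-- locality of the cell, direction `1` -/
theorem cell_congr1 {U U' : Link n L l → SU N} {t : ZMod n} {x : ZMod L}
    (h : ∀ j t y, U (j, t, x, y) = U' (j, t, x, y))
    (h' : ∀ j t y, j ≠ 1 → U (j, t, x + 1, y) = U' (j, t, x + 1, y)) :
    cell k U t x = cell k U' t x := by
  have h1 : ∀ t y, U (0, t, x + 1, y) = U' (0, t, x + 1, y) := fun x y => h' 0 x y (by decide)
  have h2 : ∀ t y, U (2, t, x + 1, y) = U' (2, t, x + 1, y) := fun x y => h' 2 x y (by decide)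
  have h3 : ∀ t y, U (3, t, x + 1, y) = U' (3, t, x + 1, y) := fun x y => h' 3 x y (by decide)
  unfold cell Vf K0 K1 Wf
  simp only [h, h1, h2, h3]

end symm

section D

variable {n L l m : ℕ} [NeZero n] [NeZero L] [NeZero l] [NeZero m]

theorem mem_D0_iff {j : Fin 4} {t : ZMod (2 * m)} {x : ZMod L} {y : ZMod l × ZMod l} :
    (j, t, x, y) ∈ (r0 m L l).D ↔ (j = 0 ∧ t.val < m) ∨ (j ≠ 0 ∧ t.val ≤ m) := Iff.rfl

theorem mem_D1_iff {j : Fin 4} {t : ZMod n} {x : ZMod (2 * m)} {y : ZMod l × ZMod l} :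
    (j, t, x, y) ∈ (r1 n m l).D ↔ (j = 1 ∧ x.val < m) ∨ (j ≠ 1 ∧ x.val ≤ m) := Iff.rfl

theorem val_cast' {i : ℕ} (hi : i < 2 * m) : ((i : ZMod (2 * m))).val = i :=
  ZMod.val_cast_of_lt hi

theorem mem_D0 {j : Fin 4} {i : ℕ} (hi : i < m) (x : ZMod L) (y : ZMod l × ZMod l) :
    (j, (i : ZMod (2 * m)), x, y) ∈ (r0 m L l).D := by
  rw [mem_D0_iff, val_cast' (by omega)]
  by_cases h : j = 0
  · exact Or.inl ⟨h, hi⟩
  · exact Or.inr ⟨h, hi.le⟩

theorem mem_D0' {j : Fin 4} {i : ℕ} (hi : i ≤ m) (hj : j ≠ 0) (x : ZMod L) (y : ZMod l × ZMod l) :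
    (j, (i : ZMod (2 * m)), x, y) ∈ (r0 m L l).D := by
  have hm : 0 < m := Nat.pos_of_ne_zero (NeZero.ne m)
  rw [mem_D0_iff, val_cast' (by omega)]
  exact Or.inr ⟨hj, hi⟩

theorem mem_D1 {j : Fin 4} {i : ℕ} (hi : i < m) (t : ZMod n) (y : ZMod l × ZMod l) :
    (j, t, (i : ZMod (2 * m)), y) ∈ (r1 n m l).D := by
  rw [mem_D1_iff, val_cast' (by omega)]
  by_cases h : j = 1
  · exact Or.inl ⟨h, hi⟩
  · exact Or.inr ⟨h, hi.le⟩

theorem mem_D1' {j : Fin 4} {i : ℕ} (hi : i ≤ m) (hj : j ≠ 1) (t : ZMod n) (y : ZMod l × ZMod l) :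
    (j, t, (i : ZMod (2 * m)), y) ∈ (r1 n m l).D := by
  have hm : 0 < m := Nat.pos_of_ne_zero (NeZero.ne m)
  rw [mem_D1_iff, val_cast' (by omega)]
  exact Or.inr ⟨hj, hi⟩

theorem cell_dep0 {k : ℕ} {i : ℕ} (hi : i < m) (x : ZMod L) :
    DependsOn (fun U : Link (2 * m) L l → SU N => cell k U (i : ZMod (2 * m)) x)
      (r0 m L l).D := by
  intro U U' h
  refine cell_congr0 (fun j x y => h _ (mem_D0 hi x y)) fun j x y hj => ?_
  have := mem_D0' (m := m) (j := j) (i := i + 1) hi hj x y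
  push_cast at this
  exact h _ this

theorem cell_dep1 {k : ℕ} {i : ℕ} (hi : i < m) (t : ZMod n) :
    DependsOn (fun U : Link n (2 * m) l → SU N => cell k U t (i : ZMod (2 * m)))
      (r1 n m l).D := by
  intro U U' h
  refine cell_congr1 (fun j x y => h _ (mem_D1 hi x y)) fun j x y hj => ?_
  have := mem_D1' (m := m) (j := j) (i := i + 1) hi hj x y
  push_cast at this
  exact h _ this

end D

end

end Run7.h4.YM
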