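import Mathlib
import Pool.Agent.Run7.h4.YM.Geom

/-!
# The two reflection positive systems
-/

open MeasureTheory Matrix

namespace Run7.h4.YM

set_option linter.unusedSectionVars false

noncomputable section

variable {N : ℕ}

theorem Bd.of_continuous {X : Type*} [TopologicalSpace X] [CompactSpace X] [MeasurableSpace X]
    [OpensMeasurableSpace X] {f : X → ℝ} (hf : Continuous f) : Bd f := by
  refine ⟨hf.measurable, ?_⟩
  obtain ⟨C, hC⟩ := isCompact_univ.exists_bound_of_continuousOn hf.continuousOn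
  exact ⟨C, fun U => by simpa using hC U (Set.mem_univ U)⟩

section cont

variable {n L l : ℕ} [NeZero n] [NeZero L] [NeZero l]

theorem cont_aw4 {X : Type*} [TopologicalSpace X] (c : ℂ) {f g h j : X → SU N} (hf : Continuous f)
    (hg : Continuous g) (hh : Continuous h) (hj : Continuous j) :
    Continuous fun U => aw c (f U * g U * (h U)⁻¹ * (j U)⁻¹) :=
  (continuous_aw c).comp (((hf.mul hg).mul hh.inv).mul hj.inv)

theorem cont_cell (k : ℕ) (t : ZMod n) (x : ZMod L) :
    Continuous fun U : Link n L l → SU N => cell k U t x := by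
  unfold cell Vf K0 K1 Wf
  have hc : ∀ (c : ℂ) (e1 e2 e3 e4 : Link n L l), Continuous fun U : Link n L l → SU N =>
      aw c (U e1 * U e2 * (U e3)⁻¹ * (U e4)⁻¹) := fun c e1 e2 e3 e4 =>
    cont_aw4 c (continuous_apply _) (continuous_apply _) (continuous_apply _) (continuous_apply _)
  refine Continuous.add (Continuous.add ?_ ?_) ?_
  · refine Continuous.div_const (Continuous.add (Continuous.add (Continuous.add ?_ ?_) ?_) ?_) _
    all_goals exact continuous_finsetSum _ fun y _ => hc _ _ _ _ _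
  · refine Continuous.div_const (Continuous.add (Continuous.add (Continuous.add ?_ ?_) ?_) ?_) _
    all_goals exact continuous_finsetSum _ fun y _ => (hc _ _ _ _ _).add (hc _ _ _ _ _)
  · exact continuous_finsetSum _ fun y _ => hc _ _ _ _ _

theorem cont_action (k : ℕ) : Continuous fun U : Link n L l → SU N => action k U := by
  simp only [action_cell]
  exact continuous_finsetSum _ fun t _ => continuous_finsetSum _ fun x _ => cont_cell k t x

end cont

section split

variable {n L l m : ℕ} [NeZero n] [NeZero L] [NeZero l] [NeZero m]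

/-- half of the action -/
def AR0 (m L l k : ℕ) [NeZero L] [NeZero l] (β : ℝ) (U : Link (2 * m) L l → SU N) : ℝ :=
  β * ∑ i ∈ Finset.range m, ∑ x, cell k U (i : ZMod (2 * m)) x

/-- half of the action -/
def AR1 (n m l k : ℕ) [NeZero n] [NeZero l] (β : ℝ) (U : Link n (2 * m) l → SU N) : ℝ :=
  β * ∑ i ∈ Finset.range m, ∑ t, cell k U t (i : ZMod (2 * m))

theorem half_sum (f : ZMod (2 * m) → ℝ) : ∑ t, f t =
    ∑ i ∈ Finset.range m, f i + ∑ i ∈ Finset.range m, f (-(i : ZMod (2 * m)) - 1) := by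
  have h2 : ∀ g : ℕ → ℝ, ∑ i ∈ Finset.range (2 * m), g i =
      ∑ i ∈ Finset.range m, g i + ∑ i ∈ Finset.range m, g (m + i) := fun g => by
    rw [two_mul, Finset.sum_range_add]
  rw [sum_zmod, h2]
  congr 1
  rw [← Finset.sum_range_reflect]
  refine Finset.sum_congr rfl fun i hi => ?_
  rw [Finset.mem_range] at hi
  congr 1
  have h0 : ((2 * m : ℕ) : ZMod (2 * m)) = 0 := ZMod.natCast_self _
  have h1 : ((m + (m - 1 - i) : ℕ) : ZMod (2 * m)) = ((2 * m : ℕ) : ZMod (2 * m)) - i - 1 := by
    have : m + (m - 1 - i) + i + 1 = 2 * m := by omega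
    rw [← this]
    push_cast
    ring
  rw [h1, h0]
  ring

theorem split0 (k : ℕ) (β : ℝ) (U : Link (2 * m) L l → SU N) :
    β * action k U = AR0 m L l k β U + AR0 m L l k β ((r0 m L l).θ U) := by
  rw [action_cell, half_sum]
  unfold AR0
  simp only [cell_r0]
  ring

theorem split1 (k : ℕ) (β : ℝ) (U : Link n (2 * m) l → SU N) :
    β * action k U = AR1 n m l k β U + AR1 n m l k β ((r1 n m l).θ U) := by
  rw [action_cell, Finset.sum_comm, half_sum]
  unfold AR1
  simp only [cell_r1]
  ring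

variable [MeasurableSpace (SU N)] [BorelSpace (SU N)]

theorem bd_cell (k : ℕ) (t : ZMod n) (x : ZMod L) :
    Bd fun U : Link n L l → SU N => cell k U t x := Bd.of_continuous (cont_cell k t x)

theorem bd_AR0 (k : ℕ) (β : ℝ) : Bd (AR0 m L l k β : (Link (2 * m) L l → SU N) → ℝ) :=
  (Bd.sum _ fun _ _ => Bd.sum _ fun _ _ => bd_cell _ _ _).smul β

theorem bd_AR1 (k : ℕ) (β : ℝ) : Bd (AR1 n m l k β : (Link n (2 * m) l → SU N) → ℝ) :=
  (Bd.sum _ fun _ _ => Bd.sum _ fun _ _ => bd_cell _ _ _).smul β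

theorem dep_AR0 (k : ℕ) (β : ℝ) :
    DependsOn (AR0 m L l k β : (Link (2 * m) L l → SU N) → ℝ) (r0 m L l).D := by
  intro U V h
  have e : ∀ i ∈ Finset.range m, ∀ x : ZMod L, cell k U (i : ZMod (2 * m)) x =
      cell k V (i : ZMod (2 * m)) x := fun i hi x => cell_dep0 (Finset.mem_range.mp hi) x h
  unfold AR0
  rw [Finset.sum_congr rfl fun i hi => Finset.sum_congr rfl fun x _ => e i hi x]

theorem dep_AR1 (k : ℕ) (β : ℝ) :
    DependsOn (AR1 n m l k β : (Link n (2 * m) l → SU N) → ℝ) (r1 n m l).D := by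
  intro U V h
  have e : ∀ i ∈ Finset.range m, ∀ t : ZMod n, cell k U t (i : ZMod (2 * m)) =
      cell k V t (i : ZMod (2 * m)) := fun i hi t => cell_dep1 (Finset.mem_range.mp hi) t h
  unfold AR1
  rw [Finset.sum_congr rfl fun i hi => Finset.sum_congr rfl fun x _ => e i hi x]

variable (μ : Measure (SU N)) [IsProbabilityMeasure μ] [μ.IsInvInvariant]

/-- reflections of direction `0` -/
def S0 (m L l k : ℕ) [NeZero m] [NeZero L] [NeZero l] (β : ℝ) : RS (Link (2 * m) L l → SU N) :=
  (r0 m L l).rs μ (fun U => β * action k U) (AR0 m L l k β) (bd_AR0 k β) (dep_AR0 k β)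
    (split0 k β)

/-- reflections of direction `1` -/
def S1 (n m l k : ℕ) [NeZero n] [NeZero m] [NeZero l] (β : ℝ) : RS (Link n (2 * m) l → SU N) :=
  (r1 n m l).rs μ (fun U => β * action k U) (AR1 n m l k β) (bd_AR1 k β) (dep_AR1 k β)
    (split1 k β)

/-- the expectation without normalisation -/
def II (μ : Measure (SU N)) (k : ℕ) (β : ℝ) (f : (Link n L l → SU N) → ℝ) : ℝ :=
  ∫ U, f U * Real.exp (-(β * action k U)) ∂(Measure.pi fun _ : Link n L l => μ)

theorem S0_I (k : ℕ) (β : ℝ) (f : (Link (2 * m) L l → SU N) → ℝ) :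
    (S0 μ m L l k β).I f = II μ k β f := rfl

theorem S1_I (k : ℕ) (β : ℝ) (f : (Link n (2 * m) l → SU N) → ℝ) :
    (S1 μ n m l k β).I f = II μ k β f := rfl

theorem expect_eq (k : ℕ) (β : ℝ) (f : (Link n L l → SU N) → ℝ) :
    expect μ k β f = II μ k β f / II μ k β (fun _ : Link n L l → SU N => (1 : ℝ)) := by
  unfold expect II
  simp only [one_mul]

theorem mp_T0 : MeasurePreserving (T0 : (Link n L l → SU N) → (Link n L l → SU N))
    (Measure.pi fun _ : Link n L l => μ) (Measure.pi fun _ : Link n L l => μ) := by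
  let σ : Link n L l ≃ Link n L l := Equiv.prodCongr (Equiv.refl _)
    (Equiv.prodCongr (Equiv.addRight 1) (Equiv.refl _))
  exact mp_gen μ σ (fun _ => id) (fun _ => MeasurePreserving.id μ)

theorem mp_T1 : MeasurePreserving (T1 : (Link n L l → SU N) → (Link n L l → SU N))
    (Measure.pi fun _ : Link n L l => μ) (Measure.pi fun _ : Link n L l => μ) := by
  let σ : Link n L l ≃ Link n L l := Equiv.prodCongr (Equiv.refl _)
    (Equiv.prodCongr (Equiv.refl _) (Equiv.prodCongr (Equiv.addRight 1) (Equiv.refl _)))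
  exact mp_gen μ σ (fun _ => id) (fun _ => MeasurePreserving.id μ)

theorem action_T0 (k : ℕ) (U : Link n L l → SU N) : action k (T0 U) = action k U := by
  rw [action_cell k (T0 U), action_cell k U]
  simp only [cell_T0]
  exact Equiv.sum_comp (Equiv.addRight (1 : ZMod n)) (fun t => ∑ x, cell k U t x)

theorem action_T1 (k : ℕ) (U : Link n L l → SU N) : action k (T1 U) = action k U := by
  rw [action_cell k (T1 U), action_cell k U]
  simp only [cell_T1]
  exact Finset.sum_congr rfl fun t _ =>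
    Equiv.sum_comp (Equiv.addRight (1 : ZMod L)) (fun x => cell k U t x)

theorem bd_action (k : ℕ) : Bd fun U : Link n L l → SU N => action k U :=
  Bd.of_continuous (cont_action k)

theorem bd_w (k : ℕ) (β : ℝ) : Bd fun U : Link n L l → SU N => Real.exp (-(β * action k U)) :=
  (((bd_action k).smul β).neg).exp

theorem II_T0 (k : ℕ) (β : ℝ) {f : (Link n L l → SU N) → ℝ} (hf : Bd f) :
    II μ k β (fun U => f (T0 U)) = II μ k β f := by
  unfold II
  rw [mp_int (mp_T0 μ) (hf.mul (bd_w k β))]
  simp only [action_T0]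

theorem II_T1 (k : ℕ) (β : ℝ) {f : (Link n L l → SU N) → ℝ} (hf : Bd f) :
    II μ k β (fun U => f (T1 U)) = II μ k β f := by
  unfold II
  rw [mp_int (mp_T1 μ) (hf.mul (bd_w k β))]
  simp only [action_T1]

end split

end

end Run7.h4.YM
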