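import Mathlib
import Pool.Agent.Run7.h4.YM.Sys

/-!
# The chessboard bound for the energy of a cell
-/

open MeasureTheory Matrix

namespace Run7.h4.YM

set_option linter.unusedSectionVars false

noncomputable section

variable {N : ℕ} {l m m' : ℕ} [NeZero l] [NeZero m] [NeZero m']
  [MeasurableSpace (SU N)] [BorelSpace (SU N)] (μ : Measure (SU N)) [IsProbabilityMeasure μ]
  [μ.IsInvInvariant]

/-- the torus -/
abbrev Cf (N m m' l : ℕ) : Type := Link (2 * m) (2 * m') l → SU N

/-- the partition function -/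
def ZZ (m m' l : ℕ) [NeZero m] [NeZero m'] [NeZero l] (k : ℕ) (β : ℝ) : ℝ :=
  II μ k β (fun _ : Cf N m m' l => (1 : ℝ))

theorem ZZ_pos (k : ℕ) (β : ℝ) : 0 < ZZ μ m m' l k β := by
  have h := (S0 μ m (2 * m') l k β).I_pos (Bd.const 1) (fun _ => one_pos)
  exact h

theorem II_mono (k : ℕ) (β : ℝ) {f g : Cf N m m' l → ℝ} (hf : Bd f) (hg : Bd g)
    (h : ∀ U, f U ≤ g U) : II μ k β f ≤ II μ k β g :=
  (S0 μ m (2 * m') l k β).I_mono hf hg h

theorem II_add (k : ℕ) (β : ℝ) {f g : Cf N m m' l → ℝ} (hf : Bd f) (hg : Bd g) :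
    II μ k β (fun U => f U + g U) = II μ k β f + II μ k β g :=
  (S0 μ m (2 * m') l k β).I_add hf hg

theorem II_smul (k : ℕ) (β : ℝ) (c : ℝ) {f : Cf N m m' l → ℝ} :
    II μ k β (fun U => c * f U) = c * II μ k β f :=
  (S0 μ m (2 * m') l k β).I_smul c

theorem II_sum (k : ℕ) (β : ℝ) {κ : Type*} (s : Finset κ) {F : κ → Cf N m m' l → ℝ}
    (h : ∀ c ∈ s, Bd (F c)) :
    II μ k β (fun U => ∑ c ∈ s, F c U) = ∑ c ∈ s, II μ k β (F c) := by
  classical
  induction s using Finset.induction_on with
  | empty => simp [II]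
  | insert a s ha ih =>
    have h1 := h a (Finset.mem_insert_self a s)
    have h2 : Bd (fun U => ∑ c ∈ s, F c U) :=
      Bd.sum s fun c hc => h c (Finset.mem_insert_of_mem hc)
    rw [Finset.sum_insert ha, ← ih fun c hc => h c (Finset.mem_insert_of_mem hc),
      ← II_add μ k β h1 h2]
    simp only [Finset.sum_insert ha]

theorem chess1 (k : ℕ) (β : ℝ) :
    (II μ k β (fun U : Cf N m m' l => Real.exp (β * cell k U 0 0)) / ZZ μ m m' l k β) ^ (2 * m') ≤
      II μ k β (fun U : Cf N m m' l => Real.exp (β * ∑ x, cell k U 0 x)) / ZZ μ m m' l k β := by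
  have h := chess (S1 μ (2 * m) m' l k β) (m := m') T1 (mp_T1 μ)
    (fun U => by
      show Real.exp (-(β * action k (T1 U))) = Real.exp (-(β * action k U))
      rw [action_T1])
    (fun x U => Real.exp (β * cell k U 0 x)) (fun x => ((bd_cell k 0 x).smul β).exp)
    (fun x U => Real.exp_pos _)
    (fun x U => by
      show Real.exp (β * cell k (T1 U) 0 x) = Real.exp (β * cell k U 0 (x + 1))
      rw [cell_T1])
    (fun x U => by
      show Real.exp (β * cell k ((r1 (2 * m) m' l).θ U) 0 x) =
        Real.exp (β * cell k U 0 (-x - 1))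
      rw [cell_r1])
    (fun a ha U V h => by
      show ∏ i ∈ Finset.range a, Real.exp (β * cell k U 0 (i : ZMod (2 * m'))) =
        ∏ i ∈ Finset.range a, Real.exp (β * cell k V 0 (i : ZMod (2 * m')))
      refine Finset.prod_congr rfl fun i hi => ?_
      have e : cell k U 0 (i : ZMod (2 * m')) = cell k V 0 (i : ZMod (2 * m')) :=
        cell_dep1 (lt_of_lt_of_le (Finset.mem_range.mp hi) ha) 0 h
      rw [e])
  have e : ∀ U : Cf N m m' l, ∏ x, Real.exp (β * cell k U 0 x) =
      Real.exp (β * ∑ x, cell k U 0 x) := fun U => by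
    rw [← Real.exp_sum, Finset.mul_sum]
  simp only [e] at h
  exact h

theorem chess0 (k : ℕ) (β : ℝ) :
    (II μ k β (fun U : Cf N m m' l => Real.exp (β * ∑ x, cell k U 0 x)) /
      ZZ μ m m' l k β) ^ (2 * m) ≤
      II μ k β (fun U : Cf N m m' l => Real.exp (β * action k U)) / ZZ μ m m' l k β := by
  have h := chess (S0 μ m (2 * m') l k β) (m := m) T0 (mp_T0 μ)
    (fun U => by
      show Real.exp (-(β * action k (T0 U))) = Real.exp (-(β * action k U))
      rw [action_T0])
    (fun t U => Real.exp (β * ∑ x, cell k U t x))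
    (fun t => ((Bd.sum _ fun x _ => bd_cell k t x).smul β).exp)
    (fun x U => Real.exp_pos _)
    (fun t U => by
      show Real.exp (β * ∑ x, cell k (T0 U) t x) = Real.exp (β * ∑ x, cell k U (t + 1) x)
      simp only [cell_T0])
    (fun t U => by
      show Real.exp (β * ∑ x, cell k ((r0 m (2 * m') l).θ U) t x) =
        Real.exp (β * ∑ x, cell k U (-t - 1) x)
      simp only [cell_r0])
    (fun a ha U V h => by
      show ∏ i ∈ Finset.range a, Real.exp (β * ∑ x, cell k U (i : ZMod (2 * m)) x) =
        ∏ i ∈ Finset.range a, Real.exp (β * ∑ x, cell k V (i : ZMod (2 * m)) x)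
      refine Finset.prod_congr rfl fun i hi => ?_
      have e : ∀ x, cell k U (i : ZMod (2 * m)) x = cell k V (i : ZMod (2 * m)) x :=
        fun x => cell_dep0 (lt_of_lt_of_le (Finset.mem_range.mp hi) ha) x h
      simp only [e])
  have e : ∀ U : Cf N m m' l, ∏ t, Real.exp (β * ∑ x, cell k U t x) =
      Real.exp (β * action k U) := fun U => by
    rw [← Real.exp_sum, ← Finset.mul_sum, action_cell]
  simp only [e] at h
  exact h

/-- The chessboard bound: the exponential moment of the energy of a cell. -/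
theorem cell_moment (k : ℕ) (β : ℝ) :
    (II μ k β (fun U : Cf N m m' l => Real.exp (β * cell k U 0 0)) /
      ZZ μ m m' l k β) ^ (2 * m' * (2 * m)) ≤ 1 / ZZ μ m m' l k β := by
  have h1 := chess1 (m := m) (m' := m') (l := l) μ k β
  have h0 := chess0 (m := m) (m' := m') (l := l) μ k β
  have hZ := ZZ_pos (m := m) (m' := m') (l := l) μ k β
  have e1 : II μ k β (fun U : Cf N m m' l => Real.exp (β * action k U)) = 1 := by
    unfold II
    have : ∀ U : Cf N m m' l, Real.exp (β * action k U) * Real.exp (-(β * action k U)) = 1 :=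
      fun U => by rw [← Real.exp_add, add_neg_cancel, Real.exp_zero]
    simp only [this]
    simp
  rw [e1] at h0
  rw [pow_mul]
  refine le_trans (pow_le_pow_left₀ ?_ h1 _) h0
  refine pow_nonneg (div_nonneg ?_ hZ.le) _
  have := (S0 μ m (2 * m') l k β).I_pos (((bd_cell k 0 0).smul β).exp) (fun _ => Real.exp_pos _)
  exact this.le

/-- translates -/
theorem II_cell (k : ℕ) (β : ℝ) (F : ℝ → ℝ) (hF : Bd (fun U : Cf N m m' l => F (cell k U 0 0)))
    (i j : ℕ) : II μ k β (fun U : Cf N m m' l => F (cell k U (i : ZMod (2 * m)) (j : ZMod (2 * m')))) =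
      II μ k β (fun U : Cf N m m' l => F (cell k U 0 0)) := by
  have hT : ∀ (U : Cf N m m' l) (i j : ℕ), cell k (T0^[i] (T1^[j] U)) 0 0 =
      cell k U (i : ZMod (2 * m)) (j : ZMod (2 * m')) := by
    intro U i j
    have h1 : ∀ (i : ℕ) (U : Cf N m m' l) t x, cell k (T0^[i] U) t x = cell k U (t + i) x := by
      intro i
      induction i with
      | zero => intro U t x; simp
      | succ i ih =>
        intro U t x
        rw [Function.iterate_succ, Function.comp, ih, cell_T0]
        push_cast
        rw [add_assoc]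
    have h2 : ∀ (i : ℕ) (U : Cf N m m' l) t x, cell k (T1^[i] U) t x = cell k U t (x + i) := by
      intro i
      induction i with
      | zero => intro U t x; simp
      | succ i ih =>
        intro U t x
        rw [Function.iterate_succ, Function.comp, ih, cell_T1]
        push_cast
        rw [add_assoc]
    rw [h1, h2, zero_add, zero_add]
  have hm : MeasurePreserving (fun U : Cf N m m' l => T0^[i] (T1^[j] U))
      (Measure.pi fun _ => μ) (Measure.pi fun _ => μ) :=
    ((mp_T0 μ).iterate i).comp ((mp_T1 μ).iterate j)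
  have hw : ∀ U : Cf N m m' l, action k (T0^[i] (T1^[j] U)) = action k U := fun U => by
    rw [iter_w (w := action k) (action_T0 k), iter_w (w := action k) (action_T1 k)]
  have h3 : II μ k β (fun U : Cf N m m' l => F (cell k U 0 0)) =
      ∫ U : Cf N m m' l, F (cell k (T0^[i] (T1^[j] U)) 0 0) *
        Real.exp (-(β * action k (T0^[i] (T1^[j] U)))) ∂(Measure.pi fun _ => μ) := by
    unfold II
    exact mp_int hm (hF.mul (bd_w k β))
  rw [h3]
  unfold II
  simp only [hT, hw]

end

end Run7.h4.YM
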