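import Mathlib
import Pool.Agent.Run7.h4.YM.SUN

/-!
# Pairs in `SU(N)` commuting up to a primitive root of unity
-/

open Matrix

namespace Run7.h4.YM

set_option linter.unusedSectionVars false

noncomputable section

variable {N : ℕ} [NeZero N]

theorem fin_pow {z : ℂ} (hz : z ^ N = 1) (j : Fin N) : z ^ ((j + 1 : Fin N) : ℕ) = z ^ ((j : ℕ) + 1) := by
  have h : ((j + 1 : Fin N) : ℕ) = ((j : ℕ) + 1) % N := by
    rw [Fin.val_add]
    rw [Fin.val_one']
    exact Nat.add_mod_mod _ _ _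
  rw [h]
  conv_rhs => rw [← Nat.mod_add_div ((j : ℕ) + 1) N, pow_add, pow_mul, hz, one_pow, mul_one]

/-- the clock matrix -/
def clk (ζ a : ℂ) : Matrix (Fin N) (Fin N) ℂ := Matrix.diagonal fun j => a * ζ⁻¹ ^ (j : ℕ)

/-- the shift matrix -/
def shf (c : ℂ) : Matrix (Fin N) (Fin N) ℂ :=
  Matrix.of fun i j => if i = j + 1 then (if j + 1 = 0 then c else 1) else 0

theorem shf_apply (c : ℂ) (i j : Fin N) :
    (shf c : Matrix (Fin N) (Fin N) ℂ) i j = if i = j + 1 then (if j + 1 = 0 then c else 1) else 0 :=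
  rfl

theorem mul_shf (M : Matrix (Fin N) (Fin N) ℂ) (c : ℂ) (i j : Fin N) :
    (M * shf c : Matrix (Fin N) (Fin N) ℂ) i j = M i (j + 1) * (if j + 1 = 0 then c else 1) := by
  rw [Matrix.mul_apply, Finset.sum_eq_single (j + 1)]
  · simp [shf_apply]
  · intro b _ hb
    simp [shf_apply, hb]
  · simp

theorem shf_mul (M : Matrix (Fin N) (Fin N) ℂ) (c : ℂ) (i j : Fin N) :
    (shf c * M : Matrix (Fin N) (Fin N) ℂ) i j = (if i = 0 then c else 1) * M (i - 1) j := by
  rw [Matrix.mul_apply, Finset.sum_eq_single (i - 1)]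
  · simp [shf_apply]
  · intro b _ hb
    have : ¬ (i = b + 1) := fun h => hb (by rw [h]; simp)
    simp [shf_apply, this]
  · simp

theorem det_shf (c : ℂ) : (shf c : Matrix (Fin N) (Fin N) ℂ).det =
    c * (shf 1 : Matrix (Fin N) (Fin N) ℂ).det := by
  have h : (shf c : Matrix (Fin N) (Fin N) ℂ) = shf 1 * Matrix.diagonal fun j => if j + 1 = 0 then c else 1 := by
    ext i j
    rw [Matrix.mul_diagonal, shf_apply, shf_apply]
    split_ifs <;> simp
  rw [h, Matrix.det_mul, Matrix.det_diagonal, mul_comm]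
  congr 1
  rw [Finset.prod_eq_single (-1 : Fin N)]
  · simp
  · intro b _ hb
    have : ¬ (b + 1 = 0) := fun h => hb (eq_neg_of_add_eq_zero_left h)
    simp [this]
  · simp

theorem det_clk (ζ a : ℂ) : (clk ζ a : Matrix (Fin N) (Fin N) ℂ).det =
    a ^ N * (clk ζ 1 : Matrix (Fin N) (Fin N) ℂ).det := by
  unfold clk
  rw [Matrix.det_diagonal, Matrix.det_diagonal]
  simp [Finset.prod_mul_distrib]

theorem norm_one_of {c : ℂ} (h : star c * c = 1) : ‖c‖ = 1 := by
  have h1 : ‖star c * c‖ = 1 := by rw [h]; simp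
  rw [norm_mul, norm_star] at h1
  nlinarith [norm_nonneg c]

theorem star_mul_of_norm {c : ℂ} (h : ‖c‖ = 1) : star c * c = 1 := by
  rw [RCLike.star_def, Complex.conj_mul', h]; simp

theorem shf_unitary {c : ℂ} (hc : ‖c‖ = 1) :
    star (shf c : Matrix (Fin N) (Fin N) ℂ) * shf c = 1 := by
  ext i j
  rw [mul_shf, star_apply, shf_apply, Matrix.one_apply]
  by_cases h : i = j
  · subst h
    rw [if_pos rfl, if_pos rfl]
    split_ifs
    · exact star_mul_of_norm hc
    · simp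
  · have : ¬ (j + 1 = i + 1) := fun h' => h (add_right_cancel h').symm
    rw [if_neg this, if_neg h]
    simp

theorem clk_unitary {ζ a : ℂ} (hζ : ‖ζ‖ = 1) (ha : ‖a‖ = 1) :
    star (clk ζ a : Matrix (Fin N) (Fin N) ℂ) * clk ζ a = 1 := by
  unfold clk
  rw [star_eq_conjTranspose, Matrix.diagonal_conjTranspose, Matrix.diagonal_mul_diagonal,
    ← Matrix.diagonal_one]
  congr 1
  funext j
  refine star_mul_of_norm ?_
  rw [norm_mul, norm_pow, norm_inv, hζ, ha]; simp

theorem clk_shf {ζ : ℂ} (hz : ζ ^ N = 1) (a c : ℂ) :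
    (shf c * clk ζ a : Matrix (Fin N) (Fin N) ℂ) = ζ • (clk ζ a * shf c) := by
  have hz' : (ζ⁻¹) ^ N = 1 := by rw [inv_pow, hz, inv_one]
  have h0 : ζ ≠ 0 := by
    rintro rfl
    rw [zero_pow (NeZero.ne N)] at hz
    exact zero_ne_one hz
  ext i j
  unfold clk
  rw [Matrix.mul_diagonal, Matrix.smul_apply, Matrix.diagonal_mul, shf_apply]
  by_cases h : i = j + 1
  · subst h
    rw [if_pos rfl, fin_pow hz', pow_succ, smul_eq_mul]
    field_simp
  · rw [if_neg h]; simp

section eig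

variable {P Q : Matrix (Fin N) (Fin N) ℂ} {ζ : ℂ}

theorem uni_dot (hP : star P * P = 1) (a b : Fin N → ℂ) :
    star (P *ᵥ a) ⬝ᵥ (P *ᵥ b) = star a ⬝ᵥ b := by
  rw [Matrix.star_mulVec, ← Matrix.dotProduct_mulVec, Matrix.mulVec_mulVec,
    ← star_eq_conjTranspose, hP, Matrix.one_mulVec]

theorem orth_of (hP : star P * P = 1) {a b : Fin N → ℂ} {s t : ℂ} (hs : ‖s‖ = 1)
    (ha : P *ᵥ a = s • a) (hb : P *ᵥ b = t • b) (hst : s ≠ t) : star a ⬝ᵥ b = 0 := by
  have h := uni_dot hP a b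
  rw [ha, hb, star_smul, smul_dotProduct, dotProduct_smul, smul_eq_mul, smul_eq_mul,
    ← mul_assoc] at h
  by_contra hne
  have h1 : star s * t = 1 := by
    have : (star s * t - 1) * (star a ⬝ᵥ b) = 0 := by rw [sub_mul, h, one_mul, sub_self]
    rcases mul_eq_zero.mp this with h2 | h2
    · exact sub_eq_zero.mp h2
    · exact absurd h2 hne
  have h3 := star_mul_of_norm hs
  have hs0 : star s ≠ 0 := by
    intro h0
    rw [h0, zero_mul] at h3
    exact zero_ne_one h3
  exact hst (mul_left_cancel₀ hs0 (h3.trans h1.symm))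

theorem comm_pow (hQP : Q * P = ζ • (P * Q)) (h0 : ζ ≠ 0) (j : ℕ) :
    P * Q ^ j = (ζ⁻¹ ^ j) • (Q ^ j * P) := by
  induction j with
  | zero => simp
  | succ j ih =>
    have h1 : P * Q = ζ⁻¹ • (Q * P) := by
      rw [hQP, smul_smul, inv_mul_cancel₀ h0, one_smul]
    rw [pow_succ, ← mul_assoc, ih, smul_mul_assoc, mul_assoc, h1, mul_smul_comm, smul_smul,
      ← mul_assoc, ← pow_succ, ← pow_succ]

theorem eig_pow (hQP : Q * P = ζ • (P * Q)) (h0 : ζ ≠ 0) {v : Fin N → ℂ} {a : ℂ}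
    (hv : P *ᵥ v = a • v) (j : ℕ) : P *ᵥ (Q ^ j *ᵥ v) = (a * ζ⁻¹ ^ j) • (Q ^ j *ᵥ v) := by
  rw [Matrix.mulVec_mulVec, comm_pow hQP h0, Matrix.smul_mulVec, ← Matrix.mulVec_mulVec, hv,
    Matrix.mulVec_smul, smul_smul, mul_comm]

theorem uni_pow (hQ : star Q * Q = 1) (j : ℕ) : star (Q ^ j) * Q ^ j = 1 := by
  induction j with
  | zero => simp
  | succ j ih =>
    rw [pow_succ, star_mul, mul_assoc, ← mul_assoc (star (Q ^ j)), ih, one_mul, hQ]

/-- the basis of eigenvectors obtained from one of them -/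
theorem basis_of (hζ : IsPrimitiveRoot ζ N) (hP : star P * P = 1) (hQ : star Q * Q = 1)
    (hQP : Q * P = ζ • (P * Q)) {v : Fin N → ℂ} {a : ℂ} (hv : P *ᵥ v = a • v)
    (hv1 : star v ⬝ᵥ v = 1) :
    ∃ (M : Matrix (Fin N) (Fin N) ℂ) (c : ℂ), star M * M = 1 ∧ ‖c‖ = 1 ∧ ‖a‖ = 1 ∧
      P * M = M * clk ζ a ∧ Q * M = M * shf c := by
  have hN : 0 < N := Nat.pos_of_ne_zero (NeZero.ne N)
  have h0 : ζ ≠ 0 := hζ.ne_zero (NeZero.ne N)
  have hζ1 : ‖ζ‖ = 1 := hζ.norm'_eq_one (NeZero.ne N)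
  have hζi : IsPrimitiveRoot ζ⁻¹ N := hζ.inv
  have ha : ‖a‖ = 1 := by
    have h := uni_dot hP v v
    rw [hv, star_smul, smul_dotProduct, dotProduct_smul, smul_eq_mul, smul_eq_mul, hv1,
      mul_one] at h
    exact norm_one_of h
  have ha0 : a ≠ 0 := by
    intro h; rw [h, norm_zero] at ha; exact zero_ne_one ha
  set w : ℕ → Fin N → ℂ := fun j => Q ^ j *ᵥ v with hw
  have hw1 : ∀ j, star (w j) ⬝ᵥ w j = 1 := fun j => by
    rw [hw]
    simp only
    rw [uni_dot (uni_pow hQ j), hv1]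
  have hPw : ∀ j, P *ᵥ w j = (a * ζ⁻¹ ^ j) • w j := fun j => eig_pow hQP h0 hv j
  have hnorm : ∀ j : ℕ, ‖a * ζ⁻¹ ^ j‖ = 1 := fun j => by
    rw [norm_mul, norm_pow, norm_inv, hζ1, ha]; simp
  have horth : ∀ i j : ℕ, ζ⁻¹ ^ i ≠ ζ⁻¹ ^ j → star (w i) ⬝ᵥ w j = 0 := fun i j hij =>
    orth_of hP (hnorm i) (hPw i) (hPw j) fun h => hij (mul_left_cancel₀ ha0 h)
  set M : Matrix (Fin N) (Fin N) ℂ := Matrix.of fun i j => w (j : ℕ) i with hM
  have hMM : star M * M = 1 := by
    ext i j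
    rw [Matrix.mul_apply, Matrix.one_apply]
    have e : ∑ k, star M i k * M k j = star (w i) ⬝ᵥ w j := by
      simp [dotProduct, hM, star_apply]
    rw [e]
    by_cases h : i = j
    · subst h; rw [if_pos rfl, hw1]
    · rw [if_neg h]
      refine horth i j fun h' => h ?_
      exact Fin.ext (hζi.pow_inj i.2 j.2 h')
  have hMM' : M * star M = 1 := mul_eq_one_comm.mp hMM
  -- the vector `w N`
  obtain ⟨c, hc⟩ : ∃ c, c = star v ⬝ᵥ w N := ⟨_, rfl⟩
  have hw0 : w 0 = v := by simp [hw]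
  have hwN : w N = c • v := by
    have h1 : w N = M *ᵥ (star M *ᵥ w N) := by
      rw [Matrix.mulVec_mulVec, hMM', Matrix.one_mulVec]
    have h2 : star M *ᵥ w N = fun i => if i = 0 then c else 0 := by
      funext i
      have e : (star M *ᵥ w N) i = star (w i) ⬝ᵥ w N := by
        simp [Matrix.mulVec, dotProduct, hM, star_apply]
      rw [e]
      by_cases h : i = 0
      · subst h
        rw [if_pos rfl, hc]
        have : ((0 : Fin N) : ℕ) = 0 := Fin.val_zero N
        rw [this, hw0]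
      · rw [if_neg h]
        refine horth i N fun h' => h ?_
        rw [hζi.pow_eq_one] at h'
        have h3 := (hζi.pow_eq_one_iff_dvd (i : ℕ)).mp h'
        exact Fin.ext (by rw [Fin.val_zero]; exact Nat.eq_zero_of_dvd_of_lt h3 i.2)
    rw [h1, h2]
    funext i
    simp [Matrix.mulVec, dotProduct, hM, hw0, mul_comm]
  have hc1 : ‖c‖ = 1 := by
    have h := hw1 N
    rw [hwN, star_smul, smul_dotProduct, dotProduct_smul, hv1, smul_eq_mul, smul_eq_mul,
      mul_one] at h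
    exact norm_one_of h
  refine ⟨M, c, hMM, hc1, ha, ?_, ?_⟩
  · ext i j
    unfold clk
    rw [Matrix.mul_diagonal]
    have e : (P * M) i j = (P *ᵥ w j) i := by
      simp [Matrix.mul_apply, Matrix.mulVec, dotProduct, hM]
    rw [e, hPw]
    simp [hM, mul_comm]
  · ext i j
    rw [mul_shf]
    have e : (Q * M) i j = (w (j + 1)) i := by
      have : w ((j : ℕ) + 1) = Q *ᵥ w j := by
        simp only [hw]
        rw [Matrix.mulVec_mulVec, ← pow_succ']
      rw [this]
      simp [Matrix.mul_apply, Matrix.mulVec, dotProduct, hM]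
    rw [e]
    by_cases h : j + 1 = 0
    · rw [if_pos h, h]
      have hj : (j : ℕ) + 1 = N := by
        have h1 : ((j + 1 : Fin N) : ℕ) = ((j : ℕ) + 1) % N := by
          rw [Fin.val_add, Fin.val_one']
          exact Nat.add_mod_mod _ _ _
        rw [h, Fin.val_zero] at h1
        have h2 := j.2
        have h3 := Nat.dvd_of_mod_eq_zero h1.symm
        have h4 := Nat.le_of_dvd (Nat.succ_pos _) h3
        omega
      rw [hj, hwN]
      simp [hM, hw0, mul_comm]
    · rw [if_neg h, mul_one]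
      have h1 : ((j + 1 : Fin N) : ℕ) = ((j : ℕ) + 1) % N := by
        rw [Fin.val_add, Fin.val_one']
        exact Nat.add_mod_mod _ _ _
      have h2 : ((j + 1 : Fin N) : ℕ) = (j : ℕ) + 1 := by
        rw [h1]
        refine Nat.mod_eq_of_lt ?_
        rcases Nat.lt_or_ge ((j : ℕ) + 1) N with h3 | h3
        · exact h3
        · exfalso
          have h4 := j.2
          have h5 : (j : ℕ) + 1 = N := by omega
          apply h
          apply Fin.ext
          rw [h1, h5, Nat.mod_self, Fin.val_zero]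
      simp [hM, h2]

end eig

end

end Run7.h4.YM
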