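import Mathlib
import Pool.Agent.Run7.h4.YM.Weyl

/-!
# Classification of the pairs in `SU(N)` commuting up to a primitive root of unity
-/

open Matrix

namespace Run7.h4.YM

set_option linter.unusedSectionVars false

noncomputable section

variable {N : ℕ} [NeZero N]

theorem exists_eig (P : Matrix (Fin N) (Fin N) ℂ) :
    ∃ (v : Fin N → ℂ) (a : ℂ), v ≠ 0 ∧ P *ᵥ v = a • v := by
  obtain ⟨a, ha⟩ := Module.End.exists_eigenvalue (Matrix.toLin' P)
  obtain ⟨v, hv⟩ := ha.exists_hasEigenvector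
  refine ⟨v, a, hv.2, ?_⟩
  have := hv.apply_eq_smul
  rwa [Matrix.toLin'_apply] at this

theorem normalise {v : Fin N → ℂ} (hv : v ≠ 0) : ∃ r : ℂ, star (r • v) ⬝ᵥ (r • v) = 1 := by
  have h1 : star v ⬝ᵥ v = ((∑ i, ‖v i‖ ^ 2 : ℝ) : ℂ) := by
    simp only [dotProduct, Pi.star_apply]
    push_cast
    refine Finset.sum_congr rfl fun i _ => ?_
    rw [RCLike.star_def, Complex.conj_mul']
  obtain ⟨i, hi⟩ : ∃ i, v i ≠ 0 := by
    by_contra h
    push Not at h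
    exact hv (funext h)
  have h2 : 0 < ∑ i, ‖v i‖ ^ 2 := by
    refine Finset.sum_pos' (fun i _ => sq_nonneg _) ⟨i, Finset.mem_univ i, ?_⟩
    have := norm_pos_iff.mpr hi
    positivity
  set s := ∑ i, ‖v i‖ ^ 2 with hs
  refine ⟨((Real.sqrt s)⁻¹ : ℝ), ?_⟩
  rw [star_smul, smul_dotProduct, dotProduct_smul, h1, smul_eq_mul, smul_eq_mul]
  rw [RCLike.star_def, Complex.conj_ofReal, ← Complex.ofReal_mul, ← Complex.ofReal_mul]
  have h3 : (Real.sqrt s)⁻¹ * ((Real.sqrt s)⁻¹ * s) = 1 := by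
    have h4 := Real.mul_self_sqrt h2.le
    have h5 : Real.sqrt s ≠ 0 := (Real.sqrt_pos.mpr h2).ne'
    field_simp
    nlinarith
  rw [h3]; simp

theorem det_of_conj {P M D : Matrix (Fin N) (Fin N) ℂ} (hM : star M * M = 1)
    (h : P * M = M * D) : P.det = D.det := by
  have h1 : P.det * M.det = M.det * D.det := by rw [← Matrix.det_mul, h, Matrix.det_mul]
  have h2 : (star M).det * M.det = 1 := by rw [← Matrix.det_mul, hM, Matrix.det_one]
  have h3 : M.det ≠ 0 := fun h0 => by rw [h0, mul_zero] at h2; exact zero_ne_one h2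
  rw [mul_comm] at h1
  exact mul_left_cancel₀ h3 h1

theorem det_norm {M : Matrix (Fin N) (Fin N) ℂ} (hM : star M * M = 1) : ‖M.det‖ = 1 := by
  have h2 : (star M).det * M.det = 1 := by rw [← Matrix.det_mul, hM, Matrix.det_one]
  rw [star_eq_conjTranspose, Matrix.det_conjTranspose] at h2
  exact norm_one_of h2

theorem exists_root {u : ℂ} (hu : ‖u‖ = 1) : ∃ r : ℂ, r ^ N = u ∧ ‖r‖ = 1 := by
  obtain ⟨r, hr⟩ := IsAlgClosed.exists_pow_nat_eq u (Nat.pos_of_ne_zero (NeZero.ne N))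
  refine ⟨r, hr, ?_⟩
  have h : ‖r‖ ^ N = 1 := by rw [← norm_pow, hr, hu]
  exact (pow_eq_one_iff_of_nonneg (norm_nonneg r) (NeZero.ne N)).mp h

/-- the central elements -/
def cz {ζ : ℂ} (hζ : IsPrimitiveRoot ζ N) (j : ℕ) : SU N :=
  ⟨(ζ ^ j) • (1 : Matrix (Fin N) (Fin N) ℂ), by
    have h1 : ‖ζ‖ = 1 := hζ.norm'_eq_one (NeZero.ne N)
    rw [SU_mem_iff]
    refine ⟨?_, ?_⟩
    · rw [star_smul, star_one, smul_mul_smul_comm, one_mul]
      have h2 : ‖ζ ^ j‖ = 1 := by rw [norm_pow, h1, one_pow]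
      have h3 := star_mul_of_norm h2
      rw [mul_comm, h3, one_smul]
    · rw [Matrix.det_smul, Matrix.det_one, mul_one, Fintype.card_fin, ← pow_mul, mul_comm j N,
        pow_mul, hζ.pow_eq_one, one_pow]⟩

variable {ζ : ℂ} (hζ : IsPrimitiveRoot ζ N)

theorem cz_val (j : ℕ) : (cz hζ j).1 = (ζ ^ j) • (1 : Matrix (Fin N) (Fin N) ℂ) := rfl

theorem cz_comm (j : ℕ) (g : SU N) : cz hζ j * g = g * cz hζ j := by
  apply Subtype.ext
  rw [coe_mul', coe_mul', cz_val, smul_mul_assoc, one_mul, mul_smul_comm, mul_one]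

theorem cz_add (i j : ℕ) : cz hζ (i + j) = cz hζ i * cz hζ j := by
  apply Subtype.ext
  rw [coe_mul', cz_val, cz_val, cz_val, smul_mul_smul_comm, one_mul, pow_add]

theorem cz_zero : cz hζ 0 = 1 := by
  apply Subtype.ext
  rw [cz_val, pow_zero, one_smul]; rfl

theorem cz_N : cz hζ N = 1 := by
  apply Subtype.ext
  rw [cz_val, hζ.pow_eq_one, one_smul]; rfl

theorem tr_cz_mul (j : ℕ) (g : SU N) : trace (cz hζ j * g).1 = ζ ^ j * trace g.1 := by
  rw [coe_mul', cz_val, smul_mul_assoc, one_mul, Matrix.trace_smul, smul_eq_mul]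

theorem cz_mod (j : ℕ) : cz hζ (j % N) = cz hζ j := by
  conv_rhs => rw [← Nat.mod_add_div j N]
  rw [cz_add]
  have : ∀ r : ℕ, cz hζ (N * r) = 1 := by
    intro r
    induction r with
    | zero => rw [mul_zero, cz_zero]
    | succ r ih => rw [mul_add, mul_one, cz_add, ih, cz_N, one_mul]
  rw [this, mul_one]

include hζ in
/-- the standard pair -/
theorem exists_std : ∃ P0 Q0 : SU N, ∃ a c : ℂ, P0.1 = clk ζ a ∧ Q0.1 = shf c ∧
    ‖a‖ = 1 ∧ ‖c‖ = 1 := by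
  have h1 : ‖ζ‖ = 1 := hζ.norm'_eq_one (NeZero.ne N)
  have hd1 : ‖(clk ζ 1 : Matrix (Fin N) (Fin N) ℂ).det‖ = 1 :=
    det_norm (clk_unitary h1 (by simp))
  have hd2 : ‖(shf 1 : Matrix (Fin N) (Fin N) ℂ).det‖ = 1 := det_norm (shf_unitary (by simp))
  obtain ⟨a, ha, ha1⟩ := exists_root (N := N)
    (u := ((clk ζ 1 : Matrix (Fin N) (Fin N) ℂ).det)⁻¹) (by rw [norm_inv, hd1, inv_one])
  have hc1 : ‖((shf 1 : Matrix (Fin N) (Fin N) ℂ).det)⁻¹‖ = 1 := by rw [norm_inv, hd2, inv_one]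
  refine ⟨⟨clk ζ a, ?_⟩, ⟨shf ((shf 1 : Matrix (Fin N) (Fin N) ℂ).det)⁻¹, ?_⟩, a, _, rfl, rfl,
    ha1, hc1⟩
  · rw [SU_mem_iff]
    refine ⟨mul_eq_one_comm.mp (clk_unitary h1 ha1), ?_⟩
    rw [det_clk, ha]
    refine inv_mul_cancel₀ fun h0 => ?_
    rw [h0, norm_zero] at hd1
    exact zero_ne_one hd1
  · rw [SU_mem_iff]
    refine ⟨mul_eq_one_comm.mp (shf_unitary hc1), ?_⟩
    rw [det_shf]
    refine inv_mul_cancel₀ fun h0 => ?_
    rw [h0, norm_zero] at hd2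
    exact zero_ne_one hd2

include hζ in
/-- uniqueness of the pair up to conjugation -/
theorem conj_std {P0 Q0 : SU N} {a c : ℂ} (hP0 : P0.1 = clk ζ a) (hQ0 : Q0.1 = shf c)
    (P Q : SU N) (hQP : (Q * P).1 = ζ • (P * Q).1) :
    ∃ g : SU N, P = g * P0 * g⁻¹ ∧ Q = g * Q0 * g⁻¹ := by
  have hζ1 : ‖ζ‖ = 1 := hζ.norm'_eq_one (NeZero.ne N)
  have h0 : ζ ≠ 0 := hζ.ne_zero (NeZero.ne N)
  have hP := star_mul_self' P
  have hQ := star_mul_self' Q
  rw [coe_mul', coe_mul'] at hQP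
  have hdP : P.1.det = 1 := ((SU_mem_iff P.1).mp P.2).2
  have hdQ : Q.1.det = 1 := ((SU_mem_iff Q.1).mp Q.2).2
  have hdP0 : (clk ζ a : Matrix (Fin N) (Fin N) ℂ).det = 1 := by
    rw [← hP0]; exact ((SU_mem_iff P0.1).mp P0.2).2
  have hdQ0 : (shf c : Matrix (Fin N) (Fin N) ℂ).det = 1 := by
    rw [← hQ0]; exact ((SU_mem_iff Q0.1).mp Q0.2).2
  -- first basis
  obtain ⟨v, b, hv0, hv⟩ := exists_eig P.1
  obtain ⟨r, hr⟩ := normalise hv0
  have hv' : P.1 *ᵥ (r • v) = b • (r • v) := by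
    rw [Matrix.mulVec_smul, hv, smul_comm]
  obtain ⟨M, c1, hM, _, hb1, hPM, _⟩ := basis_of hζ hP hQ hQP hv' hr
  have hb : b ^ N = a ^ N := by
    have h2 := det_of_conj hM hPM
    rw [hdP, det_clk] at h2
    rw [det_clk] at hdP0
    have h3 : (clk ζ 1 : Matrix (Fin N) (Fin N) ℂ).det ≠ 0 := by
      intro h4; rw [h4, mul_zero] at hdP0; exact zero_ne_one hdP0
    exact mul_right_cancel₀ h3 (h2.symm.trans hdP0.symm)
  have hb0 : b ≠ 0 := by intro h; rw [h, norm_zero] at hb1; exact zero_ne_one hb1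
  -- shift the eigenvalue
  obtain ⟨j, _, hj⟩ : ∃ j < N, (ζ⁻¹) ^ j = a / b := by
    have h5 : (a / b) ^ N = 1 := by rw [div_pow, hb, div_self]; rw [← hb]; exact pow_ne_zero _ hb0
    obtain ⟨j, hj, hj'⟩ := hζ.inv.eq_pow_of_pow_eq_one h5
    exact ⟨j, hj, hj'⟩
  have hv2 : P.1 *ᵥ (Q.1 ^ j *ᵥ (r • v)) = a • (Q.1 ^ j *ᵥ (r • v)) := by
    rw [eig_pow hQP h0 hv' j, hj]
    congr 1
    field_simp
  have hv3 : star (Q.1 ^ j *ᵥ (r • v)) ⬝ᵥ (Q.1 ^ j *ᵥ (r • v)) = 1 := by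
    rw [uni_dot (uni_pow hQ j), hr]
  obtain ⟨M, c2, hM, hc2, _, hPM, hQM⟩ := basis_of hζ hP hQ hQP hv2 hv3
  have hcc : c2 = c := by
    have h2 := det_of_conj hM hQM
    rw [hdQ, det_shf] at h2
    rw [det_shf] at hdQ0
    have h3 : (shf 1 : Matrix (Fin N) (Fin N) ℂ).det ≠ 0 := by
      intro h4; rw [h4, mul_zero] at hdQ0; exact zero_ne_one hdQ0
    exact mul_right_cancel₀ h3 (h2.symm.trans hdQ0.symm)
  rw [hcc] at hQM
  -- determinant one
  have hdM := det_norm hM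
  obtain ⟨s, hs, hs1⟩ := exists_root (N := N) (u := (M.det)⁻¹) (by rw [norm_inv, hdM, inv_one])
  have hsM : star (s • M) * (s • M) = 1 := by
    rw [star_smul, smul_mul_smul_comm, star_mul_of_norm hs1, hM, one_smul]
  have hg : s • M ∈ specialUnitaryGroup (Fin N) ℂ := by
    rw [SU_mem_iff]
    refine ⟨mul_eq_one_comm.mp hsM, ?_⟩
    rw [Matrix.det_smul, Fintype.card_fin, hs]
    refine inv_mul_cancel₀ fun h0 => ?_
    rw [h0, norm_zero] at hdM
    exact zero_ne_one hdM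
  refine ⟨⟨s • M, hg⟩, ?_, ?_⟩
  · rw [eq_mul_inv_iff_mul_eq]
    apply Subtype.ext
    rw [coe_mul', coe_mul', hP0]
    show P.1 * (s • M) = (s • M) * clk ζ a
    rw [mul_smul_comm, hPM, smul_mul_assoc]
  · rw [eq_mul_inv_iff_mul_eq]
    apply Subtype.ext
    rw [coe_mul', coe_mul', hQ0]
    show Q.1 * (s • M) = (s • M) * shf c
    rw [mul_smul_comm, hQM, smul_mul_assoc]

/-- the commutant of the standard pair -/
theorem commutant_std {P0 Q0 : SU N} {a c : ℂ} (hP0 : P0.1 = clk ζ a) (hQ0 : Q0.1 = shf c)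
    (ha : ‖a‖ = 1) (hc : ‖c‖ = 1) (B : SU N) (h1 : B * P0 = P0 * B) (h2 : B * Q0 = Q0 * B) :
    ∃ j : ℕ, j < N ∧ B = cz hζ j := by
  have ha0 : a ≠ 0 := by intro h; rw [h, norm_zero] at ha; exact zero_ne_one ha
  have hc0 : c ≠ 0 := by intro h; rw [h, norm_zero] at hc; exact zero_ne_one hc
  have e1 : B.1 * clk ζ a = clk ζ a * B.1 := by
    rw [← hP0, ← coe_mul', ← coe_mul', h1]
  have e2 : B.1 * shf c = shf c * B.1 := by
    rw [← hQ0, ← coe_mul', ← coe_mul', h2]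
  have hoff : ∀ i j, i ≠ j → B.1 i j = 0 := by
    intro i j hij
    have h := congrFun (congrFun e1 i) j
    unfold clk at h
    rw [Matrix.mul_diagonal, Matrix.diagonal_mul] at h
    have h3 : B.1 i j * (a * (ζ⁻¹ ^ (j : ℕ) - ζ⁻¹ ^ (i : ℕ))) = 0 := by
      rw [mul_sub, mul_sub, h]; ring
    rcases mul_eq_zero.mp h3 with h4 | h4
    · exact h4
    · exfalso
      rcases mul_eq_zero.mp h4 with h5 | h5
      · exact ha0 h5
      · exact hij (Fin.ext (hζ.inv.pow_inj j.2 i.2 (sub_eq_zero.mp h5))).symm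
  have hdiag : ∀ j : Fin N, B.1 (j + 1) (j + 1) = B.1 j j := by
    intro j
    have h := congrFun (congrFun e2 (j + 1)) j
    rw [mul_shf, shf_mul, add_sub_cancel_right, mul_comm] at h
    refine mul_left_cancel₀ (a := (if j + 1 = 0 then c else 1)) ?_ h
    split_ifs
    · exact hc0
    · exact one_ne_zero
  have hall : ∀ (i : ℕ) (h : i < N), B.1 ⟨i, h⟩ ⟨i, h⟩ = B.1 0 0 := by
    intro i
    induction i with
    | zero =>
      intro h
      rfl
    | succ i ih =>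
      intro h
      have e : (⟨i + 1, h⟩ : Fin N) = ⟨i, by omega⟩ + 1 := by
        apply Fin.ext
        rw [Fin.val_add, Fin.val_one', Nat.add_mod_mod]
        exact (Nat.mod_eq_of_lt h).symm
      rw [e, hdiag, ih]
  have hB : B.1 = (B.1 0 0) • (1 : Matrix (Fin N) (Fin N) ℂ) := by
    ext i j
    rw [Matrix.smul_apply, Matrix.one_apply]
    by_cases h : i = j
    · subst h
      rw [if_pos rfl, smul_eq_mul, mul_one]
      exact hall (i : ℕ) i.2
    · rw [if_neg h, smul_zero, hoff i j h]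
  have hdet : (B.1 0 0) ^ N = 1 := by
    have h := ((SU_mem_iff B.1).mp B.2).2
    rw [hB, Matrix.det_smul, Matrix.det_one, mul_one, Fintype.card_fin] at h
    exact h
  obtain ⟨j, hj, hj'⟩ := hζ.eq_pow_of_pow_eq_one hdet
  refine ⟨j, hj, ?_⟩
  apply Subtype.ext
  rw [cz_val, hj']
  exact hB

/-- Summary: the standard pair, its uniqueness and its commutant. -/
theorem weyl_pair : ∃ P0 Q0 : SU N, (Q0 * P0).1 = ζ • (P0 * Q0).1 ∧
    (∀ P Q : SU N, (Q * P).1 = ζ • (P * Q).1 →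
      ∃ g : SU N, P = g * P0 * g⁻¹ ∧ Q = g * Q0 * g⁻¹) ∧
    ∀ B : SU N, B * P0 = P0 * B → B * Q0 = Q0 * B → ∃ j : ℕ, j < N ∧ B = cz hζ j := by
  obtain ⟨P0, Q0, a, c, hP0, hQ0, ha, hc⟩ := exists_std hζ
  refine ⟨P0, Q0, ?_, fun P Q h => conj_std hζ hP0 hQ0 P Q h, fun B h1 h2 =>
    commutant_std hζ hP0 hQ0 ha hc B h1 h2⟩
  rw [coe_mul', coe_mul', hP0, hQ0]
  exact clk_shf hζ.pow_eq_one a c

end

end Run7.h4.YM
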