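import Mathlib
import Pool.Agent.Run7.h4.YM.Weyl2
import Pool.Agent.Run7.h4.YM.Sys

/-!
# Almost flat fibres with flux: frames
-/

open Matrix MeasureTheory

namespace Run7.h4.YM

set_option linter.unusedSectionVars false

noncomputable section

/-! ### General lemmas -/

theorem compact_small {X : Type*} [TopologicalSpace X] [CompactSpace X] {f : X → ℝ}
    (hf : Continuous f) (hf0 : ∀ x, 0 ≤ f x) {W : Set X} (hW : IsOpen W)
    (h : ∀ x, f x = 0 → x ∈ W) : ∃ δ : ℝ, 0 < δ ∧ ∀ x, f x < δ → x ∈ W := by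
  have hc : IsCompact Wᶜ := hW.isClosed_compl.isCompact
  by_cases hne : (Wᶜ).Nonempty
  · obtain ⟨x0, hx0, hmin⟩ := hc.exists_isMinOn hne hf.continuousOn
    have hpos : 0 < f x0 := lt_of_le_of_ne (hf0 x0) fun h0 => hx0 (h x0 h0.symm)
    refine ⟨f x0, hpos, fun x hx => ?_⟩
    by_contra hxW
    exact absurd (hmin hxW) (not_le.mpr hx)
  · refine ⟨1, one_pos, fun x _ => ?_⟩
    by_contra hxW
    exact hne ⟨x, hxW⟩

/-- measurable selections of open conditions -/
theorem exists_sel {α Y : Type*} [MeasurableSpace α] [TopologicalSpace Y]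
    [TopologicalSpace.SeparableSpace Y] [MeasurableSpace Y] [Nonempty Y] (O : α → Y → Prop)
    (hO : ∀ a, IsOpen {y | O a y}) (hm : ∀ y, MeasurableSet {a | O a y}) :
    ∃ f : α → Y, Measurable f ∧ ∀ a, (∃ y, O a y) → O a (f a) := by
  classical
  set h := TopologicalSpace.denseSeq Y with hh
  set p : α → ℕ → Prop := fun a n => O a (h n) ∨ ∀ m, ¬ O a (h m) with hp
  have hex : ∀ a, ∃ n, p a n := by
    intro a
    by_cases hc : ∃ m, O a (h m)
    · obtain ⟨m, hm⟩ := hc
      exact ⟨m, Or.inl hm⟩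
    · push Not at hc
      exact ⟨0, Or.inr hc⟩
  have hpm : ∀ n, MeasurableSet {a | p a n} := by
    intro n
    have : {a | p a n} = {a | O a (h n)} ∪ ⋂ m, {a | O a (h m)}ᶜ := by
      ext a
      simp [hp]
    rw [this]
    exact (hm _).union (MeasurableSet.iInter fun m => (hm _).compl)
  refine ⟨fun a => h (Nat.find (hex a)), ?_, ?_⟩
  · exact (measurable_from_nat (f := h)).comp (measurable_find hex hpm)
  · rintro a ⟨y, hy⟩
    have hd := TopologicalSpace.denseRange_denseSeq Y
    obtain ⟨n, hn⟩ := hd.exists_mem_open (hO a) ⟨y, hy⟩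
    rcases Nat.find_spec (hex a) with h1 | h1
    · exact h1
    · exact absurd hn (h1 n)

/-- ordered products -/
def hp {G : Type*} [Monoid G] (f : ℕ → G) (j : ℕ) : G := ((List.range j).map f).prod

section hp

variable {G : Type*}

@[simp] theorem hp_zero [Monoid G] (f : ℕ → G) : hp f 0 = 1 := rfl

theorem hp_succ [Monoid G] (f : ℕ → G) (j : ℕ) : hp f (j + 1) = hp f j * f j := by
  unfold hp
  rw [List.range_succ, List.map_append, List.prod_append]
  simp

theorem hp_add [Monoid G] (f : ℕ → G) (i j : ℕ) :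
    hp f (i + j) = hp f i * hp (fun t => f (i + t)) j := by
  induction j with
  | zero => simp
  | succ j ih => rw [← add_assoc, hp_succ, ih, hp_succ, mul_assoc]

theorem hp_congr [Monoid G] {f g : ℕ → G} {j : ℕ} (h : ∀ i, i < j → f i = g i) :
    hp f j = hp g j := by
  induction j with
  | zero => rfl
  | succ j ih => rw [hp_succ, hp_succ, ih fun i hi => h i (by omega), h j (by omega)]

theorem hp_inv [Group G] (f : ℕ → G) (j : ℕ) :
    (hp f j)⁻¹ = hp (fun t => (f (j - 1 - t))⁻¹) j := by
  induction j with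
  | zero => simp
  | succ j ih =>
    rw [hp_succ, _root_.mul_inv_rev, ih, add_comm j 1, hp_add]
    congr 1
    · simp [hp]
    · refine hp_congr fun i hi => ?_
      congr 2
      omega

theorem hp_conj [Group G] {f g : ℕ → G} {u : ℕ → G} (h : ∀ i, f i = u i * g i * (u (i + 1))⁻¹)
    (j : ℕ) : hp f j = u 0 * hp g j * (u j)⁻¹ := by
  induction j with
  | zero => simp
  | succ j ih => rw [hp_succ, hp_succ, ih, h j]; group

theorem continuous_hp {X : Type*} [TopologicalSpace X] [Monoid G] [TopologicalSpace G]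
    [ContinuousMul G] {f : X → ℕ → G} {j : ℕ} (h : ∀ i, Continuous fun x => f x i) :
    Continuous fun x => hp (f x) j := by
  induction j with
  | zero => simp only [hp_zero]; exact continuous_const
  | succ j ih => simp only [hp_succ]; exact ih.mul (h j)

end hp

variable {N l : ℕ} [NeZero N] [NeZero l]

/-- the points of the fibre -/
abbrev Fib (l : ℕ) : Type := ZMod l × ZMod l

/-- the fields of a fibre -/
abbrev FC (N l : ℕ) : Type := (Fib l → SU N) × (Fib l → SU N)

/-- fibre energy -/
def VL (k : ℕ) (s : FC N l) : ℝ :=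
  ∑ y : Fib l, aw (twf N k y) (s.1 y * s.2 (y + (1, 0)) * (s.1 (y + (0, 1)))⁻¹ * (s.2 y)⁻¹)

/-- hopping energy -/
def KL (s : FC N l) (u : Fib l → SU N) (s' : FC N l) : ℝ :=
  ∑ y : Fib l, (aw 1 (u y * s'.1 y * (u (y + (1, 0)))⁻¹ * (s.1 y)⁻¹) +
    aw 1 (u y * s'.2 y * (u (y + (0, 1)))⁻¹ * (s.2 y)⁻¹))

/-- first holonomy -/
def PL (s : FC N l) : SU N := hp (fun a => s.1 ((a : ZMod l), 0)) l

/-- second holonomy -/
def QL (s : FC N l) : SU N := hp (fun b => s.2 (0, (b : ZMod l))) l

theorem cont_VL (k : ℕ) : Continuous (VL k : FC N l → ℝ) := by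
  unfold VL
  refine continuous_finsetSum _ fun y _ => cont_aw4 _ ?_ ?_ ?_ ?_
  · exact (continuous_apply _).comp continuous_fst
  · exact (continuous_apply _).comp continuous_snd
  · exact (continuous_apply _).comp continuous_fst
  · exact (continuous_apply _).comp continuous_snd

theorem cont_KL : Continuous (fun p : FC N l × (Fib l → SU N) × FC N l => KL p.1 p.2.1 p.2.2) := by
  unfold KL
  refine continuous_finsetSum _ fun y _ => Continuous.add ?_ ?_
  · refine cont_aw4 _ ?_ ?_ ?_ ?_
    · exact (continuous_apply _).comp (continuous_fst.comp continuous_snd)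
    · exact (continuous_apply _).comp (continuous_fst.comp (continuous_snd.comp continuous_snd))
    · exact (continuous_apply _).comp (continuous_fst.comp continuous_snd)
    · exact (continuous_apply _).comp (continuous_fst.comp continuous_fst)
  · refine cont_aw4 _ ?_ ?_ ?_ ?_
    · exact (continuous_apply _).comp (continuous_fst.comp continuous_snd)
    · exact (continuous_apply _).comp (continuous_snd.comp (continuous_snd.comp continuous_snd))
    · exact (continuous_apply _).comp (continuous_fst.comp continuous_snd)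
    · exact (continuous_apply _).comp (continuous_snd.comp continuous_fst)

theorem cont_PL : Continuous (PL : FC N l → SU N) :=
  continuous_hp fun _ => (continuous_apply _).comp continuous_fst

theorem cont_QL : Continuous (QL : FC N l → SU N) :=
  continuous_hp fun _ => (continuous_apply _).comp continuous_snd

theorem aw_one_nonneg (g : SU N) : 0 ≤ aw 1 g := by
  rw [aw_one_eq]; positivity

theorem aw_one_zero {g : SU N} (h : aw 1 g = 0) : g = 1 := by
  rw [aw_one_eq] at h
  have : dd g 1 = 0 := by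
    have h1 : dd g 1 ^ 2 = 0 := by linarith
    exact pow_eq_zero_iff (two_ne_zero) |>.mp h1
  exact dd_eq_iff.mp this

/-- the flux root of unity -/
def om (N k : ℕ) : ℂ := Complex.exp (2 * Real.pi * Complex.I * (k / N))

theorem om_prim {k : ℕ} (hk : Nat.Coprime k N) : IsPrimitiveRoot (om N k) N :=
  Complex.isPrimitiveRoot_exp_of_coprime k N (NeZero.ne N) hk

section

variable {k : ℕ} (hζ : IsPrimitiveRoot (om N k) N)


/-- the twist as a central element -/
def tz (y : Fib l) : SU N := if y = 0 then cz hζ 1 else 1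

theorem aw_twf (y : Fib l) (g : SU N) : aw (twf N k y) g = aw 1 (tz hζ y * g) := by
  unfold aw twf tz
  by_cases h : y = 0
  · rw [if_pos h, if_pos h, tr_cz_mul, pow_one, one_mul]; rfl
  · rw [if_neg h, if_neg h, one_mul, one_mul, one_mul]

include hζ in
theorem aw_twf_nonneg (y : Fib l) (g : SU N) : 0 ≤ aw (twf N k y) g := by
  rw [aw_twf hζ]; exact aw_one_nonneg _

include hζ in
theorem VL_nonneg (s : FC N l) : 0 ≤ VL k s :=
  Finset.sum_nonneg fun y _ => aw_twf_nonneg hζ y _

theorem KL_nonneg (s : FC N l) (u : Fib l → SU N) (s' : FC N l) : 0 ≤ KL s u s' :=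
  Finset.sum_nonneg fun _ _ => add_nonneg (aw_one_nonneg _) (aw_one_nonneg _)

theorem KL_zero {s s' : FC N l} {u : Fib l → SU N} (h : KL s u s' = 0) :
    PL s = u 0 * PL s' * (u 0)⁻¹ ∧ QL s = u 0 * QL s' * (u 0)⁻¹ := by
  unfold KL at h
  rw [Finset.sum_eq_zero_iff_of_nonneg
    (fun y _ => add_nonneg (aw_one_nonneg _) (aw_one_nonneg _))] at h
  have h1 : ∀ y, s.1 y = u y * s'.1 y * (u (y + (1, 0)))⁻¹ := fun y => by
    have h2 := h y (Finset.mem_univ y)
    have h3 := aw_one_nonneg (u y * s'.1 y * (u (y + (1, 0)))⁻¹ * (s.1 y)⁻¹)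
    have h4 := aw_one_nonneg (u y * s'.2 y * (u (y + (0, 1)))⁻¹ * (s.2 y)⁻¹)
    have h5 := aw_one_zero (by linarith : aw 1 (u y * s'.1 y * (u (y + (1, 0)))⁻¹ * (s.1 y)⁻¹) = 0)
    exact (mul_inv_eq_one.mp h5).symm
  have h1' : ∀ y, s.2 y = u y * s'.2 y * (u (y + (0, 1)))⁻¹ := fun y => by
    have h2 := h y (Finset.mem_univ y)
    have h3 := aw_one_nonneg (u y * s'.1 y * (u (y + (1, 0)))⁻¹ * (s.1 y)⁻¹)
    have h4 := aw_one_nonneg (u y * s'.2 y * (u (y + (0, 1)))⁻¹ * (s.2 y)⁻¹)
    have h5 := aw_one_zero (by linarith : aw 1 (u y * s'.2 y * (u (y + (0, 1)))⁻¹ * (s.2 y)⁻¹) = 0)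
    exact (mul_inv_eq_one.mp h5).symm
  constructor
  · have := hp_conj (f := fun a : ℕ => s.1 ((a : ZMod l), 0)) (g := fun a : ℕ => s'.1 ((a : ZMod l), 0))
      (u := fun a : ℕ => u ((a : ZMod l), 0)) (fun i => by
        rw [h1]
        congr 3
        simp) l
    simp only [Nat.cast_zero, ZMod.natCast_self] at this
    exact this
  · have := hp_conj (f := fun a : ℕ => s.2 (0, (a : ZMod l))) (g := fun a : ℕ => s'.2 (0, (a : ZMod l)))
      (u := fun a : ℕ => u (0, (a : ZMod l))) (fun i => by
        rw [h1']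
        congr 3
        simp) l
    simp only [Nat.cast_zero, ZMod.natCast_self] at this
    exact this

end

end

end Run7.h4.YM
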