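import Mathlib
import Pool.Agent.Run7.h4.YM.Frame

/-!
# The flux of the fibre; small energies
-/

open Matrix MeasureTheory

namespace Run7.h4.YM

set_option linter.unusedSectionVars false

noncomputable section

variable {N l : ℕ} [NeZero N] [NeZero l] {k : ℕ} (hζ : IsPrimitiveRoot (om N k) N)

theorem tz_comm (y : Fib l) (g : SU N) : tz hζ y * g = g * tz hζ y := by
  unfold tz
  split_ifs
  · exact cz_comm hζ 1 g
  · rw [one_mul, mul_one]

/-- moving a column through a row of plaquettes -/
theorem row_move {s : FC N l}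
    (h : ∀ y, tz hζ y * (s.1 y * s.2 (y + (1, 0)) * (s.1 (y + (0, 1)))⁻¹ * (s.2 y)⁻¹) = 1)
    (b : ZMod l) (j : ℕ) :
    hp (fun a => tz hζ ((a : ZMod l), b)) j *
      (hp (fun a => s.1 ((a : ZMod l), b)) j * s.2 ((j : ZMod l), b)) =
      s.2 (0, b) * hp (fun a => s.1 ((a : ZMod l), b + 1)) j := by
  induction j with
  | zero => simp
  | succ j ih =>
    have h1 := h ((j : ZMod l), b)
    rw [← mul_assoc, mul_inv_eq_one, ← mul_assoc, mul_inv_eq_iff_eq_mul] at h1
    have e1 : ((j : ZMod l), b) + (1, 0) = (((j + 1 : ℕ) : ZMod l), b) := by simp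
    have e2 : ((j : ZMod l), b) + (0, 1) = ((j : ZMod l), b + 1) := by simp
    rw [e1, e2] at h1
    rw [hp_succ, hp_succ, hp_succ]
    calc hp (fun a => tz hζ ((a : ZMod l), b)) j * tz hζ ((j : ZMod l), b) *
          (hp (fun a => s.1 ((a : ZMod l), b)) j * s.1 ((j : ZMod l), b) *
            s.2 (((j + 1 : ℕ) : ZMod l), b))
        = hp (fun a => tz hζ ((a : ZMod l), b)) j * (tz hζ ((j : ZMod l), b) *
          hp (fun a => s.1 ((a : ZMod l), b)) j) * (s.1 ((j : ZMod l), b) *
            s.2 (((j + 1 : ℕ) : ZMod l), b)) := by simp only [mul_assoc]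
      _ = hp (fun a => tz hζ ((a : ZMod l), b)) j *
          hp (fun a => s.1 ((a : ZMod l), b)) j * (tz hζ ((j : ZMod l), b) * (s.1 ((j : ZMod l), b) *
            s.2 (((j + 1 : ℕ) : ZMod l), b))) := by rw [tz_comm]; simp only [mul_assoc]
      _ = hp (fun a => tz hζ ((a : ZMod l), b)) j *
          hp (fun a => s.1 ((a : ZMod l), b)) j * (s.2 ((j : ZMod l), b) *
            s.1 ((j : ZMod l), b + 1)) := by rw [h1]
      _ = s.2 (0, b) * (hp (fun a => s.1 ((a : ZMod l), b + 1)) j * s.1 ((j : ZMod l), b + 1)) := by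
          rw [← mul_assoc (s.2 (0, b)), ← ih]; simp only [mul_assoc]

theorem hp_tz (b : ZMod l) :
    hp (fun a => tz hζ ((a : ZMod l), b)) l = if b = 0 then cz hζ 1 else 1 := by
  by_cases hb : b = 0
  · rw [if_pos hb]
    obtain ⟨r, hr⟩ : ∃ r, l = 1 + r := ⟨l - 1, by have := NeZero.pos l; omega⟩
    have h1 : ∀ i, i < r → tz hζ (((1 + i : ℕ) : ZMod l), b) = 1 := by
      intro i hi
      unfold tz
      rw [if_neg]
      intro h
      have h2 := congrArg Prod.fst h
      have h3 : (((1 + i : ℕ) : ZMod l)).val = 0 := by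
        rw [show ((1 + i : ℕ) : ZMod l) = 0 from h2]; exact ZMod.val_zero
      rw [ZMod.val_cast_of_lt (by omega)] at h3
      omega
    have h4 : hp (fun a => tz hζ ((a : ZMod l), b)) (1 + r) = cz hζ 1 := by
      rw [hp_add]
      have h5 : hp (fun t => tz hζ (((1 + t : ℕ) : ZMod l), b)) r = hp (fun _ => (1 : SU N)) r :=
        hp_congr h1
      have h6 : ∀ j, hp (fun _ => (1 : SU N)) j = 1 := by
        intro j
        induction j with
        | zero => rfl
        | succ j ih => rw [hp_succ, ih, one_mul]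
      rw [h5, h6]
      simp [hp, tz, hb]
    have h7 : hp (fun a => tz hζ ((a : ZMod l), b)) l =
        hp (fun a => tz hζ ((a : ZMod l), b)) (1 + r) := by
      congr 1
    rw [h7, h4]
  · rw [if_neg hb]
    have h5 : hp (fun a : ℕ => tz hζ ((a : ZMod l), b)) l = hp (fun _ => (1 : SU N)) l := by
      refine hp_congr fun i _ => ?_
      unfold tz
      rw [if_neg]
      intro h
      exact hb (congrArg Prod.snd h)
    have h6 : ∀ j, hp (fun _ => (1 : SU N)) j = 1 := by
      intro j
      induction j with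
      | zero => rfl
      | succ j ih => rw [hp_succ, ih, one_mul]
    rw [h5, h6]

theorem hp_row (j : ℕ) (hj : 0 < j) (hjl : j ≤ l) :
    hp (fun b : ℕ => if (b : ZMod l) = 0 then cz hζ 1 else (1 : SU N)) j = cz hζ 1 := by
  induction j with
  | zero => omega
  | succ j ih =>
    rw [hp_succ]
    rcases Nat.eq_zero_or_pos j with h | h
    · subst h; simp
    · rw [ih h (by omega), if_neg, mul_one]
      intro h0
      have h3 : (((j : ℕ) : ZMod l)).val = 0 := by rw [h0]; exact ZMod.val_zero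
      rw [ZMod.val_cast_of_lt (by omega)] at h3
      omega

include hζ in
/-- The flux through a flat fibre. -/
theorem flux_rel {s : FC N l} (h : VL k s = 0) : (QL s * PL s).1 = om N k • (PL s * QL s).1 := by
  unfold VL at h
  rw [Finset.sum_eq_zero_iff_of_nonneg (fun y _ => aw_twf_nonneg hζ y _)] at h
  have h0 : ∀ y, tz hζ y * (s.1 y * s.2 (y + (1, 0)) * (s.1 (y + (0, 1)))⁻¹ * (s.2 y)⁻¹) = 1 := by
    intro y
    have h1 := h y (Finset.mem_univ y)
    rw [aw_twf hζ] at h1
    exact aw_one_zero h1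
  have hrow : ∀ b : ZMod l, (if b = 0 then cz hζ 1 else (1 : SU N)) *
      (hp (fun a => s.1 ((a : ZMod l), b)) l * s.2 (0, b)) =
      s.2 (0, b) * hp (fun a => s.1 ((a : ZMod l), b + 1)) l := by
    intro b
    have := row_move hζ h0 b l
    rw [hp_tz, ZMod.natCast_self] at this
    exact this
  have hcol : ∀ j : ℕ, hp (fun b : ℕ => if (b : ZMod l) = 0 then cz hζ 1 else (1 : SU N)) j *
      (hp (fun a => s.1 ((a : ZMod l), 0)) l * hp (fun b => s.2 (0, (b : ZMod l))) j) =
      hp (fun b => s.2 (0, (b : ZMod l))) j * hp (fun a => s.1 ((a : ZMod l), (j : ZMod l))) l := by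
    intro j
    induction j with
    | zero => simp
    | succ j ih =>
      have hr := hrow (j : ZMod l)
      have hzc : ∀ g : SU N, (if (j : ZMod l) = 0 then cz hζ 1 else (1 : SU N)) * g =
          g * (if (j : ZMod l) = 0 then cz hζ 1 else (1 : SU N)) := by
        intro g
        split_ifs
        · exact cz_comm hζ 1 g
        · rw [one_mul, mul_one]
      have e : ((j + 1 : ℕ) : ZMod l) = (j : ZMod l) + 1 := by push_cast; rfl
      rw [hp_succ, hp_succ, e]
      set z := (if (j : ZMod l) = 0 then cz hζ 1 else (1 : SU N)) with hz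
      set Z := hp (fun b : ℕ => if (b : ZMod l) = 0 then cz hζ 1 else (1 : SU N)) j with hZ
      set A := hp (fun a => s.1 ((a : ZMod l), 0)) l with hA
      set B := hp (fun b => s.2 (0, (b : ZMod l))) j with hB
      calc Z * z * (A * (B * s.2 (0, (j : ZMod l))))
          = Z * (A * B) * (z * s.2 (0, (j : ZMod l))) := by
            rw [mul_assoc Z, hzc, hzc]; simp only [mul_assoc]
        _ = B * hp (fun a => s.1 ((a : ZMod l), (j : ZMod l))) l * (z * s.2 (0, (j : ZMod l))) := by
            rw [ih]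
        _ = B * (z * (hp (fun a => s.1 ((a : ZMod l), (j : ZMod l))) l * s.2 (0, (j : ZMod l)))) := by
            rw [hzc, hzc]; simp only [mul_assoc]
        _ = B * (s.2 (0, (j : ZMod l)) * hp (fun a => s.1 ((a : ZMod l), (j : ZMod l) + 1)) l) := by
            rw [hr]
        _ = _ := by simp only [mul_assoc]
  have hfin := hcol l
  rw [hp_row hζ l (NeZero.pos l) (le_refl l), ZMod.natCast_self] at hfin
  have h2 : cz hζ 1 * (PL s * QL s) = QL s * PL s := hfin
  rw [← h2, coe_mul' (cz hζ 1), cz_val, pow_one, smul_mul_assoc, one_mul]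

include hζ in
/-- almost flat fibres are almost standard -/
theorem approxA {P0 Q0 : SU N}
    (hstd : ∀ P Q : SU N, (Q * P).1 = om N k • (P * Q).1 →
      ∃ g : SU N, P = g * P0 * g⁻¹ ∧ Q = g * Q0 * g⁻¹) {ε : ℝ} (hε : 0 < ε) :
    ∃ δ : ℝ, 0 < δ ∧ ∀ s : FC N l, VL k s < δ →
      ∃ g : SU N, dd (g⁻¹ * PL s * g) P0 < ε ∧ dd (g⁻¹ * QL s * g) Q0 < ε := by
  refine compact_small (cont_VL k) (VL_nonneg hζ)
    (W := {s | ∃ g : SU N, dd (g⁻¹ * PL s * g) P0 < ε ∧ dd (g⁻¹ * QL s * g) Q0 < ε}) ?_ ?_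
  · have : {s : FC N l | ∃ g : SU N, dd (g⁻¹ * PL s * g) P0 < ε ∧ dd (g⁻¹ * QL s * g) Q0 < ε} =
        ⋃ g : SU N, {s | dd (g⁻¹ * PL s * g) P0 < ε ∧ dd (g⁻¹ * QL s * g) Q0 < ε} := by
      ext s; simp
    rw [this]
    refine isOpen_iUnion fun g => IsOpen.inter ?_ ?_
    · exact isOpen_lt (continuous_dd' ((continuous_const.mul cont_PL).mul continuous_const)
        continuous_const) continuous_const
    · exact isOpen_lt (continuous_dd' ((continuous_const.mul cont_QL).mul continuous_const)
        continuous_const) continuous_const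
  · intro s hs
    obtain ⟨g, h1, h2⟩ := hstd (PL s) (QL s) (flux_rel hζ hs)
    refine ⟨g, ?_, ?_⟩
    · have : g⁻¹ * PL s * g = P0 := by rw [h1]; group
      rw [this, dd_self]; exact hε
    · have : g⁻¹ * QL s * g = Q0 := by rw [h2]; group
      rw [this, dd_self]; exact hε

/-- elements almost commuting with the standard pair are almost central -/
theorem approxB {P0 Q0 : SU N} (hcomm : ∀ B : SU N, B * P0 = P0 * B → B * Q0 = Q0 * B →
      ∃ j : ℕ, j < N ∧ B = cz hζ j) {η : ℝ} (hη : 0 < η) :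
    ∃ ε : ℝ, 0 < ε ∧ ∀ v : SU N, dd (v * P0) (P0 * v) < ε → dd (v * Q0) (Q0 * v) < ε →
      ∃ j : ℕ, dd v (cz hζ j) < η := by
  obtain ⟨ε, hε, h⟩ := compact_small (X := SU N)
    (f := fun v => dd (v * P0) (P0 * v) + dd (v * Q0) (Q0 * v))
    ((continuous_dd' (continuous_id.mul continuous_const) (continuous_const.mul continuous_id)).add
      (continuous_dd' (continuous_id.mul continuous_const) (continuous_const.mul continuous_id)))
    (fun v => add_nonneg (dd_nonneg _ _) (dd_nonneg _ _))
    (W := {v | ∃ j : ℕ, dd v (cz hζ j) < η})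
    (by
      have : {v : SU N | ∃ j : ℕ, dd v (cz hζ j) < η} = ⋃ j : ℕ, {v | dd v (cz hζ j) < η} := by
        ext v; simp
      rw [this]
      exact isOpen_iUnion fun j => isOpen_lt (continuous_dd' continuous_id continuous_const)
        continuous_const)
    (by
      intro v hv
      have h1 := dd_nonneg (v * P0) (P0 * v)
      have h2 := dd_nonneg (v * Q0) (Q0 * v)
      obtain ⟨j, _, hj⟩ := hcomm v (dd_eq_iff.mp (by linarith)) (dd_eq_iff.mp (by linarith))
      refine ⟨j, ?_⟩
      rw [hj, dd_self]; exact hη)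
  refine ⟨ε / 2, by positivity, fun v h1 h2 => h v ?_⟩
  show dd (v * P0) (P0 * v) + dd (v * Q0) (Q0 * v) < ε
  linarith

/-- small hopping energy: the holonomies are almost conjugate -/
theorem approxC (N l : ℕ) [NeZero N] [NeZero l] {ε : ℝ} (hε : 0 < ε) :
    ∃ δ : ℝ, 0 < δ ∧ ∀ (s : FC N l) (u : Fib l → SU N) (s' : FC N l), KL s u s' < δ →
      dd (PL s) (u 0 * PL s' * (u 0)⁻¹) < ε ∧ dd (QL s) (u 0 * QL s' * (u 0)⁻¹) < ε := by
  obtain ⟨δ, hδ, h⟩ := compact_small (X := FC N l × (Fib l → SU N) × FC N l)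
    (f := fun p => KL p.1 p.2.1 p.2.2) cont_KL (fun p => KL_nonneg _ _ _)
    (W := {p | dd (PL p.1) (p.2.1 0 * PL p.2.2 * (p.2.1 0)⁻¹) < ε ∧
      dd (QL p.1) (p.2.1 0 * QL p.2.2 * (p.2.1 0)⁻¹) < ε})
    (by
      have hu : Continuous fun p : FC N l × (Fib l → SU N) × FC N l => p.2.1 0 :=
        (continuous_apply _).comp (continuous_fst.comp continuous_snd)
      refine IsOpen.inter ?_ ?_
      · exact isOpen_lt (continuous_dd' (cont_PL.comp continuous_fst)
          ((hu.mul (cont_PL.comp (continuous_snd.comp continuous_snd))).mul hu.inv))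
          continuous_const
      · exact isOpen_lt (continuous_dd' (cont_QL.comp continuous_fst)
          ((hu.mul (cont_QL.comp (continuous_snd.comp continuous_snd))).mul hu.inv))
          continuous_const)
    (by
      intro p hp
      obtain ⟨h1, h2⟩ := KL_zero hp
      refine ⟨?_, ?_⟩
      · rw [← h1, dd_self]; exact hε
      · rw [← h2, dd_self]; exact hε)
  exact ⟨δ, hδ, fun s u s' hs => h (s, u, s') hs⟩

end

end Run7.h4.YM
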