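import Mathlib
import Pool.Agent.Run7.h4.YM.Frame2

/-!
# Frames and centre valued links on cells of small energy
-/

open Matrix MeasureTheory

namespace Run7.h4.YM

set_option linter.unusedSectionVars false

noncomputable section

section

variable {N n L l : ℕ}

/-- fields of the fibre over a base point -/
def fs (U : Link n L l → SU N) (t : ZMod n) (x : ZMod L) : FC N l :=
  (fun y => U (2, t, x, y), fun y => U (3, t, x, y))

variable [NeZero N] [NeZero n] [NeZero L] [NeZero l] {k : ℕ}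

theorem Vf_eq (U : Link n L l → SU N) (t : ZMod n) (x : ZMod L) :
    Vf k U t x = VL k (fs U t x) := rfl

theorem K0_eq (U : Link n L l → SU N) (t : ZMod n) (x : ZMod L) :
    K0 U t x = KL (fs U t x) (fun y => U (0, t, x, y)) (fs U (t + 1) x) := rfl

theorem K1_eq (U : Link n L l → SU N) (t : ZMod n) (x : ZMod L) :
    K1 U t x = KL (fs U t x) (fun y => U (1, t, x, y)) (fs U t (x + 1)) := rfl

variable (hζ : IsPrimitiveRoot (om N k) N)

theorem exists_gap : ∃ r : ℝ, 0 < r ∧ ∀ i j : ℕ, dd (cz hζ i) (cz hζ j) < r →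
    cz hζ i = cz hζ j := by
  classical
  set F : Fin N × Fin N → ℝ := fun p =>
    if cz hζ (p.1 : ℕ) = cz hζ (p.2 : ℕ) then 1 else dd (cz hζ (p.1 : ℕ)) (cz hζ (p.2 : ℕ)) with hF
  have hFpos : ∀ p, 0 < F p := by
    intro p
    simp only [hF]
    split_ifs with h
    · exact one_pos
    · exact lt_of_le_of_ne (dd_nonneg _ _) fun h0 => h (dd_eq_iff.mp h0.symm)
  obtain ⟨p0, hp0⟩ := Finite.exists_min F
  refine ⟨F p0, hFpos p0, fun i j hij => ?_⟩
  have hi : i % N < N := Nat.mod_lt _ (NeZero.pos N)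
  have hj : j % N < N := Nat.mod_lt _ (NeZero.pos N)
  rw [← cz_mod hζ i, ← cz_mod hζ j] at hij ⊢
  by_contra hne
  have h1 := hp0 (⟨i % N, hi⟩, ⟨j % N, hj⟩)
  have h2 : F (⟨i % N, hi⟩, ⟨j % N, hj⟩) = dd (cz hζ (i % N)) (cz hζ (j % N)) := by
    simp only [hF]
    rw [if_neg hne]
  rw [h2] at h1
  exact absurd hij (not_lt.mpr h1)

variable [MeasurableSpace (SU N)] [BorelSpace (SU N)]

theorem good_bond {η : ℝ} (hη : 0 < η) :
    ∃ (δ : ℝ) (fr : FC N l → SU N) (nu : SU N → ℕ), 0 < δ ∧ Measurable fr ∧ Measurable nu ∧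
      ∀ (s : FC N l) (u : Fib l → SU N) (s' : FC N l), VL k s < δ → VL k s' < δ → KL s u s' < δ →
        dd ((fr s)⁻¹ * u 0 * fr s') (cz hζ (nu ((fr s)⁻¹ * u 0 * fr s'))) < η := by
  obtain ⟨P0, Q0, -, hstd, hcomm⟩ := weyl_pair hζ
  obtain ⟨ε, hε, hB⟩ := approxB hζ hcomm hη
  have hε3 : 0 < ε / 3 := by positivity
  obtain ⟨δ1, hδ1, hA⟩ := approxA (l := l) hζ hstd hε3
  obtain ⟨δ2, hδ2, hC⟩ := approxC N l hε3
  -- frames
  obtain ⟨fr, hfr, hfr'⟩ := exists_sel (α := FC N l) (Y := SU N)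
    (fun s g => dd (g⁻¹ * PL s * g) P0 < ε / 3 ∧ dd (g⁻¹ * QL s * g) Q0 < ε / 3)
    (fun s => by
      refine IsOpen.inter ?_ ?_
      · exact isOpen_lt (continuous_dd' ((continuous_inv.mul continuous_const).mul continuous_id)
          continuous_const) continuous_const
      · exact isOpen_lt (continuous_dd' ((continuous_inv.mul continuous_const).mul continuous_id)
          continuous_const) continuous_const)
    (fun g => by
      refine IsOpen.measurableSet (IsOpen.inter ?_ ?_)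
      · exact isOpen_lt (continuous_dd' ((continuous_const.mul cont_PL).mul continuous_const)
          continuous_const) continuous_const
      · exact isOpen_lt (continuous_dd' ((continuous_const.mul cont_QL).mul continuous_const)
          continuous_const) continuous_const)
  obtain ⟨nu, hnu, hnu'⟩ := exists_sel (α := SU N) (Y := ℕ)
    (fun v j => dd v (cz hζ j) < η) (fun v => isOpen_discrete _)
    (fun j => (isOpen_lt (continuous_dd' continuous_id continuous_const)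
      continuous_const).measurableSet)
  refine ⟨min δ1 δ2, fr, nu, lt_min hδ1 hδ2, hfr, hnu, fun s u s' hs hs' hu => ?_⟩
  obtain ⟨hP, hQ⟩ := hfr' s (hA s (lt_of_lt_of_le hs (min_le_left _ _)))
  obtain ⟨hP', hQ'⟩ := hfr' s' (hA s' (lt_of_lt_of_le hs' (min_le_left _ _)))
  obtain ⟨hPu, hQu⟩ := hC s u s' (lt_of_lt_of_le hu (min_le_right _ _))
  refine hnu' _ (hB _ ?_ ?_)
  · set v := (fr s)⁻¹ * u 0 * fr s' with hv
    -- `v P0 v⁻¹ ≈ v (g'⁻¹ P' g') v⁻¹ = g⁻¹ u P' u⁻¹ g ≈ g⁻¹ P g ≈ P0`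
    have h1 : dd (v * P0) (P0 * v) = dd (v * P0 * v⁻¹) P0 := by
      rw [← dd_mul_right (v * P0) (P0 * v) v⁻¹, mul_inv_cancel_right]
    rw [h1]
    have h2 : dd (v * P0 * v⁻¹) (v * ((fr s')⁻¹ * PL s' * fr s') * v⁻¹) < ε / 3 := by
      rw [dd_mul_right, dd_mul_left, dd_comm]; exact hP'
    have h3 : v * ((fr s')⁻¹ * PL s' * fr s') * v⁻¹ =
        (fr s)⁻¹ * (u 0 * PL s' * (u 0)⁻¹) * fr s := by rw [hv]; group
    have h4 : dd ((fr s)⁻¹ * (u 0 * PL s' * (u 0)⁻¹) * fr s) ((fr s)⁻¹ * PL s * fr s) < ε / 3 := by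
      rw [dd_mul_right, dd_mul_left, dd_comm]; exact hPu
    have h5 := dd_triangle (v * P0 * v⁻¹) (v * ((fr s')⁻¹ * PL s' * fr s') * v⁻¹) P0
    have h6 := dd_triangle ((fr s)⁻¹ * (u 0 * PL s' * (u 0)⁻¹) * fr s) ((fr s)⁻¹ * PL s * fr s) P0
    rw [h3] at h2 h5
    linarith
  · set v := (fr s)⁻¹ * u 0 * fr s' with hv
    have h1 : dd (v * Q0) (Q0 * v) = dd (v * Q0 * v⁻¹) Q0 := by
      rw [← dd_mul_right (v * Q0) (Q0 * v) v⁻¹, mul_inv_cancel_right]
    rw [h1]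
    have h2 : dd (v * Q0 * v⁻¹) (v * ((fr s')⁻¹ * QL s' * fr s') * v⁻¹) < ε / 3 := by
      rw [dd_mul_right, dd_mul_left, dd_comm]; exact hQ'
    have h3 : v * ((fr s')⁻¹ * QL s' * fr s') * v⁻¹ =
        (fr s)⁻¹ * (u 0 * QL s' * (u 0)⁻¹) * fr s := by rw [hv]; group
    have h4 : dd ((fr s)⁻¹ * (u 0 * QL s' * (u 0)⁻¹) * fr s) ((fr s)⁻¹ * QL s * fr s) < ε / 3 := by
      rw [dd_mul_right, dd_mul_left, dd_comm]; exact hQu
    have h5 := dd_triangle (v * Q0 * v⁻¹) (v * ((fr s')⁻¹ * QL s' * fr s') * v⁻¹) Q0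
    have h6 := dd_triangle ((fr s)⁻¹ * (u 0 * QL s' * (u 0)⁻¹) * fr s) ((fr s)⁻¹ * QL s * fr s) Q0
    rw [h3] at h2 h5
    linarith

/-- centre valued link in direction `0` -/
def zt (fr : FC N l → SU N) (nu : SU N → ℕ) (U : Link n L l → SU N) (t : ZMod n) (x : ZMod L) : ℕ :=
  nu ((fr (fs U t x))⁻¹ * U (0, t, x, 0) * fr (fs U (t + 1) x))

/-- centre valued link in direction `1` -/
def zx (fr : FC N l → SU N) (nu : SU N → ℕ) (U : Link n L l → SU N) (t : ZMod n) (x : ZMod L) : ℕ :=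
  nu ((fr (fs U t x))⁻¹ * U (1, t, x, 0) * fr (fs U t (x + 1)))

/-- the parts of the energy of a cell -/
theorem cell_parts (hζ : IsPrimitiveRoot (om N k) N) {U : Link n L l → SU N} {t : ZMod n}
    {x : ZMod L} {δ : ℝ} (h : cell k U t x < δ) :
    VL k (fs U t x) < 4 * δ ∧ VL k (fs U (t + 1) x) < 4 * δ ∧ VL k (fs U t (x + 1)) < 4 * δ ∧
    VL k (fs U (t + 1) (x + 1)) < 4 * δ ∧
    KL (fs U t x) (fun y => U (0, t, x, y)) (fs U (t + 1) x) < 2 * δ ∧
    KL (fs U t (x + 1)) (fun y => U (0, t, x + 1, y)) (fs U (t + 1) (x + 1)) < 2 * δ ∧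
    KL (fs U t x) (fun y => U (1, t, x, y)) (fs U t (x + 1)) < 2 * δ ∧
    KL (fs U (t + 1) x) (fun y => U (1, t + 1, x, y)) (fs U (t + 1) (x + 1)) < 2 * δ ∧
    dd (U (0, t, x, 0) * U (1, t + 1, x, 0)) (U (1, t, x, 0) * U (0, t, x + 1, 0)) ^ 2 < 2 * δ := by
  unfold cell at h
  rw [Vf_eq, Vf_eq, Vf_eq, Vf_eq, K0_eq, K0_eq, K1_eq, K1_eq] at h
  have v1 := VL_nonneg hζ (fs U t x)
  have v2 := VL_nonneg hζ (fs U (t + 1) x)
  have v3 := VL_nonneg hζ (fs U t (x + 1))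
  have v4 := VL_nonneg hζ (fs U (t + 1) (x + 1))
  have k1 := KL_nonneg (fs U t x) (fun y => U (0, t, x, y)) (fs U (t + 1) x)
  have k2 := KL_nonneg (fs U t (x + 1)) (fun y => U (0, t, x + 1, y)) (fs U (t + 1) (x + 1))
  have k3 := KL_nonneg (fs U t x) (fun y => U (1, t, x, y)) (fs U t (x + 1))
  have k4 := KL_nonneg (fs U (t + 1) x) (fun y => U (1, t + 1, x, y)) (fs U (t + 1) (x + 1))
  have hW : aw 1 (U (0, t, x, 0) * U (1, t + 1, x, 0) * (U (0, t, x + 1, 0))⁻¹ *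
      (U (1, t, x, 0))⁻¹) ≤ Wf U t x := by
    unfold Wf
    exact Finset.single_le_sum (f := fun y : Fib l => aw 1 (U (0, t, x, y) * U (1, t + 1, x, y) *
      (U (0, t, x + 1, y))⁻¹ * (U (1, t, x, y))⁻¹)) (fun y _ => aw_one_nonneg _)
      (Finset.mem_univ (0 : Fib l))
  have w0 := aw_one_nonneg (U (0, t, x, 0) * U (1, t + 1, x, 0) * (U (0, t, x + 1, 0))⁻¹ *
      (U (1, t, x, 0))⁻¹)
  have hWd : aw 1 (U (0, t, x, 0) * U (1, t + 1, x, 0) * (U (0, t, x + 1, 0))⁻¹ *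
      (U (1, t, x, 0))⁻¹) = dd (U (0, t, x, 0) * U (1, t + 1, x, 0))
        (U (1, t, x, 0) * U (0, t, x + 1, 0)) ^ 2 / 2 := by
    rw [aw_one_eq]
    congr 2
    have e := dd_mul_right (U (0, t, x, 0) * U (1, t + 1, x, 0))
      (U (1, t, x, 0) * U (0, t, x + 1, 0)) ((U (0, t, x + 1, 0))⁻¹ * (U (1, t, x, 0))⁻¹)
    rw [← e]
    congr 1
    · group
    · group
  rw [hWd] at hW w0
  refine ⟨by linarith, by linarith, by linarith, by linarith, by linarith, by linarith,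
    by linarith, by linarith, by linarith⟩

/-- The frames and the centre valued links. -/
theorem fat_cell {η : ℝ} (hη : 0 < η) :
    ∃ (δ : ℝ) (fr : FC N l → SU N) (nu : SU N → ℕ), 0 < δ ∧ Measurable fr ∧ Measurable nu ∧
      ∀ (n L : ℕ) [NeZero n] [NeZero L] (U : Link n L l → SU N) (t : ZMod n) (x : ZMod L),
        cell k U t x < δ →
        dd ((fr (fs U t x))⁻¹ * U (0, t, x, 0) * fr (fs U (t + 1) x)) (cz hζ (zt fr nu U t x)) < η ∧
        dd ((fr (fs U t (x + 1)))⁻¹ * U (0, t, x + 1, 0) * fr (fs U (t + 1) (x + 1)))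
          (cz hζ (zt fr nu U t (x + 1))) < η ∧
        cz hζ (zt fr nu U t x) * cz hζ (zx fr nu U (t + 1) x) =
          cz hζ (zx fr nu U t x) * cz hζ (zt fr nu U t (x + 1)) := by
  obtain ⟨r, hr, hgap⟩ := exists_gap hζ
  obtain ⟨η', hη'⟩ : ∃ η' : ℝ, η' = min η (r / 6) := ⟨_, rfl⟩
  have hη'0 : 0 < η' := by rw [hη']; exact lt_min hη (by positivity)
  have hη'1 : η' ≤ η := by rw [hη']; exact min_le_left _ _
  have hη'2 : η' ≤ r / 6 := by rw [hη']; exact min_le_right _ _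
  obtain ⟨δ, fr, nu, hδ, hfr, hnu, hbond⟩ := good_bond (l := l) hζ hη'0
  refine ⟨min (δ / 4) (η' ^ 2 / 2), fr, nu, lt_min (by positivity) (by positivity), hfr, hnu, ?_⟩
  intro n L _ _ U t x hc
  obtain ⟨v1, v2, v3, v4, k1, k2, k3, k4, w⟩ := cell_parts hζ hc
  have d1 : min (δ / 4) (η' ^ 2 / 2) ≤ δ / 4 := min_le_left _ _
  have d2 : min (δ / 4) (η' ^ 2 / 2) ≤ η' ^ 2 / 2 := min_le_right _ _
  have b1 := hbond _ _ _ (by linarith) (by linarith) (lt_of_lt_of_le k1 (by linarith))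
  have b2 := hbond _ _ _ (by linarith) (by linarith) (lt_of_lt_of_le k2 (by linarith))
  have b3 := hbond _ _ _ (by linarith) (by linarith) (lt_of_lt_of_le k3 (by linarith))
  have b4 := hbond _ _ _ (by linarith) (by linarith) (lt_of_lt_of_le k4 (by linarith))
  have w' : dd (U (0, t, x, 0) * U (1, t + 1, x, 0)) (U (1, t, x, 0) * U (0, t, x + 1, 0)) < η' := by
    refine lt_of_pow_lt_pow_left₀ 2 hη'0.le ?_
    linarith
  refine ⟨lt_of_lt_of_le b1 hη'1, lt_of_lt_of_le b2 hη'1, ?_⟩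
  -- the plaquette of centre elements
  set g00 := fr (fs U t x) with hg00
  set g10 := fr (fs U (t + 1) x) with hg10
  set g01 := fr (fs U t (x + 1)) with hg01
  set g11 := fr (fs U (t + 1) (x + 1)) with hg11
  have b1' : dd (g00⁻¹ * U (0, t, x, 0) * g10) (cz hζ (zt fr nu U t x)) < η' := b1
  have b2' : dd (g01⁻¹ * U (0, t, x + 1, 0) * g11) (cz hζ (zt fr nu U t (x + 1))) < η' := b2
  have b3' : dd (g00⁻¹ * U (1, t, x, 0) * g01) (cz hζ (zx fr nu U t x)) < η' := b3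
  have b4' : dd (g10⁻¹ * U (1, t + 1, x, 0) * g11) (cz hζ (zx fr nu U (t + 1) x)) < η' := b4
  have e1 := dd_mul_mul (g00⁻¹ * U (0, t, x, 0) * g10) (g10⁻¹ * U (1, t + 1, x, 0) * g11)
    (cz hζ (zt fr nu U t x)) (cz hζ (zx fr nu U (t + 1) x))
  have e2 := dd_mul_mul (g00⁻¹ * U (1, t, x, 0) * g01) (g01⁻¹ * U (0, t, x + 1, 0) * g11)
    (cz hζ (zx fr nu U t x)) (cz hζ (zt fr nu U t (x + 1)))
  have e3 : g00⁻¹ * U (0, t, x, 0) * g10 * (g10⁻¹ * U (1, t + 1, x, 0) * g11) =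
      g00⁻¹ * (U (0, t, x, 0) * U (1, t + 1, x, 0)) * g11 := by group
  have e4 : g00⁻¹ * U (1, t, x, 0) * g01 * (g01⁻¹ * U (0, t, x + 1, 0) * g11) =
      g00⁻¹ * (U (1, t, x, 0) * U (0, t, x + 1, 0)) * g11 := by group
  rw [e3] at e1
  rw [e4] at e2
  have e5 : dd (g00⁻¹ * (U (0, t, x, 0) * U (1, t + 1, x, 0)) * g11)
      (g00⁻¹ * (U (1, t, x, 0) * U (0, t, x + 1, 0)) * g11) < η' := by
    rw [dd_mul_right, dd_mul_left]; exact w'
  rw [← cz_add, ← cz_add]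
  rw [← cz_add] at e1 e2
  apply hgap
  have t1 := dd_triangle (cz hζ (zt fr nu U t x + zx fr nu U (t + 1) x))
    (g00⁻¹ * (U (0, t, x, 0) * U (1, t + 1, x, 0)) * g11)
    (cz hζ (zx fr nu U t x + zt fr nu U t (x + 1)))
  have t2 := dd_triangle (g00⁻¹ * (U (0, t, x, 0) * U (1, t + 1, x, 0)) * g11)
    (g00⁻¹ * (U (1, t, x, 0) * U (0, t, x + 1, 0)) * g11)
    (cz hζ (zx fr nu U t x + zt fr nu U t (x + 1)))
  have t3 := dd_comm (cz hζ (zt fr nu U t x + zx fr nu U (t + 1) x))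
    (g00⁻¹ * (U (0, t, x, 0) * U (1, t + 1, x, 0)) * g11)
  linarith

end

end

end Run7.h4.YM
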