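import Mathlib
import Pool.Agent.Run7.h4.YM.Bad
import Pool.Agent.Run7.h4.YM.Fat

/-!
# Lower bound for the partition function, probability of bad cells
-/

open Matrix MeasureTheory

namespace Run7.h4.YM

set_option linter.unusedSectionVars false

noncomputable section

variable {N n L l : ℕ} [NeZero N] [NeZero n] [NeZero L] [NeZero l] {k : ℕ}
  (hζ : IsPrimitiveRoot (om N k) N)

/-- the vacuum -/
def vac (P0 Q0 : SU N) : Link n L l → SU N := fun e =>
  if e.1 = 2 ∧ e.2.2.2.1 = 0 then P0 else if e.1 = 3 ∧ e.2.2.2.2 = 0 then Q0 else 1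

theorem near_four {a b c d a' b' c' d' z : SU N}
    (h : z * (a' * b' * c'⁻¹ * d'⁻¹) = 1) {η : ℝ}
    (ha : dd a a' < η) (hb : dd b b' < η) (hc : dd c c' < η) (hd : dd d d' < η) :
    aw 1 (z * (a * b * c⁻¹ * d⁻¹)) ≤ 8 * η ^ 2 := by
  have hη : 0 < η := lt_of_le_of_lt (dd_nonneg _ _) ha
  have h1 := dd_mul_mul (a * b * c⁻¹) d⁻¹ (a' * b' * c'⁻¹) d'⁻¹
  have h2 := dd_mul_mul (a * b) c⁻¹ (a' * b') c'⁻¹
  have h3 := dd_mul_mul a b a' b'
  rw [dd_inv] at h1 h2
  have h4 : dd (z * (a * b * c⁻¹ * d⁻¹)) 1 ≤ 4 * η := by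
    rw [← h, dd_mul_left]
    linarith
  rw [aw_one_eq]
  have h5 := dd_nonneg (z * (a * b * c⁻¹ * d⁻¹)) 1
  nlinarith

include hζ in
theorem vac_cell {P0 Q0 : SU N} (hPQ : (Q0 * P0).1 = om N k • (P0 * Q0).1)
    {U : Link n L l → SU N} {η : ℝ} (hU : ∀ e, dd (U e) (vac P0 Q0 e) < η) (t : ZMod n)
    (x : ZMod L) : cell k U t x ≤ 48 * (l : ℝ) ^ 2 * η ^ 2 := by
  have h0 : ∀ t x y, (vac P0 Q0 : Link n L l → SU N) (0, t, x, y) = 1 := fun t x y => by
    simp [vac]
  have h1 : ∀ t x y, (vac P0 Q0 : Link n L l → SU N) (1, t, x, y) = 1 := fun t x y => by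
    simp [vac]
  have h2 : ∀ t x y, (vac P0 Q0 : Link n L l → SU N) (2, t, x, y) = if y.1 = 0 then P0 else 1 :=
    fun t x y => by simp [vac]
  have h3 : ∀ t x y, (vac P0 Q0 : Link n L l → SU N) (3, t, x, y) = if y.2 = 0 then Q0 else 1 :=
    fun t x y => by simp [vac]
  have hcz : cz hζ 1 * (P0 * Q0) = Q0 * P0 := by
    apply Subtype.ext
    rw [hPQ, coe_mul' (cz hζ 1), cz_val, pow_one, smul_mul_assoc, one_mul]
  have hcard : (Finset.univ : Finset (Fib l)).card = l ^ 2 := by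
    simp [ZMod.card]; ring
  -- plaquettes of the fibre
  have hV : ∀ t x, Vf k U t x ≤ (l : ℝ) ^ 2 * (8 * η ^ 2) := by
    intro t x
    unfold Vf
    refine (Finset.sum_le_card_nsmul _ _ (8 * η ^ 2) fun y _ => ?_).trans (le_of_eq ?_)
    · rw [aw_twf hζ]
      refine near_four ?_ (hU _) (hU _) (hU _) (hU _)
      rw [h2, h2, h3, h3]
      obtain ⟨a, b⟩ := y
      simp only [Prod.fst_add, Prod.snd_add, add_zero]
      unfold tz
      by_cases ha : a = 0
      · by_cases hb : b = 0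
        · subst ha; subst hb
          simp only [if_true, Prod.mk_zero_zero]
          rw [← mul_assoc, ← mul_assoc, hcz]
          group
        · simp [ha, hb]
      · by_cases hb : b = 0
        · simp [ha, hb]
        · simp [ha, hb]
    · rw [hcard, nsmul_eq_mul]; push_cast; ring
  have hK0 : ∀ t x, K0 U t x ≤ (l : ℝ) ^ 2 * (16 * η ^ 2) := by
    intro t x
    unfold K0
    refine (Finset.sum_le_card_nsmul _ _ (16 * η ^ 2) fun y _ => ?_).trans (le_of_eq ?_)
    · have e1 := near_four (z := 1) (a' := vac P0 Q0 (0, t, x, y))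
        (b' := vac P0 Q0 (2, t + 1, x, y)) (c' := vac P0 Q0 (0, t, x, y + (1, 0)))
        (d' := vac P0 Q0 (2, t, x, y)) (by rw [h0, h0, h2, h2]; simp) (hU _) (hU _) (hU _) (hU _)
      have e2 := near_four (z := 1) (a' := vac P0 Q0 (0, t, x, y))
        (b' := vac P0 Q0 (3, t + 1, x, y)) (c' := vac P0 Q0 (0, t, x, y + (0, 1)))
        (d' := vac P0 Q0 (3, t, x, y)) (by rw [h0, h0, h3, h3]; simp) (hU _) (hU _) (hU _) (hU _)
      rw [one_mul] at e1 e2
      linarith
    · rw [hcard, nsmul_eq_mul]; push_cast; ring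
  have hK1 : ∀ t x, K1 U t x ≤ (l : ℝ) ^ 2 * (16 * η ^ 2) := by
    intro t x
    unfold K1
    refine (Finset.sum_le_card_nsmul _ _ (16 * η ^ 2) fun y _ => ?_).trans (le_of_eq ?_)
    · have e1 := near_four (z := 1) (a' := vac P0 Q0 (1, t, x, y))
        (b' := vac P0 Q0 (2, t, x + 1, y)) (c' := vac P0 Q0 (1, t, x, y + (1, 0)))
        (d' := vac P0 Q0 (2, t, x, y)) (by rw [h1, h1, h2, h2]; simp) (hU _) (hU _) (hU _) (hU _)
      have e2 := near_four (z := 1) (a' := vac P0 Q0 (1, t, x, y))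
        (b' := vac P0 Q0 (3, t, x + 1, y)) (c' := vac P0 Q0 (1, t, x, y + (0, 1)))
        (d' := vac P0 Q0 (3, t, x, y)) (by rw [h1, h1, h3, h3]; simp) (hU _) (hU _) (hU _) (hU _)
      rw [one_mul] at e1 e2
      linarith
    · rw [hcard, nsmul_eq_mul]; push_cast; ring
  have hW : Wf U t x ≤ (l : ℝ) ^ 2 * (8 * η ^ 2) := by
    unfold Wf
    refine (Finset.sum_le_card_nsmul _ _ (8 * η ^ 2) fun y _ => ?_).trans (le_of_eq ?_)
    · have e1 := near_four (z := 1) (a' := vac P0 Q0 (0, t, x, y))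
        (b' := vac P0 Q0 (1, t + 1, x, y)) (c' := vac P0 Q0 (0, t, x + 1, y))
        (d' := vac P0 Q0 (1, t, x, y)) (by rw [h0, h0, h1, h1]; simp) (hU _) (hU _) (hU _) (hU _)
      rw [one_mul] at e1
      exact e1
    · rw [hcard, nsmul_eq_mul]; push_cast; ring
  unfold cell
  have v1 := hV t x
  have v2 := hV (t + 1) x
  have v3 := hV t (x + 1)
  have v4 := hV (t + 1) (x + 1)
  have k1 := hK0 t x
  have k2 := hK0 t (x + 1)
  have k3 := hK1 t x
  have k4 := hK1 (t + 1) x
  linarith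

variable [MeasurableSpace (SU N)] [BorelSpace (SU N)] (μ : Measure (SU N)) [IsProbabilityMeasure μ]
  [μ.IsHaarMeasure]

/-- measure of a small ball -/
def ball (μ : Measure (SU N)) (η : ℝ) : ℝ := μ.real {g : SU N | dd g 1 < η}

theorem ball_pos {η : ℝ} (hη : 0 < η) : 0 < ball μ η := by
  have ho : IsOpen {g : SU N | dd g 1 < η} :=
    isOpen_lt (continuous_dd' continuous_id continuous_const) continuous_const
  have h1 : 0 < μ {g : SU N | dd g 1 < η} :=
    ho.measure_pos μ ⟨1, by show dd 1 1 < η; rw [dd_self]; exact hη⟩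
  exact ENNReal.toReal_pos h1.ne' (measure_ne_top _ _)

theorem ball_eq (η : ℝ) (h : SU N) : μ.real {g : SU N | dd g h < η} = ball μ η := by
  have e : {g : SU N | dd g h < η} = (fun g => h⁻¹ * g) ⁻¹' {g : SU N | dd g 1 < η} := by
    ext g
    simp only [Set.mem_ofPred_eq, Set.mem_preimage]
    have : dd (h⁻¹ * g) 1 = dd g h := by
      have h1 := dd_mul_left g h h⁻¹
      rw [inv_mul_cancel] at h1
      exact h1
    rw [this]
  unfold ball Measure.real
  rw [e, measure_preimage_mul]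

include hζ in
/-- lower bound for the partition function -/
theorem ZZ_lower {m m' : ℕ} [NeZero m] [NeZero m'] {η β : ℝ} (hβ : 0 ≤ β) :
    (ball μ η ^ (4 * l ^ 2) * Real.exp (-(β * (48 * (l : ℝ) ^ 2 * η ^ 2)))) ^ (2 * m' * (2 * m)) ≤
      ZZ μ m m' l k β := by
  obtain ⟨P0, Q0, hPQ, -, -⟩ := weyl_pair hζ
  set E : Set (Cf N m m' l) := Set.univ.pi fun e => {g : SU N | dd g (vac P0 Q0 e) < η} with hE
  have hball : ∀ h : SU N, MeasurableSet {g : SU N | dd g h < η} := fun h =>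
    (isOpen_lt (continuous_dd' continuous_id continuous_const) continuous_const).measurableSet
  have hEm : MeasurableSet E := MeasurableSet.univ_pi fun e => hball _
  have hPE : (Measure.pi fun _ : Link (2 * m) (2 * m') l => μ).real E =
      ball μ η ^ (4 * l ^ 2 * (2 * m' * (2 * m))) := by
    unfold Measure.real
    rw [hE, Measure.pi_pi, ENNReal.toReal_prod]
    have : ∀ e : Link (2 * m) (2 * m') l, (μ {g : SU N | dd g (vac P0 Q0 e) < η}).toReal =
        ball μ η := fun e => ball_eq μ η _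
    rw [Finset.prod_congr rfl fun e _ => this e, Finset.prod_const]
    congr 1
    rw [Finset.card_univ]
    simp only [Fintype.card_prod, Fintype.card_fin, ZMod.card]
    ring
  have hact : ∀ U ∈ E, action k U ≤ (2 * m' * (2 * m) : ℕ) * (48 * (l : ℝ) ^ 2 * η ^ 2) := by
    intro U hU
    have hU' : ∀ e, dd (U e) (vac P0 Q0 e) < η := fun e => hU e (Set.mem_univ e)
    rw [action_cell]
    have h1 : ∀ t : ZMod (2 * m), ∑ x : ZMod (2 * m'), cell k U t x ≤
        (2 * m' : ℕ) * (48 * (l : ℝ) ^ 2 * η ^ 2) := by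
      intro t
      refine (Finset.sum_le_card_nsmul _ _ _ fun x _ => vac_cell hζ hPQ hU' t x).trans
        (le_of_eq ?_)
      rw [Finset.card_univ, ZMod.card, nsmul_eq_mul]
    refine (Finset.sum_le_card_nsmul _ _ _ fun t _ => h1 t).trans (le_of_eq ?_)
    rw [Finset.card_univ, ZMod.card, nsmul_eq_mul]
    push_cast; ring
  -- restrict the integral
  have hint : Integrable (fun U : Cf N m m' l => Real.exp (-(β * action k U)))
      (Measure.pi fun _ => μ) := (bd_w k β).integrable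
  have hZ : ZZ μ m m' l k β = ∫ U : Cf N m m' l, Real.exp (-(β * action k U))
      ∂(Measure.pi fun _ => μ) := by
    unfold ZZ II
    simp only [one_mul]
  rw [hZ]
  set c : ℝ := Real.exp (-(β * ((2 * m' * (2 * m) : ℕ) * (48 * (l : ℝ) ^ 2 * η ^ 2)))) with hc
  have h1 : ∫ U in E, c ∂(Measure.pi fun _ : Link (2 * m) (2 * m') l => μ) ≤
      ∫ U in E, Real.exp (-(β * action k U)) ∂(Measure.pi fun _ => μ) := by
    refine setIntegral_mono_on (integrable_const _).integrableOn hint.integrableOn hEm ?_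
    intro U hU
    rw [hc]
    refine Real.exp_le_exp.mpr (neg_le_neg (mul_le_mul_of_nonneg_left (hact U hU) hβ))
  have h2 : ∫ U in E, Real.exp (-(β * action k U)) ∂(Measure.pi fun _ => μ) ≤
      ∫ U : Cf N m m' l, Real.exp (-(β * action k U)) ∂(Measure.pi fun _ => μ) :=
    setIntegral_le_integral hint (Filter.Eventually.of_forall fun U => (Real.exp_pos _).le)
  refine le_trans (le_of_eq ?_) (h1.trans h2)
  rw [setIntegral_const, hPE, smul_eq_mul, hc, mul_pow, ← pow_mul, ← Real.exp_nat_mul]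
  congr 2
  push_cast; ring

include hζ in
/-- bad cells have exponentially small probability -/
theorem bad_bound {δ : ℝ} (hδ : 0 < δ) : ∃ C : ℝ, 0 < C ∧ ∀ (β : ℝ), 0 ≤ β →
    ∀ (m m' : ℕ) [NeZero m] [NeZero m'] (i j : ℕ),
    II μ k β (fun U : Cf N m m' l => if δ ≤ cell k U (i : ZMod (2 * m)) (j : ZMod (2 * m'))
      then (1 : ℝ) else 0) ≤ C * Real.exp (-(β * (δ / 2))) * ZZ μ m m' l k β := by
  have hi := inv_inv' μ
  have hl : (0 : ℝ) < l := by exact_mod_cast NeZero.pos l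
  obtain ⟨η, hη⟩ : ∃ η : ℝ, η = Real.sqrt (δ / (96 * (l : ℝ) ^ 2)) := ⟨_, rfl⟩
  have hη0 : 0 < η := by rw [hη]; exact Real.sqrt_pos.mpr (by positivity)
  have hη2 : 48 * (l : ℝ) ^ 2 * η ^ 2 = δ / 2 := by
    rw [hη, Real.sq_sqrt (by positivity)]; field_simp; norm_num
  have hb := ball_pos μ hη0
  refine ⟨(ball μ η ^ (4 * l ^ 2))⁻¹, by positivity, fun β hβ m m' _ _ i j => ?_⟩
  have hZ := ZZ_pos (m := m) (m' := m') (l := l) μ k β
  have hlow := ZZ_lower (l := l) hζ μ (m := m) (m' := m') (η := η) hβ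
  have hmom := cell_moment (m := m) (m' := m') (l := l) μ k β
  rw [hη2] at hlow
  set y : ℝ := ball μ η ^ (4 * l ^ 2) * Real.exp (-(β * (δ / 2))) with hy
  have hy0 : 0 < y := by positivity
  set M := 2 * m' * (2 * m) with hM
  have hM0 : M ≠ 0 := by
    have h1 := NeZero.pos m
    have h2 := NeZero.pos m'
    positivity
  set A := II μ k β (fun U : Cf N m m' l => Real.exp (β * cell k U 0 0)) with hA
  have hA0 : 0 < A := (S0 μ m (2 * m') l k β).I_pos (((bd_cell k 0 0).smul β).exp)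
    (fun _ => Real.exp_pos _)
  have h1 : (A / ZZ μ m m' l k β) ^ M ≤ (1 / y) ^ M := by
    refine hmom.trans ?_
    rw [_root_.one_div_pow]
    exact one_div_le_one_div_of_le (by positivity) hlow
  have h2 : A / ZZ μ m m' l k β ≤ 1 / y :=
    (pow_le_pow_iff_left₀ (by positivity) (by positivity) hM0).mp h1
  -- Markov
  have hind : Measurable (fun r : ℝ => if δ ≤ r then (1 : ℝ) else 0) :=
    Measurable.ite measurableSet_Ici measurable_const measurable_const
  have hF : Bd (fun U : Cf N m m' l => if δ ≤ cell k U 0 0 then (1 : ℝ) else 0) := by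
    refine ⟨hind.comp (bd_cell k 0 0).1, 1, fun U => ?_⟩
    show |(if δ ≤ cell k U 0 0 then (1 : ℝ) else 0)| ≤ 1
    split_ifs <;> simp
  rw [II_cell μ k β (fun r => if δ ≤ r then (1 : ℝ) else 0) hF i j]
  have h3 : II μ k β (fun U : Cf N m m' l => if δ ≤ cell k U 0 0 then (1 : ℝ) else 0) ≤
      II μ k β (fun U : Cf N m m' l => Real.exp (-(β * δ)) * Real.exp (β * cell k U 0 0)) := by
    refine II_mono μ k β hF ((((bd_cell k 0 0).smul β).exp).smul _) fun U => ?_
    rw [← Real.exp_add]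
    split_ifs with h
    · refine Real.one_le_exp ?_
      nlinarith
    · exact (Real.exp_pos _).le
  rw [II_smul μ k β] at h3
  refine h3.trans ?_
  rw [div_le_iff₀ hZ] at h2
  have h4 : Real.exp (-(β * δ)) * A ≤ Real.exp (-(β * δ)) * (1 / y * ZZ μ m m' l k β) :=
    mul_le_mul_of_nonneg_left h2 (Real.exp_pos _).le
  refine h4.trans (le_of_eq ?_)
  rw [hy, one_div, mul_inv, ← Real.exp_neg, neg_neg]
  have h5 : Real.exp (-(β * (δ / 2))) = Real.exp (-(β * δ)) * Real.exp (β * (δ / 2)) := by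
    rw [← Real.exp_add]; congr 1; ring
  rw [h5]
  ring

end

end Run7.h4.YM
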