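import Mathlib
import Pool.Agent.Run7.h4.YM.Fat

/-!
# Frames with two levels of accuracy
-/

open Matrix MeasureTheory

namespace Run7.h4.YM

set_option linter.unusedSectionVars false

noncomputable section

variable {N l : ℕ} [NeZero N] [NeZero l] {k : ℕ}

/-- the transported frame almost commutes with the standard pair -/
theorem almost_comm {P0 g g' u P P' : SU N} {ε : ℝ} (h1 : dd (g⁻¹ * P * g) P0 < ε / 3)
    (h2 : dd (g'⁻¹ * P' * g') P0 < ε / 3) (h3 : dd P (u * P' * u⁻¹) < ε / 3) :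
    dd (g⁻¹ * u * g' * P0) (P0 * (g⁻¹ * u * g')) < ε := by
  set v := g⁻¹ * u * g' with hv
  have e1 : dd (v * P0) (P0 * v) = dd (v * P0 * v⁻¹) P0 := by
    rw [← dd_mul_right (v * P0) (P0 * v) v⁻¹, mul_inv_cancel_right]
  rw [e1]
  have e2 : dd (v * P0 * v⁻¹) (v * (g'⁻¹ * P' * g') * v⁻¹) < ε / 3 := by
    rw [dd_mul_right, dd_mul_left, dd_comm]; exact h2
  have e3 : v * (g'⁻¹ * P' * g') * v⁻¹ = g⁻¹ * (u * P' * u⁻¹) * g := by rw [hv]; group
  have e4 : dd (g⁻¹ * (u * P' * u⁻¹) * g) (g⁻¹ * P * g) < ε / 3 := by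
    rw [dd_mul_right, dd_mul_left, dd_comm]; exact h3
  have e5 := dd_triangle (v * P0 * v⁻¹) (v * (g'⁻¹ * P' * g') * v⁻¹) P0
  have e6 := dd_triangle (g⁻¹ * (u * P' * u⁻¹) * g) (g⁻¹ * P * g) P0
  rw [e3] at e2 e5
  linarith

variable (hζ : IsPrimitiveRoot (om N k) N) [MeasurableSpace (SU N)] [BorelSpace (SU N)]

theorem good_bond2 {η0 r : ℝ} (hη0 : 0 < η0) (hgap : ∀ i j : ℕ, dd (cz hζ i) (cz hζ j) < r →
    cz hζ i = cz hζ j) (hr : 2 * η0 ≤ r) :
    ∃ δ0 : ℝ, 0 < δ0 ∧ ∀ η : ℝ, 0 < η →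
    ∃ (δ : ℝ) (fr : FC N l → SU N) (nu : SU N → ℕ), 0 < δ ∧ Measurable fr ∧ Measurable nu ∧
      (∀ (s : FC N l) (u : Fib l → SU N) (s' : FC N l), VL k s < δ0 → VL k s' < δ0 →
        KL s u s' < δ0 →
        dd ((fr s)⁻¹ * u 0 * fr s') (cz hζ (nu ((fr s)⁻¹ * u 0 * fr s'))) < η0) ∧
      (∀ (s : FC N l) (u : Fib l → SU N) (s' : FC N l), VL k s < δ → VL k s' < δ → KL s u s' < δ →
        dd ((fr s)⁻¹ * u 0 * fr s') (cz hζ (nu ((fr s)⁻¹ * u 0 * fr s'))) < η) := by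
  obtain ⟨P0, Q0, -, hstd, hcomm⟩ := weyl_pair hζ
  obtain ⟨ε0, hε0, hB0⟩ := approxB hζ hcomm hη0
  obtain ⟨δA0, hδA0, hA0⟩ := approxA (l := l) hζ hstd (ε := ε0 / 3) (by positivity)
  obtain ⟨δC0, hδC0, hC0⟩ := approxC N l (ε := ε0 / 3) (by positivity)
  refine ⟨min δA0 δC0, lt_min hδA0 hδC0, fun η hη => ?_⟩
  obtain ⟨η', hη'⟩ : ∃ η' : ℝ, η' = min η η0 := ⟨_, rfl⟩
  have hη'0 : 0 < η' := by rw [hη']; exact lt_min hη hη0
  have hη'1 : η' ≤ η := by rw [hη']; exact min_le_left _ _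
  have hη'2 : η' ≤ η0 := by rw [hη']; exact min_le_right _ _
  obtain ⟨ε, hε, hB⟩ := approxB hζ hcomm hη'0
  obtain ⟨ε1, hε1⟩ : ∃ ε1 : ℝ, ε1 = min ε ε0 := ⟨_, rfl⟩
  have hε10 : 0 < ε1 := by rw [hε1]; exact lt_min hε hε0
  have hε11 : ε1 ≤ ε := by rw [hε1]; exact min_le_left _ _
  have hε12 : ε1 ≤ ε0 := by rw [hε1]; exact min_le_right _ _
  obtain ⟨δA, hδA, hA⟩ := approxA (l := l) hζ hstd (ε := ε1 / 3) (by positivity)
  obtain ⟨δC, hδC, hC⟩ := approxC N l (ε := ε1 / 3) (by positivity)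
  -- frames
  have hopen : ∀ (s : FC N l) (e : ℝ), IsOpen {g : SU N | dd (g⁻¹ * PL s * g) P0 < e ∧
      dd (g⁻¹ * QL s * g) Q0 < e} := fun s e => by
    refine IsOpen.inter ?_ ?_
    · exact isOpen_lt (continuous_dd' ((continuous_inv.mul continuous_const).mul continuous_id)
        continuous_const) continuous_const
    · exact isOpen_lt (continuous_dd' ((continuous_inv.mul continuous_const).mul continuous_id)
        continuous_const) continuous_const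
  have hmeas : ∀ (g : SU N) (e : ℝ), MeasurableSet {s : FC N l | dd (g⁻¹ * PL s * g) P0 < e ∧
      dd (g⁻¹ * QL s * g) Q0 < e} := fun g e => by
    refine IsOpen.measurableSet (IsOpen.inter ?_ ?_)
    · exact isOpen_lt (continuous_dd' ((continuous_const.mul cont_PL).mul continuous_const)
        continuous_const) continuous_const
    · exact isOpen_lt (continuous_dd' ((continuous_const.mul cont_QL).mul continuous_const)
        continuous_const) continuous_const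
  obtain ⟨fr, hfr, hfr'⟩ := exists_sel (α := FC N l) (Y := SU N)
    (fun s g => (dd (g⁻¹ * PL s * g) P0 < ε0 / 3 ∧ dd (g⁻¹ * QL s * g) Q0 < ε0 / 3) ∧
      (VL k s < δA → (dd (g⁻¹ * PL s * g) P0 < ε1 / 3 ∧ dd (g⁻¹ * QL s * g) Q0 < ε1 / 3)))
    (fun s => by
      refine IsOpen.inter (hopen s _) ?_
      by_cases h : VL k s < δA
      · simp only [h, true_implies]; exact hopen s _
      · simp only [h, false_implies]; exact isOpen_const)
    (fun g => by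
      refine MeasurableSet.inter (hmeas g _) ?_
      have e : {s : FC N l | VL k s < δA → (dd (g⁻¹ * PL s * g) P0 < ε1 / 3 ∧
          dd (g⁻¹ * QL s * g) Q0 < ε1 / 3)} = {s : FC N l | VL k s < δA}ᶜ ∪
          {s : FC N l | dd (g⁻¹ * PL s * g) P0 < ε1 / 3 ∧ dd (g⁻¹ * QL s * g) Q0 < ε1 / 3} := by
        ext s
        simp only [Set.mem_ofPred_eq, Set.mem_union, Set.mem_compl_iff]
        tauto
      have e' := (isOpen_lt (cont_VL (N := N) (l := l) k)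
        (continuous_const (y := δA))).measurableSet.compl.union (hmeas g (ε1 / 3))
      rw [← e] at e'
      exact e')
  obtain ⟨nu, hnu, hnu'⟩ := exists_sel (α := SU N) (Y := ℕ)
    (fun v j => dd v (cz hζ j) < η0) (fun v => isOpen_discrete _)
    (fun j => (isOpen_lt (continuous_dd' continuous_id continuous_const)
      continuous_const).measurableSet)
  have hcoarse : ∀ s : FC N l, VL k s < δA0 → dd ((fr s)⁻¹ * PL s * fr s) P0 < ε0 / 3 ∧
      dd ((fr s)⁻¹ * QL s * fr s) Q0 < ε0 / 3 := by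
    intro s hs
    refine (hfr' s ?_).1
    by_cases h : VL k s < δA
    · obtain ⟨g, h1, h2⟩ := hA s h
      exact ⟨g, ⟨by linarith, by linarith⟩, fun _ => ⟨h1, h2⟩⟩
    · obtain ⟨g, h1, h2⟩ := hA0 s hs
      exact ⟨g, ⟨h1, h2⟩, fun h' => absurd h' h⟩
  have hfine : ∀ s : FC N l, VL k s < δA → dd ((fr s)⁻¹ * PL s * fr s) P0 < ε1 / 3 ∧
      dd ((fr s)⁻¹ * QL s * fr s) Q0 < ε1 / 3 := by
    intro s h
    refine (hfr' s ?_).2 h
    obtain ⟨g, h1, h2⟩ := hA s h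
    exact ⟨g, ⟨by linarith, by linarith⟩, fun _ => ⟨h1, h2⟩⟩
  refine ⟨min δA δC, fr, nu, lt_min hδA hδC, hfr, hnu, ?_, ?_⟩
  · intro s u s' hs hs' hu
    obtain ⟨hP, hQ⟩ := hcoarse s (lt_of_lt_of_le hs (min_le_left _ _))
    obtain ⟨hP', hQ'⟩ := hcoarse s' (lt_of_lt_of_le hs' (min_le_left _ _))
    obtain ⟨hPu, hQu⟩ := hC0 s u s' (lt_of_lt_of_le hu (min_le_right _ _))
    exact hnu' _ (hB0 _ (almost_comm hP hP' hPu) (almost_comm hQ hQ' hQu))
  · intro s u s' hs hs' hu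
    obtain ⟨hP, hQ⟩ := hfine s (lt_of_lt_of_le hs (min_le_left _ _))
    obtain ⟨hP', hQ'⟩ := hfine s' (lt_of_lt_of_le hs' (min_le_left _ _))
    obtain ⟨hPu, hQu⟩ := hC s u s' (lt_of_lt_of_le hu (min_le_right _ _))
    obtain ⟨j, hj⟩ := hB _ (lt_of_lt_of_le (almost_comm hP hP' hPu) hε11)
      (lt_of_lt_of_le (almost_comm hQ hQ' hQu) hε11)
    have h1 := hnu' _ ⟨j, lt_of_lt_of_le hj hη'2⟩
    have h2 : cz hζ j = cz hζ (nu ((fr s)⁻¹ * u 0 * fr s')) := by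
      apply hgap
      have t := dd_triangle (cz hζ j) ((fr s)⁻¹ * u 0 * fr s')
        (cz hζ (nu ((fr s)⁻¹ * u 0 * fr s')))
      have t' := dd_comm (cz hζ j) ((fr s)⁻¹ * u 0 * fr s')
      linarith
    rw [← h2]
    exact lt_of_lt_of_le hj hη'1

/-- The frames and the centre valued links, with a threshold `δ0` which does not depend on the
accuracy. -/
theorem fat_cell2 :
    ∃ δ0 : ℝ, 0 < δ0 ∧ ∀ η : ℝ, 0 < η →
    ∃ (δ : ℝ) (fr : FC N l → SU N) (nu : SU N → ℕ), 0 < δ ∧ Measurable fr ∧ Measurable nu ∧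
      ∀ (n L : ℕ) [NeZero n] [NeZero L] (U : Link n L l → SU N) (t : ZMod n) (x : ZMod L),
        (cell k U t x < δ0 →
          cz hζ (zt fr nu U t x) * cz hζ (zx fr nu U (t + 1) x) =
            cz hζ (zx fr nu U t x) * cz hζ (zt fr nu U t (x + 1))) ∧
        (cell k U t x < δ →
          dd ((fr (fs U t x))⁻¹ * U (0, t, x, 0) * fr (fs U (t + 1) x)) (cz hζ (zt fr nu U t x)) < η ∧
          dd ((fr (fs U t (x + 1)))⁻¹ * U (0, t, x + 1, 0) * fr (fs U (t + 1) (x + 1)))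
            (cz hζ (zt fr nu U t (x + 1))) < η) := by
  obtain ⟨r, hr, hgap⟩ := exists_gap hζ
  obtain ⟨η0, hη0⟩ : ∃ η0 : ℝ, η0 = r / 6 := ⟨_, rfl⟩
  have hη00 : 0 < η0 := by rw [hη0]; positivity
  obtain ⟨δ1, hδ1, hgb⟩ := good_bond2 (l := l) hζ hη00 hgap (by rw [hη0]; linarith)
  refine ⟨min (δ1 / 4) (η0 ^ 2 / 2), lt_min (by positivity) (by positivity), fun η hη => ?_⟩
  obtain ⟨δ, fr, nu, hδ, hfr, hnu, hbond0, hbond⟩ := hgb η hη
  refine ⟨δ / 4, fr, nu, by positivity, hfr, hnu, fun n L _ _ U t x => ⟨fun hc => ?_, fun hc => ?_⟩⟩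
  · obtain ⟨v1, v2, v3, v4, k1, k2, k3, k4, w⟩ := cell_parts hζ hc
    have d1 : min (δ1 / 4) (η0 ^ 2 / 2) ≤ δ1 / 4 := min_le_left _ _
    have d2 : min (δ1 / 4) (η0 ^ 2 / 2) ≤ η0 ^ 2 / 2 := min_le_right _ _
    have b1 := hbond0 _ _ _ (by linarith) (by linarith) (lt_of_lt_of_le k1 (by linarith))
    have b2 := hbond0 _ _ _ (by linarith) (by linarith) (lt_of_lt_of_le k2 (by linarith))
    have b3 := hbond0 _ _ _ (by linarith) (by linarith) (lt_of_lt_of_le k3 (by linarith))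
    have b4 := hbond0 _ _ _ (by linarith) (by linarith) (lt_of_lt_of_le k4 (by linarith))
    have w' : dd (U (0, t, x, 0) * U (1, t + 1, x, 0)) (U (1, t, x, 0) * U (0, t, x + 1, 0)) < η0 := by
      refine lt_of_pow_lt_pow_left₀ 2 hη00.le ?_
      linarith
    set g00 := fr (fs U t x) with hg00
    set g10 := fr (fs U (t + 1) x) with hg10
    set g01 := fr (fs U t (x + 1)) with hg01
    set g11 := fr (fs U (t + 1) (x + 1)) with hg11
    have b1' : dd (g00⁻¹ * U (0, t, x, 0) * g10) (cz hζ (zt fr nu U t x)) < η0 := b1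
    have b2' : dd (g01⁻¹ * U (0, t, x + 1, 0) * g11) (cz hζ (zt fr nu U t (x + 1))) < η0 := b2
    have b3' : dd (g00⁻¹ * U (1, t, x, 0) * g01) (cz hζ (zx fr nu U t x)) < η0 := b3
    have b4' : dd (g10⁻¹ * U (1, t + 1, x, 0) * g11) (cz hζ (zx fr nu U (t + 1) x)) < η0 := b4
    have e1 := dd_mul_mul (g00⁻¹ * U (0, t, x, 0) * g10) (g10⁻¹ * U (1, t + 1, x, 0) * g11)
      (cz hζ (zt fr nu U t x)) (cz hζ (zx fr nu U (t + 1) x))
    have e2 := dd_mul_mul (g00⁻¹ * U (1, t, x, 0) * g01) (g01⁻¹ * U (0, t, x + 1, 0) * g11)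
      (cz hζ (zx fr nu U t x)) (cz hζ (zt fr nu U t (x + 1)))
    have e3 : g00⁻¹ * U (0, t, x, 0) * g10 * (g10⁻¹ * U (1, t + 1, x, 0) * g11) =
        g00⁻¹ * (U (0, t, x, 0) * U (1, t + 1, x, 0)) * g11 := by group
    have e4 : g00⁻¹ * U (1, t, x, 0) * g01 * (g01⁻¹ * U (0, t, x + 1, 0) * g11) =
        g00⁻¹ * (U (1, t, x, 0) * U (0, t, x + 1, 0)) * g11 := by group
    rw [e3] at e1
    rw [e4] at e2
    have e5 : dd (g00⁻¹ * (U (0, t, x, 0) * U (1, t + 1, x, 0)) * g11)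
        (g00⁻¹ * (U (1, t, x, 0) * U (0, t, x + 1, 0)) * g11) < η0 := by
      rw [dd_mul_right, dd_mul_left]; exact w'
    rw [← cz_add, ← cz_add]
    rw [← cz_add] at e1 e2
    apply hgap
    have t1 := dd_triangle (cz hζ (zt fr nu U t x + zx fr nu U (t + 1) x))
      (g00⁻¹ * (U (0, t, x, 0) * U (1, t + 1, x, 0)) * g11)
      (cz hζ (zx fr nu U t x + zt fr nu U t (x + 1)))
    have t2 := dd_triangle (g00⁻¹ * (U (0, t, x, 0) * U (1, t + 1, x, 0)) * g11)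
      (g00⁻¹ * (U (1, t, x, 0) * U (0, t, x + 1, 0)) * g11)
      (cz hζ (zx fr nu U t x + zt fr nu U t (x + 1)))
    have t3 := dd_comm (cz hζ (zt fr nu U t x + zx fr nu U (t + 1) x))
      (g00⁻¹ * (U (0, t, x, 0) * U (1, t + 1, x, 0)) * g11)
    linarith
  · obtain ⟨v1, v2, v3, v4, k1, k2, k3, k4, w⟩ := cell_parts hζ hc
    have b1 := hbond _ _ _ (by linarith) (by linarith) (lt_of_lt_of_le k1 (by linarith))
    have b2 := hbond _ _ _ (by linarith) (by linarith) (lt_of_lt_of_le k2 (by linarith))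
    exact ⟨b1, b2⟩

end

end Run7.h4.YM
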