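import Mathlib
import Pool.Agent.Run7.h4.YM.Vac

/-!
# Fat strings
-/

open Matrix MeasureTheory

namespace Run7.h4.YM

set_option linter.unusedSectionVars false

noncomputable section

/-! ### Complex families -/

section

variable {Ω : Type*} [MeasurableSpace Ω] (S : RS Ω) {κ : Type*} [Fintype κ]

/-- the form for complex families -/
def RS.B (f g : κ → Ω → ℂ) : ℝ :=
  ∫ U, (∑ c, (f c U * star (g c (S.θ U))).re) * S.w U ∂S.P

/-- admissible complex functions -/
def RS.Ok (S : RS Ω) (f : Ω → ℂ) : Prop :=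
  (Bd fun U => (f U).re) ∧ (Bd fun U => (f U).im) ∧ (S.Ad fun U => (f U).re) ∧
    S.Ad fun U => (f U).im

theorem RS.B_eq {f g : κ → Ω → ℂ} (hf : ∀ c, S.Ok (f c)) (hg : ∀ c, S.Ok (g c)) :
    S.B f g = ∑ p : κ × Bool, S.b (fun U => if p.2 then (f p.1 U).re else (f p.1 U).im)
      (fun U => if p.2 then (g p.1 U).re else (g p.1 U).im) := by
  rw [Fintype.sum_prod_type]
  have h1 : ∀ c : κ, ∑ y : Bool, S.b (fun U => if (c, y).2 then (f (c, y).1 U).re else (f (c, y).1 U).im)
      (fun U => if (c, y).2 then (g (c, y).1 U).re else (g (c, y).1 U).im) =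
      ∫ U, (f c U * star (g c (S.θ U))).re * S.w U ∂S.P := by
    intro c
    rw [Fintype.sum_bool]
    simp only [if_true, Bool.false_eq_true, if_false]
    unfold RS.b
    rw [← integral_add]
    · congr 1
      funext U
      rw [Complex.mul_re]
      simp only [RCLike.star_def, Complex.conj_re, Complex.conj_im]
      ring
    · exact (((hf c).1.mul ((hg c).1.comp S.mθ)).mul S.wbd).integrable
    · exact (((hf c).2.1.mul ((hg c).2.1.comp S.mθ)).mul S.wbd).integrable
  rw [Finset.sum_congr rfl fun c _ => h1 c]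
  unfold RS.B
  rw [← integral_finsetSum]
  · congr 1
    funext U
    rw [Finset.sum_mul]
  · intro c _
    have h2 : Bd fun U => (f c U * star (g c (S.θ U))).re := by
      have h3 := ((hf c).1.mul ((hg c).1.comp S.mθ)).add ((hf c).2.1.mul ((hg c).2.1.comp S.mθ))
      refine h3.congr fun U => ?_
      rw [Complex.mul_re]
      simp only [RCLike.star_def, Complex.conj_re, Complex.conj_im]
      ring
    exact (h2.mul S.wbd).integrable

theorem RS.csC {f g : κ → Ω → ℂ} (hf : ∀ c, S.Ok (f c)) (hg : ∀ c, S.Ok (g c)) :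
    S.B f g ^ 2 ≤ S.B f f * S.B g g := by
  rw [S.B_eq hf hg, S.B_eq hf hf, S.B_eq hg hg]
  refine S.cs Finset.univ ?_ ?_ ?_ ?_
  · rintro ⟨c, y⟩ _
    cases y
    · exact (hf c).2.1
    · exact (hf c).1
  · rintro ⟨c, y⟩ _
    cases y
    · exact (hg c).2.1
    · exact (hg c).1
  · rintro ⟨c, y⟩ _
    cases y
    · exact (hf c).2.2.2
    · exact (hf c).2.2.1
  · rintro ⟨c, y⟩ _
    cases y
    · exact (hg c).2.2.2
    · exact (hg c).2.2.1

end

variable {N : ℕ}

theorem meas_entry [MeasurableSpace (SU N)] [BorelSpace (SU N)] (i j : Fin N) :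
    Measurable fun g : SU N => g.1 i j :=
  ((continuous_apply_apply i j).comp continuous_coe).measurable

theorem re_le_one (g : SU N) (i j : Fin N) : |(g.1 i j).re| ≤ 1 :=
  (Complex.abs_re_le_norm _).trans (entry_le g i j)

theorem im_le_one (g : SU N) (i j : Fin N) : |(g.1 i j).im| ≤ 1 :=
  (Complex.abs_im_le_norm _).trans (entry_le g i j)

/-- bounded measurable complex functions -/
def BdC {Ω : Type*} [MeasurableSpace Ω] (f : Ω → ℂ) : Prop :=
  Measurable f ∧ ∃ C : ℝ, ∀ U, ‖f U‖ ≤ C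

section BdC

variable {Ω : Type*} [MeasurableSpace Ω] {f g : Ω → ℂ}

theorem BdC.re (hf : BdC f) : Bd fun U => (f U).re := by
  obtain ⟨h1, C, hC⟩ := hf
  exact ⟨Complex.measurable_re.comp h1, C, fun U => (Complex.abs_re_le_norm _).trans (hC U)⟩

theorem BdC.im (hf : BdC f) : Bd fun U => (f U).im := by
  obtain ⟨h1, C, hC⟩ := hf
  exact ⟨Complex.measurable_im.comp h1, C, fun U => (Complex.abs_im_le_norm _).trans (hC U)⟩

theorem BdC.mul (hf : BdC f) (hg : BdC g) : BdC fun U => f U * g U := by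
  obtain ⟨h1, C, hC⟩ := hf
  obtain ⟨h2, D, hD⟩ := hg
  refine ⟨h1.mul h2, |C| * |D|, fun U => ?_⟩
  rw [norm_mul]
  exact mul_le_mul ((hC U).trans (le_abs_self C)) ((hD U).trans (le_abs_self D)) (norm_nonneg _)
    (abs_nonneg _)

theorem BdC.star (hf : BdC f) : BdC fun U => Star.star (f U) := by
  obtain ⟨h1, C, hC⟩ := hf
  refine ⟨continuous_star.measurable.comp h1, C, fun U => ?_⟩
  rw [norm_star]; exact hC U

end BdC

/-- the entries of a group valued function -/
theorem BdC_entry {Ω : Type*} [MeasurableSpace Ω] [MeasurableSpace (SU N)] [BorelSpace (SU N)]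
    {F : Ω → SU N} (hF : Measurable F) (i j : Fin N) : BdC fun U => (F U).1 i j :=
  ⟨(meas_entry i j).comp hF, 1, fun U => entry_le (F U) i j⟩

theorem BdC_trace {Ω : Type*} [MeasurableSpace Ω] [MeasurableSpace (SU N)] [BorelSpace (SU N)]
    {F : Ω → SU N} (hF : Measurable F) : BdC fun U => trace (F U).1 := by
  refine ⟨continuous_tr.measurable.comp hF, N, fun U => ?_⟩
  unfold Matrix.trace
  refine (norm_sum_le _ _).trans ?_
  refine (Finset.sum_le_card_nsmul _ _ 1 fun i _ => entry_le (F U) i i).trans (le_of_eq ?_)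
  simp

/-! ### Geometry of strings -/

section str

variable {n L l : ℕ} [NeZero N] [NeZero n] [NeZero L] [NeZero l] {k : ℕ}
  (hζ : IsPrimitiveRoot (om N k) N) (fr : FC N l → SU N) (nu : SU N → ℕ)

/-- vertical product -/
def Up (U : Link n L l → SU N) (t : ZMod n) (x : ZMod L) (j : ℕ) : SU N :=
  hp (fun i => U (0, t + (i : ZMod n), x, 0)) j

/-- centre charge of a horizontal string -/
def zs (U : Link n L l → SU N) (t : ZMod n) (x : ZMod L) (R : ℕ) : ℕ :=
  ∑ j ∈ Finset.range R, zx fr nu U t (x + (j : ZMod L))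

/-- fat string -/
def Psi (U : Link n L l → SU N) (t : ZMod n) (x : ZMod L) (R : ℕ) : SU N :=
  fr (fs U t x) * cz hζ (zs fr nu U t x R) * (fr (fs U t (x + (R : ZMod L))))⁻¹

/-- three sides of a rectangle, the top one fat -/
def Fo (U : Link n L l → SU N) (R : ℕ) (j : ℕ) : SU N :=
  Up U 0 0 j * Psi hζ fr nu U (j : ZMod n) 0 R * (Up U 0 (R : ZMod L) j)⁻¹

/-- rectangle with two fat sides -/
def Lp (U : Link n L l → SU N) (R : ℕ) (t : ZMod n) (j : ℕ) : SU N :=
  Up U t 0 j * Psi hζ fr nu U (t + (j : ZMod n)) 0 R * (Up U t (R : ZMod L) j)⁻¹ *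
    (Psi hζ fr nu U t 0 R)⁻¹

theorem Up_add (U : Link n L l → SU N) (t : ZMod n) (x : ZMod L) (i j : ℕ) :
    Up U t x (i + j) = Up U t x i * Up U (t + (i : ZMod n)) x j := by
  unfold Up
  rw [hp_add]
  congr 2
  funext r
  push_cast
  rw [add_assoc]

theorem Up_T0 (U : Link n L l → SU N) (t : ZMod n) (x : ZMod L) (j : ℕ) :
    Up (T0 U) t x j = Up U (t + 1) x j := by
  unfold Up T0
  congr 1
  funext r
  show U (0, t + r + 1, x, 0) = U (0, t + 1 + r, x, 0)
  rw [add_right_comm]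

theorem Lp_T0 (U : Link n L l → SU N) (R : ℕ) (t : ZMod n) (j : ℕ) :
    Lp hζ fr nu (T0 U) R t j = Lp hζ fr nu U R (t + 1) j := by
  unfold Lp
  rw [Up_T0, Up_T0]
  have h : ∀ s : ZMod n, Psi hζ fr nu (T0 U) s 0 R = Psi hζ fr nu U (s + 1) 0 R := fun s => rfl
  rw [h, h, add_right_comm]

theorem Lp_zero (U : Link n L l → SU N) (R : ℕ) (t : ZMod n) : Lp hζ fr nu U R t 0 = 1 := by
  unfold Lp Up
  simp

end str

section refl

variable {L l m : ℕ} [NeZero N] [NeZero m] [NeZero L] [NeZero l] {k : ℕ}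
  (hζ : IsPrimitiveRoot (om N k) N) (fr : FC N l → SU N) (nu : SU N → ℕ)

theorem Up_r0 (U : Link (2 * m) L l → SU N) (x : ZMod L) (j : ℕ) :
    Up ((r0 m L l).θ U) 0 x j = (Up U (-(j : ZMod (2 * m))) x j)⁻¹ := by
  unfold Up
  rw [hp_inv]
  refine hp_congr fun i hi => ?_
  rw [r0_0]
  congr 2
  have : ((j - 1 - i : ℕ) : ZMod (2 * m)) = (j : ZMod (2 * m)) - 1 - i := by
    rw [Nat.cast_sub (by omega), Nat.cast_sub (by omega)]
    simp
  rw [this]
  ring_nf

theorem fs_r0 (U : Link (2 * m) L l → SU N) (t : ZMod (2 * m)) (x : ZMod L) :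
    fs ((r0 m L l).θ U) t x = fs U (-t) x := by
  unfold fs
  simp only [r0_2, r0_3]

theorem zs_r0 (U : Link (2 * m) L l → SU N) (t : ZMod (2 * m)) (x : ZMod L) (R : ℕ) :
    zs fr nu ((r0 m L l).θ U) t x R = zs fr nu U (-t) x R := by
  unfold zs zx
  simp only [fs_r0, r0_1]

theorem Psi_r0 (U : Link (2 * m) L l → SU N) (t : ZMod (2 * m)) (x : ZMod L) (R : ℕ) :
    Psi hζ fr nu ((r0 m L l).θ U) t x R = Psi hζ fr nu U (-t) x R := by
  unfold Psi
  simp only [fs_r0, zs_r0]

/-- gluing two half rectangles -/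
theorem glue (U : Link (2 * m) L l → SU N) (R i j : ℕ) :
    trace (Fo hζ fr nu U R i * (Fo hζ fr nu ((r0 m L l).θ U) R j)⁻¹).1 =
      trace (Lp hζ fr nu U R (-(j : ZMod (2 * m))) (j + i)).1 := by
  unfold Fo Lp
  rw [Up_r0, Up_r0, Psi_r0, Up_add, Up_add]
  have e1 : -(j : ZMod (2 * m)) + (j : ZMod (2 * m)) = 0 := by ring
  have e2 : -(j : ZMod (2 * m)) + ((j + i : ℕ) : ZMod (2 * m)) = (i : ZMod (2 * m)) := by
    push_cast; ring
  rw [e1, e2]
  set a := Up U 0 0 i
  set b := Psi hζ fr nu U (i : ZMod (2 * m)) 0 R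
  set c := Up U 0 (R : ZMod L) i
  set a' := Up U (-(j : ZMod (2 * m))) 0 j
  set b' := Psi hζ fr nu U (-(j : ZMod (2 * m))) 0 R
  set c' := Up U (-(j : ZMod (2 * m))) (R : ZMod L) j
  have e3 : a * b * c⁻¹ * (a'⁻¹ * b' * c'⁻¹⁻¹)⁻¹ = (a * b * c⁻¹ * c'⁻¹ * b'⁻¹) * a' := by group
  have e4 : a' * a * b * (c' * c)⁻¹ * b'⁻¹ = a' * (a * b * c⁻¹ * c'⁻¹ * b'⁻¹) := by group
  rw [e3, e4, tr_cyc]

theorem mm_eq : (m : ZMod (2 * m)) = -(m : ZMod (2 * m)) := by
  have h0 : ((2 * m : ℕ) : ZMod (2 * m)) = 0 := ZMod.natCast_self _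
  push_cast at h0
  linear_combination h0

/-- the Polyakov loop -/
theorem line_eq (U : Link (2 * m) L l → SU N) (x : ZMod L) :
    line U x = Up U 0 x m * (Up ((r0 m L l).θ U) 0 x m)⁻¹ := by
  rw [Up_r0, inv_inv, ← mm_eq]
  have h := Up_add U 0 x m m
  rw [zero_add] at h
  rw [← h]
  unfold line Up hp
  simp only [zero_add]
  rw [← two_mul]
  rfl

end refl

section dep

variable {L l m : ℕ} [NeZero N] [NeZero m] [NeZero L] [NeZero l] {k : ℕ}
  (hζ : IsPrimitiveRoot (om N k) N) (fr : FC N l → SU N) (nu : SU N → ℕ)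

theorem Up_dep {U V : Link (2 * m) L l → SU N} (h : ∀ e ∈ (r0 m L l).D, U e = V e) {j : ℕ}
    (hj : j ≤ m) (x : ZMod L) : Up U 0 x j = Up V 0 x j := by
  unfold Up
  refine hp_congr fun i hi => ?_
  rw [zero_add]
  exact h _ (mem_D0 (by omega) x 0)

theorem Psi_dep {U V : Link (2 * m) L l → SU N} (h : ∀ e ∈ (r0 m L l).D, U e = V e) {j : ℕ}
    (hj : j ≤ m) (x : ZMod L) (R : ℕ) :
    Psi hζ fr nu U (j : ZMod (2 * m)) x R = Psi hζ fr nu V (j : ZMod (2 * m)) x R := by
  have h1 : ∀ x, fs U (j : ZMod (2 * m)) x = fs V (j : ZMod (2 * m)) x := by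
    intro x
    unfold fs
    refine Prod.ext ?_ ?_
    · funext y; exact h _ (mem_D0' hj (by decide) x y)
    · funext y; exact h _ (mem_D0' hj (by decide) x y)
  have h2 : ∀ x, U (1, (j : ZMod (2 * m)), x, 0) = V (1, (j : ZMod (2 * m)), x, 0) :=
    fun x => h _ (mem_D0' hj (by decide) x 0)
  unfold Psi zs zx
  simp only [h1, h2]

theorem Fo_dep {U V : Link (2 * m) L l → SU N} (h : ∀ e ∈ (r0 m L l).D, U e = V e) {j : ℕ}
    (hj : j ≤ m) (R : ℕ) : Fo hζ fr nu U R j = Fo hζ fr nu V R j := by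
  unfold Fo
  rw [Up_dep h hj, Up_dep h hj, Psi_dep hζ fr nu h hj]

end dep

section meas

variable {n L l : ℕ} [NeZero N] [NeZero n] [NeZero L] [NeZero l] {k : ℕ}
  (hζ : IsPrimitiveRoot (om N k) N) {fr : FC N l → SU N} {nu : SU N → ℕ}
  [MeasurableSpace (SU N)] [BorelSpace (SU N)] (hfr : Measurable fr) (hnu : Measurable nu)

theorem meas_Up (t : ZMod n) (x : ZMod L) (j : ℕ) :
    Measurable fun U : Link n L l → SU N => Up U t x j := by
  unfold Up
  have h : Continuous fun U : Link n L l → SU N => hp (fun i => U (0, t + (i : ZMod n), x, 0)) j :=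
    continuous_hp fun i => continuous_apply _
  exact h.measurable

theorem meas_fs (t : ZMod n) (x : ZMod L) :
    Measurable fun U : Link n L l → SU N => fs U t x := by
  unfold fs
  refine Measurable.prodMk ?_ ?_
  · exact measurable_pi_lambda _ fun y => measurable_pi_apply _
  · exact measurable_pi_lambda _ fun y => measurable_pi_apply _

include hfr hnu

theorem meas_zx (t : ZMod n) (x : ZMod L) :
    Measurable fun U : Link n L l → SU N => zx fr nu U t x := by
  unfold zx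
  exact hnu.comp (((hfr.comp (meas_fs t x)).inv.mul (measurable_pi_apply _)).mul
    (hfr.comp (meas_fs _ _)))

theorem meas_zs (t : ZMod n) (x : ZMod L) (R : ℕ) :
    Measurable fun U : Link n L l → SU N => zs fr nu U t x R := by
  unfold zs
  exact Finset.measurable_fun_sum _ fun j _ => meas_zx hfr hnu _ _

theorem meas_Psi (t : ZMod n) (x : ZMod L) (R : ℕ) :
    Measurable fun U : Link n L l → SU N => Psi hζ fr nu U t x R := by
  unfold Psi
  exact ((hfr.comp (meas_fs t x)).mul ((measurable_from_nat (f := cz hζ)).comp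
    (meas_zs hfr hnu t x R))).mul (hfr.comp (meas_fs _ _)).inv

theorem meas_Fo (R j : ℕ) : Measurable fun U : Link n L l → SU N => Fo hζ fr nu U R j := by
  unfold Fo
  exact ((meas_Up _ _ _).mul (meas_Psi hζ hfr hnu _ _ _)).mul (meas_Up _ _ _).inv

theorem meas_Lp (R : ℕ) (t : ZMod n) (j : ℕ) :
    Measurable fun U : Link n L l → SU N => Lp hζ fr nu U R t j := by
  unfold Lp
  exact (((meas_Up _ _ _).mul (meas_Psi hζ hfr hnu _ _ _)).mul (meas_Up _ _ _).inv).mul
    (meas_Psi hζ hfr hnu _ _ _).inv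

end meas

end

end Run7.h4.YM
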