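import Mathlib
import Pool.Agent.Run7.h4.YM.Str

/-!
# Reflection positivity and fat strings
-/

open Matrix MeasureTheory

namespace Run7.h4.YM

set_option linter.unusedSectionVars false

noncomputable section

variable {N l m m' : ℕ} [NeZero N] [NeZero l] [NeZero m] [NeZero m'] {k : ℕ}
  (hζ : IsPrimitiveRoot (om N k) N) {fr : FC N l → SU N} {nu : SU N → ℕ}
  [MeasurableSpace (SU N)] [BorelSpace (SU N)] (hfr : Measurable fr) (hnu : Measurable nu)
  (μ : Measure (SU N)) [IsProbabilityMeasure μ] [μ.IsInvInvariant]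

theorem tr_mul_inv' (a b : SU N) : trace (a * b⁻¹).1 = ∑ i, ∑ j, a.1 i j * star (b.1 i j) := by
  rw [coe_mul', coe_inv', Matrix.trace]
  simp only [Matrix.diag, Matrix.mul_apply, star_eq_conjTranspose, conjTranspose_apply]

theorem entry3 (a ψ r : SU N) (i j : Fin N) :
    (a * ψ * r⁻¹).1 i j = ∑ p, ∑ q, a.1 i p * ψ.1 p q * star (r.1 j q) := by
  rw [coe_mul', coe_mul', coe_inv', Matrix.mul_apply]
  simp only [Matrix.mul_apply, star_eq_conjTranspose, conjTranspose_apply, Finset.sum_mul]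
  rw [Finset.sum_comm]

/-- the correlation of a rectangle with two fat sides -/
def ph (fr : FC N l → SU N) (nu : SU N → ℕ) (m m' : ℕ) [NeZero m] [NeZero m'] (β : ℝ) (R j : ℕ) :
    ℝ :=
  II μ k β (fun U : Cf N m m' l => (trace (Lp hζ fr nu U R 0 j).1).re)

/-- the entries of the three sided string -/
def Fe (fr : FC N l → SU N) (nu : SU N → ℕ) (R i : ℕ) (p : Fin N × Fin N) (U : Cf N m m' l) : ℂ :=
  (Fo hζ fr nu U R i).1 p.1 p.2

include hfr hnu in
theorem ok_entry (β : ℝ) {F : Cf N m m' l → SU N} (hF : Measurable F)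
    (hd : ∀ U V, (∀ e ∈ (r0 m (2 * m') l).D, U e = V e) → F U = F V) (i j : Fin N) :
    (S0 μ m (2 * m') l k β).Ok (fun U => (F U).1 i j) := by
  refine ⟨(BdC_entry hF i j).re, (BdC_entry hF i j).im, ?_, ?_⟩
  · intro U V h
    show ((F U).1 i j).re = ((F V).1 i j).re
    rw [hd U V h]
  · intro U V h
    show ((F U).1 i j).im = ((F V).1 i j).im
    rw [hd U V h]

include hfr hnu in
theorem ok_Fe (β : ℝ) (R : ℕ) {i : ℕ} (hi : i ≤ m) (p : Fin N × Fin N) :
    (S0 μ m (2 * m') l k β).Ok (Fe hζ fr nu R i p) :=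
  ok_entry hfr hnu μ β (meas_Fo hζ hfr hnu R i) (fun _ _ h => Fo_dep hζ fr nu h hi R) p.1 p.2

include hfr hnu in
theorem bd_Lp (R : ℕ) (t : ZMod (2 * m)) (j : ℕ) :
    Bd fun U : Cf N m m' l => (trace (Lp hζ fr nu U R t j).1).re :=
  (BdC_trace (meas_Lp hζ hfr hnu R t j)).re

include hfr hnu in
theorem ph_shift (β : ℝ) (R j r : ℕ) :
    II μ k β (fun U : Cf N m m' l => (trace (Lp hζ fr nu U R (-(j : ZMod (2 * m))) r).1).re) =
      ph hζ μ fr nu m m' β R r := by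
  have h1 : ∀ (i : ℕ), II μ k β (fun U : Cf N m m' l =>
      (trace (Lp hζ fr nu U R (-(j : ZMod (2 * m)) + i) r).1).re) =
      II μ k β (fun U : Cf N m m' l => (trace (Lp hζ fr nu U R (-(j : ZMod (2 * m))) r).1).re) := by
    intro i
    induction i with
    | zero => simp
    | succ i ih =>
      rw [← ih]
      have h2 := II_T0 μ k β (bd_Lp (m := m) (m' := m') hζ hfr hnu R (-(j : ZMod (2 * m)) + i) r)
      rw [← h2]
      simp only [Lp_T0]
      push_cast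
      simp only [add_assoc]
  rw [← h1 j]
  unfold ph
  rw [neg_add_cancel]

include hfr hnu in
theorem ph_form (β : ℝ) (R i j : ℕ) :
    (S0 μ m (2 * m') l k β).B (Fe hζ fr nu R i) (Fe hζ fr nu R j) =
      ph hζ μ fr nu m m' β R (j + i) := by
  rw [← ph_shift hζ hfr hnu μ β R j (j + i)]
  unfold RS.B II
  have h : ∀ U : Cf N m m' l, (∑ c : Fin N × Fin N, (Fe hζ fr nu R i c U *
      star (Fe hζ fr nu R j c ((S0 μ m (2 * m') l k β).θ U))).re) =
      (trace (Lp hζ fr nu U R (-(j : ZMod (2 * m))) (j + i)).1).re := by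
    intro U
    rw [← glue, re_tr_mul_inv, Fintype.sum_prod_type]
    rfl
  simp only [h]
  rfl

include hfr hnu in
theorem ph_form' (β : ℝ) (R : ℕ) :
    (S0 μ m (2 * m') l k β).B (Fe hζ fr nu R m) (Fe hζ fr nu R m) =
      ph hζ μ fr nu m m' β R (2 * m) := by
  have h := ph_form (m := m) (m' := m') hζ hfr hnu μ β R m m
  rw [show m + m = 2 * m by ring] at h
  exact h

include hfr hnu in
theorem ph_cs (β : ℝ) (R : ℕ) {i j : ℕ} (hi : i ≤ m) (hj : j ≤ m) :
    ph hζ μ fr nu m m' β R (i + j) ^ 2 ≤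
      ph hζ μ fr nu m m' β R (2 * i) * ph hζ μ fr nu m m' β R (2 * j) := by
  have h := (S0 μ m (2 * m') l k β).csC (ok_Fe hζ hfr hnu μ β R hi) (ok_Fe hζ hfr hnu μ β R hj)
  rw [ph_form hζ hfr hnu, ph_form hζ hfr hnu, ph_form hζ hfr hnu, ← two_mul, ← two_mul,
    add_comm j i] at h
  exact h

theorem ph_zero (β : ℝ) (R : ℕ) :
    ph hζ μ fr nu m m' β R 0 = N * ZZ μ m m' l k β := by
  unfold ph ZZ
  have h : ∀ U : Cf N m m' l, (trace (Lp hζ fr nu U R 0 0).1).re = (N : ℝ) * 1 := fun U => by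
    rw [Lp_zero, coe_one', Matrix.trace_one]; simp
  simp only [h]
  exact II_smul μ k β (N : ℝ) (f := fun _ => 1)

include hfr hnu in
/-- from height two to the full height -/
theorem ph_full (β : ℝ) (R : ℕ) (h2 : 0 < ph hζ μ fr nu m m' β R 2) :
    0 < ph hζ μ fr nu m m' β R (2 * m) ∧
    (ph hζ μ fr nu m m' β R 2 / ph hζ μ fr nu m m' β R 0) ^ m ≤
      ph hζ μ fr nu m m' β R (2 * m) / ph hζ μ fr nu m m' β R 0 := by
  have h0 : 0 < ph hζ μ fr nu m m' β R 0 := by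
    rw [ph_zero]
    have h1 : (0 : ℝ) < N := by exact_mod_cast NeZero.pos N
    exact mul_pos h1 (ZZ_pos μ k β)
  have hc : ∀ r, r + 2 ≤ m → (fun r => ph hζ μ fr nu m m' β R (2 * r)) (r + 1) ^ 2 ≤
      (fun r => ph hζ μ fr nu m m' β R (2 * r)) r * (fun r => ph hζ μ fr nu m m' β R (2 * r)) (r + 2) := by
    intro r hr
    have := ph_cs hζ hfr hnu μ β R (i := r) (j := r + 2) (m' := m') (by omega) hr
    have e : r + (r + 2) = 2 * (r + 1) := by ring
    rw [e] at this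
    exact this
  have hm : 1 ≤ m := NeZero.pos m
  refine ⟨lc_pos (a := fun r => ph hζ μ fr nu m m' β R (2 * r)) (M := m) h0 h2 hc m (le_refl m), ?_⟩
  have := lc_ratio (a := fun r => ph hζ μ fr nu m m' β R (2 * r)) (M := m) h0 h2 hc
    (j := 1) (k := m) one_pos hm (le_refl m)
  simpa using this

/-! ### From fat sides to Polyakov loops -/

/-- first family -/
def Yf (R : ℕ) (c : (Fin N × Fin N) × (Fin N × Fin N)) (U : Cf N m m' l) : ℂ :=
  (Up U 0 0 m).1 c.1.1 c.2.1 * star ((Up U 0 (R : ZMod (2 * m')) m).1 c.1.2 c.2.2)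

/-- second family -/
def Gf (fr : FC N l → SU N) (nu : SU N → ℕ) (R : ℕ) (c : (Fin N × Fin N) × (Fin N × Fin N))
    (U : Cf N m m' l) : ℂ :=
  (Fo hζ fr nu U R m).1 c.1.1 c.1.2 * star ((Psi hζ fr nu U (m : ZMod (2 * m)) 0 R).1 c.2.1 c.2.2)

theorem ok_mul_star (β : ℝ) {f g : Cf N m m' l → ℂ} (hf : BdC f) (hg : BdC g)
    (hd : ∀ U V, (∀ e ∈ (r0 m (2 * m') l).D, U e = V e) → f U = f V ∧ g U = g V) :
    (S0 μ m (2 * m') l k β).Ok (fun U => f U * star (g U)) := by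
  have h := hf.mul hg.star
  refine ⟨h.re, h.im, ?_, ?_⟩
  · intro U V h
    show (f U * star (g U)).re = (f V * star (g V)).re
    rw [(hd U V h).1, (hd U V h).2]
  · intro U V h
    show (f U * star (g U)).im = (f V * star (g V)).im
    rw [(hd U V h).1, (hd U V h).2]

theorem ok_Yf (β : ℝ) (R : ℕ) (c : (Fin N × Fin N) × (Fin N × Fin N)) :
    (S0 μ m (2 * m') l k β).Ok (Yf R c) := by
  refine ok_mul_star μ β (BdC_entry (meas_Up _ _ _) _ _) (BdC_entry (meas_Up _ _ _) _ _) ?_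
  intro U V h
  rw [Up_dep h (le_refl m) 0, Up_dep h (le_refl m) _]
  exact ⟨rfl, rfl⟩

include hfr hnu in
theorem ok_Gf (β : ℝ) (R : ℕ) (c : (Fin N × Fin N) × (Fin N × Fin N)) :
    (S0 μ m (2 * m') l k β).Ok (Gf hζ fr nu R c) := by
  refine ok_mul_star μ β (BdC_entry (meas_Fo hζ hfr hnu _ _) _ _)
    (BdC_entry (meas_Psi hζ hfr hnu _ _ _) _ _) ?_
  intro U V h
  rw [Fo_dep hζ fr nu h (le_refl m) R, Psi_dep hζ fr nu h (le_refl m) 0 R]
  exact ⟨rfl, rfl⟩

/-- the two loops -/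
def pol (R : ℕ) (U : Cf N m m' l) : ℝ :=
  (trace (line U 0).1 * star (trace (line U (R : ZMod (2 * m'))).1)).re

theorem form_YY (β : ℝ) (R : ℕ) :
    (S0 μ m (2 * m') l k β).B (Yf R) (Yf R) = II μ k β (pol (N := N) (m := m) (m' := m') (l := l) R) := by
  unfold RS.B II
  have h : ∀ U : Cf N m m' l, (∑ c : (Fin N × Fin N) × (Fin N × Fin N), (Yf R c U *
      star (Yf R c ((S0 μ m (2 * m') l k β).θ U))).re) = pol R U := by
    intro U
    unfold pol
    rw [line_eq, line_eq, tr_mul_inv', tr_mul_inv', ← Complex.re_sum]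
    congr 1
    rw [star_sum]
    simp only [star_sum, star_mul', star_star]
    rw [Fintype.sum_prod_type]
    simp only [Fintype.sum_prod_type]
    have hθ : (S0 μ m (2 * m') l k β).θ U = (r0 m (2 * m') l).θ U := rfl
    rw [hθ]
    unfold Yf
    simp only [star_mul', star_star]
    -- Σ_i Σ_j Σ_p Σ_q = (Σ_i Σ_p)(Σ_j Σ_q)
    rw [Finset.sum_mul_sum]
    simp only [Finset.sum_mul_sum]
    refine Finset.sum_congr rfl fun i _ => Finset.sum_congr rfl fun j _ =>
      Finset.sum_congr rfl fun p _ => Finset.sum_congr rfl fun q _ => ?_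
    ring
  simp only [h]
  rfl

theorem Psi_fix (U : Cf N m m' l) (R : ℕ) :
    Psi hζ fr nu ((r0 m (2 * m') l).θ U) (m : ZMod (2 * m)) 0 R =
      Psi hζ fr nu U (m : ZMod (2 * m)) 0 R := by
  rw [Psi_r0, ← mm_eq]

include hfr hnu in
theorem form_GG (β : ℝ) (R : ℕ) :
    (S0 μ m (2 * m') l k β).B (Gf hζ fr nu R) (Gf hζ fr nu R) =
      N * ph hζ μ fr nu m m' β R (2 * m) := by
  rw [← ph_form' hζ hfr hnu μ β R]
  unfold RS.B
  rw [← integral_const_mul]
  congr 1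
  funext U
  rw [← mul_assoc]
  congr 1
  have hθ : (S0 μ m (2 * m') l k β).θ U = (r0 m (2 * m') l).θ U := rfl
  rw [hθ, Finset.mul_sum, Fintype.sum_prod_type]
  refine Finset.sum_congr rfl fun c _ => ?_
  unfold Gf Fe
  simp only [Psi_fix]
  set z := (Fo hζ fr nu U R m).1 c.1 c.2 * star ((Fo hζ fr nu ((r0 m (2 * m') l).θ U) R m).1 c.1 c.2)
    with hz
  have h1 : ∀ p : Fin N × Fin N, ((Fo hζ fr nu U R m).1 c.1 c.2 *
      star ((Psi hζ fr nu U (m : ZMod (2 * m)) 0 R).1 p.1 p.2) *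
      star ((Fo hζ fr nu ((r0 m (2 * m') l).θ U) R m).1 c.1 c.2 *
        star ((Psi hζ fr nu U (m : ZMod (2 * m)) 0 R).1 p.1 p.2))).re =
      ‖(Psi hζ fr nu U (m : ZMod (2 * m)) 0 R).1 p.1 p.2‖ ^ 2 * z.re := by
    intro p
    rw [star_mul', star_star]
    have h2 : (Fo hζ fr nu U R m).1 c.1 c.2 *
      star ((Psi hζ fr nu U (m : ZMod (2 * m)) 0 R).1 p.1 p.2) *
      (star ((Fo hζ fr nu ((r0 m (2 * m') l).θ U) R m).1 c.1 c.2) *
        (Psi hζ fr nu U (m : ZMod (2 * m)) 0 R).1 p.1 p.2) =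
      (((‖(Psi hζ fr nu U (m : ZMod (2 * m)) 0 R).1 p.1 p.2‖ ^ 2 : ℝ)) : ℂ) * z := by
      rw [hz]
      push_cast
      rw [← Complex.conj_mul']
      simp only [RCLike.star_def]
      ring
    rw [h2, Complex.re_ofReal_mul]
  rw [Finset.sum_congr rfl fun p _ => h1 p, ← Finset.sum_mul, Fintype.sum_prod_type, sum_norm_sq]

include hfr hnu in
theorem form_GY (β : ℝ) (R : ℕ) :
    (S0 μ m (2 * m') l k β).B (Gf hζ fr nu R) (Yf R) = ph hζ μ fr nu m m' β R (2 * m) := by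
  rw [← ph_form' hζ hfr hnu μ β R]
  unfold RS.B
  congr 1
  funext U
  congr 1
  have hθ : (S0 μ m (2 * m') l k β).θ U = (r0 m (2 * m') l).θ U := rfl
  rw [hθ, Fintype.sum_prod_type]
  refine Finset.sum_congr rfl fun c _ => ?_
  rw [← Complex.re_sum]
  congr 1
  have h1 : (Fe hζ fr nu R m c ((r0 m (2 * m') l).θ U)) =
      ∑ p, ∑ q, (Up ((r0 m (2 * m') l).θ U) 0 0 m).1 c.1 p *
        (Psi hζ fr nu U (m : ZMod (2 * m)) 0 R).1 p q *
        star ((Up ((r0 m (2 * m') l).θ U) 0 (R : ZMod (2 * m')) m).1 c.2 q) := by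
    unfold Fe Fo
    rw [entry3, Psi_fix]
  rw [h1]
  simp only [Fintype.sum_prod_type, star_sum, Finset.mul_sum]
  refine Finset.sum_congr rfl fun p _ => Finset.sum_congr rfl fun q _ => ?_
  unfold Gf Yf Fe
  simp only [star_mul', star_star]
  ring

include hfr hnu in
/-- the Polyakov correlation dominates the fat rectangle -/
theorem psd (β : ℝ) (R : ℕ) (h : 0 < ph hζ μ fr nu m m' β R (2 * m)) :
    ph hζ μ fr nu m m' β R (2 * m) ≤ N * II μ k β (pol (N := N) (m := m) (m' := m') (l := l) R) := by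
  have h1 := (S0 μ m (2 * m') l k β).csC (ok_Gf hζ hfr hnu μ β R) (ok_Yf (k := k) μ β R)
  rw [form_GG hζ hfr hnu, form_GY hζ hfr hnu, form_YY] at h1
  nlinarith

end

end Run7.h4.YM
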