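import Mathlib
import Pool.Agent.Run7.h4.YM.Phi
import Pool.Agent.Run7.h4.YM.Fat2

/-!
# Rectangles of height two
-/

open Matrix MeasureTheory

namespace Run7.h4.YM

set_option linter.unusedSectionVars false

noncomputable section

section

variable {N n L l : ℕ} [NeZero N] [NeZero n] [NeZero L] [NeZero l] {k : ℕ}
  (hζ : IsPrimitiveRoot (om N k) N) {fr : FC N l → SU N} {nu : SU N → ℕ}

theorem zs_succ (U : Link n L l → SU N) (t : ZMod n) (x : ZMod L) (R : ℕ) :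
    zs fr nu U t x (R + 1) = zs fr nu U t x R + zx fr nu U t (x + (R : ZMod L)) := by
  unfold zs
  rw [Finset.sum_range_succ]

theorem zs_rel {U : Link n L l → SU N} {t : ZMod n} {x : ZMod L} {R : ℕ}
    (h : ∀ j < R, cz hζ (zt fr nu U t (x + (j : ZMod L))) *
      cz hζ (zx fr nu U (t + 1) (x + (j : ZMod L))) =
      cz hζ (zx fr nu U t (x + (j : ZMod L))) * cz hζ (zt fr nu U t (x + (j : ZMod L) + 1))) :
    cz hζ (zt fr nu U t x) * cz hζ (zs fr nu U (t + 1) x R) =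
      cz hζ (zs fr nu U t x R) * cz hζ (zt fr nu U t (x + (R : ZMod L))) := by
  induction R with
  | zero =>
    unfold zs
    simp [cz_zero]
  | succ R ih =>
    have h1 := ih fun j hj => h j (by omega)
    have h2 := h R (by omega)
    rw [zs_succ, zs_succ, cz_add, cz_add, ← mul_assoc, h1, mul_assoc, h2, ← mul_assoc]
    congr 3
    push_cast
    rw [add_assoc]

/-- the rectangle of height two is close to one when the cells in it are good -/
theorem rect_near {η δ0 δ : ℝ}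
    (hfat : ∀ (U : Link n L l → SU N) (t : ZMod n) (x : ZMod L),
      (cell k U t x < δ0 → cz hζ (zt fr nu U t x) * cz hζ (zx fr nu U (t + 1) x) =
          cz hζ (zx fr nu U t x) * cz hζ (zt fr nu U t (x + 1))) ∧
      (cell k U t x < δ →
        dd ((fr (fs U t x))⁻¹ * U (0, t, x, 0) * fr (fs U (t + 1) x)) (cz hζ (zt fr nu U t x)) < η ∧
        dd ((fr (fs U t (x + 1)))⁻¹ * U (0, t, x + 1, 0) * fr (fs U (t + 1) (x + 1)))
          (cz hζ (zt fr nu U t (x + 1))) < η))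
    {U : Link n L l → SU N} {R : ℕ} (hR : 0 < R)
    (h0 : ∀ j < R, cell k U 0 (j : ZMod L) < δ0) (h1 : ∀ j < R, cell k U 1 (j : ZMod L) < δ0)
    (h00 : cell k U 0 ((0 : ℕ) : ZMod L) < δ) (h10 : cell k U 1 ((0 : ℕ) : ZMod L) < δ)
    (h0R : cell k U 0 ((R - 1 : ℕ) : ZMod L) < δ) (h1R : cell k U 1 ((R - 1 : ℕ) : ZMod L) < δ) :
    dd (Lp hζ fr nu U R 0 2) 1 ≤ 4 * η := by
  have f0 := fun j hj => (hfat U 0 _).1 (h0 j hj)
  have f1 := fun j hj => (hfat U 1 _).1 (h1 j hj)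
  -- relations between the centre charges
  have r0 := zs_rel hζ (fr := fr) (nu := nu) (U := U) (t := 0) (x := 0) (R := R) (by
    intro j hj
    rw [zero_add (j : ZMod L)]
    exact f0 j hj)
  have r1 := zs_rel hζ (fr := fr) (nu := nu) (U := U) (t := 1) (x := 0) (R := R) (by
    intro j hj
    rw [zero_add (j : ZMod L)]
    exact f1 j hj)
  rw [zero_add (R : ZMod L)] at r0 r1
  rw [zero_add (1 : ZMod n)] at r0
  -- the four vertical bonds
  have b0 := ((hfat U 0 _).2 h00).1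
  have b1 := ((hfat U 1 _).2 h10).1
  have hRR : (((R - 1 : ℕ) : ZMod L)) + 1 = (R : ZMod L) := by
    rw [Nat.cast_sub (by omega)]; simp
  have c0 := ((hfat U 0 _).2 h0R).2
  have c1 := ((hfat U 1 _).2 h1R).2
  rw [hRR] at c0 c1
  rw [Nat.cast_zero] at b0 b1
  rw [zero_add (1 : ZMod n)] at b0 c0
  set g00 := fr (fs U 0 0)
  set g10 := fr (fs U 1 0)
  set g20 := fr (fs U (1 + 1) 0)
  set g0R := fr (fs U 0 (R : ZMod L))
  set g1R := fr (fs U 1 (R : ZMod L))
  set g2R := fr (fs U (1 + 1) (R : ZMod L))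
  have hup : ∀ x : ZMod L, Up U 0 x 2 = U (0, 0, x, 0) * U (0, 1, x, 0) := by
    intro x
    unfold Up
    rw [hp_succ, hp_succ, hp_zero]
    simp
  have h2 : (0 : ZMod n) + ((2 : ℕ) : ZMod n) = 1 + 1 := by push_cast; norm_num
  unfold Lp
  rw [hup, hup, h2]
  unfold Psi
  rw [zero_add (R : ZMod L)]
  set A := g00⁻¹ * U (0, 0, 0, 0) * g10 with hA
  set B := g10⁻¹ * U (0, 1, 0, 0) * g20 with hB
  set C := g0R⁻¹ * U (0, 0, (R : ZMod L), 0) * g1R with hC
  set D := g1R⁻¹ * U (0, 1, (R : ZMod L), 0) * g2R with hD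
  set z2 := cz hζ (zs fr nu U (1 + 1) 0 R)
  set z1 := cz hζ (zs fr nu U 1 0 R)
  set z0 := cz hζ (zs fr nu U 0 0 R) with hz0
  have hz0c : ∀ g, z0 * g = g * z0 := fun g => cz_comm hζ _ g
  have e1 : U (0, 0, 0, 0) * U (0, 1, 0, 0) * (g20 * z2 * g2R⁻¹) *
      (U (0, 0, (R : ZMod L), 0) * U (0, 1, (R : ZMod L), 0))⁻¹ * (g00 * z0 * g0R⁻¹)⁻¹ =
      g00 * (A * B * z2) * ((g00 * z0) * (C * D))⁻¹ := by
    rw [hA, hB, hC, hD]; group
  have e2 : dd (g00 * (A * B * z2) * ((g00 * z0) * (C * D))⁻¹) 1 =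
      dd (A * B * z2) (z0 * (C * D)) := by
    have h3 := dd_mul_right (g00 * (A * B * z2) * ((g00 * z0) * (C * D))⁻¹) 1 ((g00 * z0) * (C * D))
    rw [← h3, inv_mul_cancel_right, one_mul, mul_assoc g00 z0, dd_mul_left]
  rw [e1, e2]
  have h4 := dd_mul_mul (A * B) z2 (cz hζ (zt fr nu U 0 0) * cz hζ (zt fr nu U 1 0)) z2
  have h5 := dd_mul_mul A B (cz hζ (zt fr nu U 0 0)) (cz hζ (zt fr nu U 1 0))
  have h6 := dd_mul_mul C D (cz hζ (zt fr nu U 0 (R : ZMod L))) (cz hζ (zt fr nu U 1 (R : ZMod L)))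
  have h7 : cz hζ (zt fr nu U 0 0) * cz hζ (zt fr nu U 1 0) * z2 =
      z0 * (cz hζ (zt fr nu U 0 (R : ZMod L)) * cz hζ (zt fr nu U 1 (R : ZMod L))) := by
    rw [mul_assoc, r1, ← mul_assoc, r0, mul_assoc]
  have h8 := dd_mul_left (C * D)
    (cz hζ (zt fr nu U 0 (R : ZMod L)) * cz hζ (zt fr nu U 1 (R : ZMod L))) z0
  have h9 := dd_triangle (A * B * z2) (cz hζ (zt fr nu U 0 0) * cz hζ (zt fr nu U 1 0) * z2)
    (z0 * (C * D))
  rw [dd_self, add_zero] at h4
  have h10 : dd (cz hζ (zt fr nu U 0 0) * cz hζ (zt fr nu U 1 0) * z2) (z0 * (C * D)) =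
      dd (z0 * (C * D)) (z0 * (cz hζ (zt fr nu U 0 (R : ZMod L)) * cz hζ (zt fr nu U 1 (R : ZMod L)))) := by
    rw [h7, dd_comm]
  rw [h10, h8] at h9
  linarith

end

variable {N l m m' : ℕ} [NeZero N] [NeZero l] [NeZero m] [NeZero m'] {k : ℕ}
  (hζ : IsPrimitiveRoot (om N k) N) {fr : FC N l → SU N} {nu : SU N → ℕ}
  [MeasurableSpace (SU N)] [BorelSpace (SU N)] (hfr : Measurable fr) (hnu : Measurable nu)
  (μ : Measure (SU N)) [IsProbabilityMeasure μ] [μ.IsInvInvariant]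

theorem re_tr_ge (g : SU N) : -(N : ℝ) ≤ (trace g.1).re := by
  have h := norm_sum_le (Finset.univ : Finset (Fin N)) fun i => g.1 i i
  have h1 : ‖trace g.1‖ ≤ N := by
    unfold Matrix.trace
    refine h.trans ?_
    refine (Finset.sum_le_card_nsmul _ _ 1 fun i _ => entry_le g i i).trans (le_of_eq ?_)
    simp
  have h2 := Complex.abs_re_le_norm (trace g.1)
  have h3 := neg_abs_le (trace g.1).re
  linarith

theorem re_tr_near {g : SU N} {η : ℝ} (h : dd g 1 ≤ 4 * η) :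
    (N : ℝ) - 8 * η ^ 2 ≤ (trace g.1).re := by
  have h1 := dd_sq_tr g 1
  rw [inv_one, mul_one] at h1
  have h2 := dd_nonneg g 1
  nlinarith

/-- the indicator of a bad cell -/
def bad (δ : ℝ) (i j : ℕ) (U : Cf N m m' l) : ℝ :=
  if δ ≤ cell k U (i : ZMod (2 * m)) (j : ZMod (2 * m')) then 1 else 0

theorem bd_bad (δ : ℝ) (i j : ℕ) : Bd (bad (N := N) (m := m) (m' := m') (l := l) (k := k) δ i j) := by
  have hind : Measurable (fun r : ℝ => if δ ≤ r then (1 : ℝ) else 0) :=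
    Measurable.ite measurableSet_Ici measurable_const measurable_const
  refine ⟨hind.comp (bd_cell k _ _).1, 1, fun U => ?_⟩
  unfold bad
  split_ifs <;> simp

theorem bad_nonneg (δ : ℝ) (i j : ℕ) (U : Cf N m m' l) : 0 ≤ bad (k := k) δ i j U := by
  unfold bad
  split_ifs <;> simp

include hfr hnu in
/-- the rectangle of height two -/
theorem ph_two {η δ0 δ : ℝ}
    (hfat : ∀ (U : Cf N m m' l) (t : ZMod (2 * m)) (x : ZMod (2 * m')),
      (cell k U t x < δ0 → cz hζ (zt fr nu U t x) * cz hζ (zx fr nu U (t + 1) x) =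
          cz hζ (zx fr nu U t x) * cz hζ (zt fr nu U t (x + 1))) ∧
      (cell k U t x < δ →
        dd ((fr (fs U t x))⁻¹ * U (0, t, x, 0) * fr (fs U (t + 1) x)) (cz hζ (zt fr nu U t x)) < η ∧
        dd ((fr (fs U t (x + 1)))⁻¹ * U (0, t, x + 1, 0) * fr (fs U (t + 1) (x + 1)))
          (cz hζ (zt fr nu U t (x + 1))) < η))
    {p p' β : ℝ} (hp : ∀ i j : ℕ, II μ k β (bad (N := N) (m := m) (m' := m') (l := l) (k := k) δ0 i j) ≤
      p * ZZ μ m m' l k β)
    (hp' : ∀ i j : ℕ, II μ k β (bad (N := N) (m := m) (m' := m') (l := l) (k := k) δ i j) ≤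
      p' * ZZ μ m m' l k β) {R : ℕ} (hR : 0 < R) :
    ((N : ℝ) - 8 * η ^ 2 - 8 * N * p' - 4 * N * R * p) * ZZ μ m m' l k β ≤
      ph hζ μ fr nu m m' β R 2 := by
  obtain ⟨X, hX⟩ : ∃ X : Cf N m m' l → ℝ, X = fun U =>
      (∑ j ∈ Finset.range R, bad (k := k) δ0 0 j U + ∑ j ∈ Finset.range R, bad (k := k) δ0 1 j U) +
      ((bad (k := k) δ 0 0 U + bad (k := k) δ 1 0 U) +
        (bad (k := k) δ 0 (R - 1) U + bad (k := k) δ 1 (R - 1) U)) := ⟨_, rfl⟩
  have hs : ∀ i : ℕ, Bd fun U : Cf N m m' l => ∑ j ∈ Finset.range R, bad (k := k) δ0 i j U :=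
    fun i => Bd.sum _ fun j _ => bd_bad δ0 i j
  have hb4 : Bd fun U : Cf N m m' l => (bad (k := k) δ 0 0 U + bad (k := k) δ 1 0 U) +
        (bad (k := k) δ 0 (R - 1) U + bad (k := k) δ 1 (R - 1) U) :=
    ((bd_bad δ 0 0).add (bd_bad δ 1 0)).add ((bd_bad δ 0 (R - 1)).add (bd_bad δ 1 (R - 1)))
  have hXb : Bd X := by rw [hX]; exact ((hs 0).add (hs 1)).add hb4
  have hN : (0 : ℝ) ≤ N := Nat.cast_nonneg N
  have hone : ∀ (d : ℝ) (i j : ℕ) (U : Cf N m m' l),
      ¬ cell k U (i : ZMod (2 * m)) (j : ZMod (2 * m')) < d → bad (k := k) d i j U = 1 := by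
    intro d i j U h
    unfold bad
    rw [if_pos (not_lt.mp h)]
  have hXval : ∀ U, X U = (∑ j ∈ Finset.range R, bad (k := k) δ0 0 j U +
      ∑ j ∈ Finset.range R, bad (k := k) δ0 1 j U) +
      ((bad (k := k) δ 0 0 U + bad (k := k) δ 1 0 U) +
        (bad (k := k) δ 0 (R - 1) U + bad (k := k) δ 1 (R - 1) U)) := fun U => by rw [hX]
  have hgood : ∀ U, X U < 1 → (∀ j < R, cell k U ((0 : ℕ) : ZMod (2 * m)) (j : ZMod (2 * m')) < δ0) ∧
      (∀ j < R, cell k U ((1 : ℕ) : ZMod (2 * m)) (j : ZMod (2 * m')) < δ0) ∧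
      cell k U ((0 : ℕ) : ZMod (2 * m)) ((0 : ℕ) : ZMod (2 * m')) < δ ∧
      cell k U ((1 : ℕ) : ZMod (2 * m)) ((0 : ℕ) : ZMod (2 * m')) < δ ∧
      cell k U ((0 : ℕ) : ZMod (2 * m)) ((R - 1 : ℕ) : ZMod (2 * m')) < δ ∧
      cell k U ((1 : ℕ) : ZMod (2 * m)) ((R - 1 : ℕ) : ZMod (2 * m')) < δ := by
    intro U hU
    rw [hXval] at hU
    have n0 : 0 ≤ ∑ j ∈ Finset.range R, bad (k := k) δ0 0 j U :=
      Finset.sum_nonneg fun j _ => bad_nonneg δ0 0 j U
    have n1 : 0 ≤ ∑ j ∈ Finset.range R, bad (k := k) δ0 1 j U :=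
      Finset.sum_nonneg fun j _ => bad_nonneg δ0 1 j U
    have n2 := bad_nonneg (k := k) δ 0 0 U
    have n3 := bad_nonneg (k := k) δ 1 0 U
    have n4 := bad_nonneg (k := k) δ 0 (R - 1) U
    have n5 := bad_nonneg (k := k) δ 1 (R - 1) U
    refine ⟨?_, ?_, ?_, ?_, ?_, ?_⟩
    · intro j hj
      by_contra hcon
      have h3 := Finset.single_le_sum (f := fun j => bad (k := k) δ0 0 j U)
        (fun j _ => bad_nonneg δ0 0 j U) (Finset.mem_range.mpr hj)
      have h2 := hone δ0 0 j U hcon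
      simp only [h2] at h3
      linarith
    · intro j hj
      by_contra hcon
      have h3 := Finset.single_le_sum (f := fun j => bad (k := k) δ0 1 j U)
        (fun j _ => bad_nonneg δ0 1 j U) (Finset.mem_range.mpr hj)
      have h2 := hone δ0 1 j U hcon
      simp only [h2] at h3
      linarith
    · by_contra hcon
      have h2 := hone δ 0 0 U hcon
      linarith
    · by_contra hcon
      have h2 := hone δ 1 0 U hcon
      linarith
    · by_contra hcon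
      have h2 := hone δ 0 (R - 1) U hcon
      linarith
    · by_contra hcon
      have h2 := hone δ 1 (R - 1) U hcon
      linarith
  have hX0 : ∀ U, 0 ≤ X U := by
    intro U
    rw [hXval]
    exact add_nonneg (add_nonneg (Finset.sum_nonneg fun j _ => bad_nonneg δ0 0 j U)
      (Finset.sum_nonneg fun j _ => bad_nonneg δ0 1 j U))
      (add_nonneg (add_nonneg (bad_nonneg _ _ _ _) (bad_nonneg _ _ _ _))
        (add_nonneg (bad_nonneg _ _ _ _) (bad_nonneg _ _ _ _)))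
  have hFb : Bd fun U => ((N : ℝ) - 8 * η ^ 2) * 1 + (-(2 * N)) * X U :=
    ((Bd.const 1).smul _).add (hXb.smul _)
  have hpt : ∀ U, ((N : ℝ) - 8 * η ^ 2) * 1 + (-(2 * N)) * X U ≤
      (trace (Lp hζ fr nu U R 0 2).1).re := by
    intro U
    have hXU := hX0 U
    by_cases hg : X U < 1
    · obtain ⟨g0, g1, g00, g10, g0R, g1R⟩ := hgood U hg
      rw [Nat.cast_zero (R := ZMod (2 * m))] at g00 g0R
      rw [Nat.cast_one (R := ZMod (2 * m))] at g10 g1R
      have g0' : ∀ j < R, cell k U 0 (j : ZMod (2 * m')) < δ0 := fun j hj => by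
        have := g0 j hj
        rwa [Nat.cast_zero (R := ZMod (2 * m))] at this
      have g1' : ∀ j < R, cell k U 1 (j : ZMod (2 * m')) < δ0 := fun j hj => by
        have := g1 j hj
        rwa [Nat.cast_one (R := ZMod (2 * m))] at this
      have h1 := re_tr_near (rect_near hζ hfat hR g0' g1' g00 g10 g0R g1R)
      nlinarith
    · have h2 := re_tr_ge (Lp hζ fr nu U R 0 2)
      have h3 := not_lt.mp hg
      nlinarith [sq_nonneg η]
  have h1 := II_mono μ k β hFb (bd_Lp (m := m) (m' := m') hζ hfr hnu R 0 2) hpt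
  refine le_trans ?_ h1
  rw [II_add μ k β ((Bd.const 1).smul _) (hXb.smul _), II_smul μ k β,
    II_smul μ k β, hX, II_add μ k β ((hs 0).add (hs 1)) hb4, II_add μ k β (hs 0) (hs 1),
    II_add μ k β ((bd_bad δ 0 0).add (bd_bad δ 1 0)) ((bd_bad δ 0 (R - 1)).add (bd_bad δ 1 (R - 1))),
    II_add μ k β (bd_bad δ 0 0) (bd_bad δ 1 0),
    II_add μ k β (bd_bad δ 0 (R - 1)) (bd_bad δ 1 (R - 1)),
    II_sum μ k β _ (fun j _ => bd_bad δ0 0 j),
    II_sum μ k β _ (fun j _ => bd_bad δ0 1 j)]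
  have hsum : ∀ i : ℕ, ∑ j ∈ Finset.range R, II μ k β
      (bad (N := N) (m := m) (m' := m') (l := l) (k := k) δ0 i j) ≤ R * (p * ZZ μ m m' l k β) := by
    intro i
    refine (Finset.sum_le_card_nsmul _ _ _ fun j _ => hp i j).trans (le_of_eq ?_)
    rw [Finset.card_range, nsmul_eq_mul]
  have s0 := hsum 0
  have s1 := hsum 1
  have q0 := hp' 0 0
  have q1 := hp' 1 0
  have q2 := hp' 0 (R - 1)
  have q3 := hp' 1 (R - 1)
  have hZ : II μ k β (fun _ : Cf N m m' l => (1 : ℝ)) = ZZ μ m m' l k β := rfl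
  rw [hZ]
  have hsum4 := add_le_add (add_le_add s0 s1) (add_le_add (add_le_add q0 q1) (add_le_add q2 q3))
  have h5 := mul_le_mul_of_nonneg_left hsum4 (by positivity : (0 : ℝ) ≤ 2 * N)
  linarith

end

end Run7.h4.YM
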