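import Mathlib
import Pool.Agent.Run7.h4.YM.Phi

/-!
# Log-convexity of the Polyakov correlation in the distance
-/

open Matrix MeasureTheory

namespace Run7.h4.YM

set_option linter.unusedSectionVars false

noncomputable section

variable {N l m m' : ℕ} [NeZero N] [NeZero l] [NeZero m] [NeZero m'] {k : ℕ}
  [MeasurableSpace (SU N)] [BorelSpace (SU N)]
  (μ : Measure (SU N)) [IsProbabilityMeasure μ] [μ.IsInvInvariant]

theorem line_Up {n L : ℕ} (U : Link n L l → SU N) (x : ZMod L) : line U x = Up U 0 x n := by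
  unfold line Up hp
  simp only [zero_add]
  rfl

theorem line_T1 {n L : ℕ} (U : Link n L l → SU N) (x : ZMod L) :
    line (T1 U) x = line U (x + 1) := rfl

theorem line_r1 {n : ℕ} [NeZero n] (U : Link n (2 * m') l → SU N) (x : ZMod (2 * m')) :
    line ((r1 n m' l).θ U) x = line U (-x) := by
  unfold line
  congr 1
  refine List.map_congr_left fun t _ => ?_
  exact r1_0 U _ _ _

theorem meas_line {n L : ℕ} [NeZero n] [NeZero L] (x : ZMod L) :
    Measurable fun U : Link n L l → SU N => line U x := by
  simp only [line_Up]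
  exact meas_Up 0 x n

/-- the correlation without normalisation -/
def gg (μ : Measure (SU N)) (k m m' l : ℕ) [NeZero m] [NeZero m'] [NeZero l] (β : ℝ) (R : ℕ) : ℝ :=
  II μ k β (pol (N := N) (m := m) (m' := m') (l := l) R)

theorem bd_two (a b : ZMod (2 * m')) : Bd fun U : Cf N m m' l =>
    (trace (line U a).1 * star (trace (line U b).1)).re :=
  ((BdC_trace (meas_line a)).mul (BdC_trace (meas_line b)).star).re

theorem gg_shift (β : ℝ) (a : ZMod (2 * m')) (r : ℕ) :
    II μ k β (fun U : Cf N m m' l =>
      (trace (line U (a + (r : ZMod (2 * m')))).1 * star (trace (line U a).1)).re) =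
      gg μ k m m' l β r := by
  have h1 : ∀ i : ℕ, II μ k β (fun U : Cf N m m' l =>
      (trace (line U ((i : ZMod (2 * m')) + (r : ZMod (2 * m')))).1 *
        star (trace (line U (i : ZMod (2 * m'))).1)).re) = gg μ k m m' l β r := by
    intro i
    induction i with
    | zero =>
      unfold gg pol
      congr 1
      funext U
      rw [Nat.cast_zero, zero_add, ← Complex.conj_re]
      congr 1
      simp only [RCLike.star_def, map_mul, Complex.conj_conj]
      ring
    | succ i ih =>
      have h2 := II_T1 μ k β (bd_two (N := N) (m := m) (m' := m') (l := l)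
        ((i : ZMod (2 * m')) + (r : ZMod (2 * m'))) (i : ZMod (2 * m')))
      rw [ih] at h2
      rw [← h2]
      simp only [line_T1]
      congr 1
      funext U
      have e1 : ((i + 1 : ℕ) : ZMod (2 * m')) + (r : ZMod (2 * m')) =
          (i : ZMod (2 * m')) + (r : ZMod (2 * m')) + 1 := by push_cast; ring
      have e2 : ((i + 1 : ℕ) : ZMod (2 * m')) = (i : ZMod (2 * m')) + 1 := by push_cast; ring
      rw [e1, e2]
  have h2 := h1 a.val
  rw [ZMod.natCast_zmod_val] at h2
  exact h2

theorem gg_cs (β : ℝ) {a b : ℕ} (ha : a ≤ m') (hb : b ≤ m') :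
    gg μ k m m' l β (a + b) ^ 2 ≤ gg μ k m m' l β (2 * a) * gg μ k m m' l β (2 * b) := by
  set S := S1 μ (2 * m) m' l k β with hS
  set f : ℕ → Unit → Cf N m m' l → ℂ := fun a _ U => trace (line U (a : ZMod (2 * m'))).1 with hf
  have hok : ∀ a, a ≤ m' → ∀ c, S.Ok (f a c) := by
    intro a ha c
    have hB := BdC_trace (N := N) (meas_line (N := N) (n := 2 * m) (l := l) (a : ZMod (2 * m')))
    have hdep : ∀ U V : Cf N m m' l, (∀ e ∈ (r1 (2 * m) m' l).D, U e = V e) →
        line U (a : ZMod (2 * m')) = line V (a : ZMod (2 * m')) := by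
      intro U V h
      unfold line
      congr 1
      refine List.map_congr_left fun t _ => ?_
      exact h _ (mem_D1' ha (by decide) _ _)
    refine ⟨hB.re, hB.im, ?_, ?_⟩
    · intro U V h
      show (trace (line U (a : ZMod (2 * m'))).1).re = (trace (line V (a : ZMod (2 * m'))).1).re
      rw [hdep U V h]
    · intro U V h
      show (trace (line U (a : ZMod (2 * m'))).1).im = (trace (line V (a : ZMod (2 * m'))).1).im
      rw [hdep U V h]
  have hform : ∀ a b : ℕ, S.B (f a) (f b) = gg μ k m m' l β (a + b) := by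
    intro a b
    rw [← gg_shift (m := m) μ β (-(b : ZMod (2 * m'))) (a + b)]
    unfold RS.B II
    have h : ∀ U : Cf N m m' l, (∑ c : Unit, (f a c U * star (f b c (S.θ U))).re) =
        (trace (line U (-(b : ZMod (2 * m')) + ((a + b : ℕ) : ZMod (2 * m')))).1 *
          star (trace (line U (-(b : ZMod (2 * m')))).1)).re := by
      intro U
      have e1 : -(b : ZMod (2 * m')) + ((a + b : ℕ) : ZMod (2 * m')) = (a : ZMod (2 * m')) := by
        push_cast; ring
      rw [e1]
      simp only [Finset.univ_unique, Finset.sum_singleton, hf]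
      have hθ : S.θ U = (r1 (2 * m) m' l).θ U := rfl
      rw [hθ, line_r1]
    simp only [h]
    rfl
  have h := S.csC (hok a ha) (hok b hb)
  rw [hform, hform, hform, ← two_mul, ← two_mul] at h
  exact h

/-- the bound at large distance from the bound at one distance -/
theorem gg_ratio (β : ℝ) {j r : ℕ} (hj : 0 < j) (hjr : j ≤ r) (hr : r ≤ m')
    (h0 : 0 < gg μ k m m' l β 0) (hpos : 0 < gg μ k m m' l β 2) :
    0 < gg μ k m m' l β (2 * r) ∧
    (gg μ k m m' l β (2 * j) / gg μ k m m' l β 0) ^ r ≤
      (gg μ k m m' l β (2 * r) / gg μ k m m' l β 0) ^ j := by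
  have hc : ∀ i, i + 2 ≤ m' → (fun i => gg μ k m m' l β (2 * i)) (i + 1) ^ 2 ≤
      (fun i => gg μ k m m' l β (2 * i)) i * (fun i => gg μ k m m' l β (2 * i)) (i + 2) := by
    intro i hi
    have := gg_cs (k := k) (m := m) (m' := m') (l := l) μ β (a := i) (b := i + 2) (by omega) hi
    have e : i + (i + 2) = 2 * (i + 1) := by ring
    rw [e] at this
    exact this
  exact ⟨lc_pos (a := fun i => gg μ k m m' l β (2 * i)) (M := m') h0 hpos hc r hr,
    lc_ratio (a := fun i => gg μ k m m' l β (2 * i)) (M := m') h0 hpos hc hj hjr hr⟩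

end

end Run7.h4.YM
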