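import Mathlib
import Pool.Agent.Run7.h4.YM.Rect
import Pool.Agent.Run7.h4.YM.RDir

/-!
# Lower bound for the Polyakov correlation
-/

open Matrix MeasureTheory

namespace Run7.h4.YM

set_option linter.unusedSectionVars false

noncomputable section

theorem exp_le_sub {x : ℝ} (h0 : 0 ≤ x) (h1 : x ≤ 1 / 2) : Real.exp (-(2 * x)) ≤ 1 - x := by
  have h2 : 0 < 1 + 2 * x := by linarith
  have h3 : 1 + 2 * x ≤ Real.exp (2 * x) := by
    have := Real.add_one_le_exp (2 * x); linarith
  rw [Real.exp_neg]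
  calc (Real.exp (2 * x))⁻¹ ≤ (1 + 2 * x)⁻¹ := inv_anti₀ h2 h3
    _ ≤ 1 - x := by
      rw [inv_le_iff_one_le_mul₀ h2]
      nlinarith

section

variable {N l m m' : ℕ} [NeZero N] [NeZero l] [NeZero m] [NeZero m'] {k : ℕ}
  [MeasurableSpace (SU N)] [BorelSpace (SU N)]
  (μ : Measure (SU N)) [IsProbabilityMeasure μ] [μ.IsInvInvariant]

theorem norm_tr_le (g : SU N) : ‖trace g.1‖ ≤ N := by
  unfold Matrix.trace
  refine (norm_sum_le _ _).trans ?_
  refine (Finset.sum_le_card_nsmul _ _ 1 fun i _ => entry_le g i i).trans (le_of_eq ?_)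
  simp

theorem polyakov_eq (β : ℝ) (R : ℕ) :
    polyakov (2 * m) (2 * m') l μ k β R = gg μ k m m' l β R / ((N : ℝ) ^ 2 * ZZ μ m m' l k β) := by
  unfold polyakov
  rw [expect_eq]
  have hN : (N : ℝ) ≠ 0 := by exact_mod_cast NeZero.ne N
  have h : (fun U : Cf N m m' l => (trace (line U 0).1 / N *
      star (trace (line U (R : ZMod (2 * m'))).1 / N)).re) =
      fun U => (1 / (N : ℝ) ^ 2) * pol R U := by
    funext U
    unfold pol
    have e : trace (line U 0).1 / N * star (trace (line U (R : ZMod (2 * m'))).1 / N) =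
        ((1 / (N : ℝ) ^ 2 : ℝ) : ℂ) *
          (trace (line U 0).1 * star (trace (line U (R : ZMod (2 * m'))).1)) := by
      rw [star_div₀]
      simp only [RCLike.star_def, Complex.conj_natCast]
      push_cast
      field_simp
    rw [e, Complex.re_ofReal_mul]
  rw [h, II_smul]
  have hZ : II μ k β (fun _ : Cf N m m' l => (1 : ℝ)) = ZZ μ m m' l k β := rfl
  rw [hZ]
  unfold gg
  rw [div_mul_eq_mul_div, one_mul, div_div]

theorem gg_zero_le (β : ℝ) : gg (N := N) μ k m m' l β 0 ≤ (N : ℝ) ^ 2 * ZZ μ m m' l k β := by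
  unfold gg
  have h1 : Bd (pol (N := N) (m := m) (m' := m') (l := l) 0) := bd_two _ _
  have h := II_mono μ k β h1 ((Bd.const 1).smul ((N : ℝ) ^ 2)) (fun U => by
    unfold pol
    have e := norm_tr_le (line U (0 : ZMod (2 * m')))
    have e' := norm_tr_le (line U ((0 : ℕ) : ZMod (2 * m')))
    refine (Complex.re_le_norm _).trans ?_
    rw [norm_mul, norm_star, mul_one, sq]
    exact mul_le_mul e e' (norm_nonneg _) (Nat.cast_nonneg N))
  rw [II_smul] at h
  exact h

variable (hζ : IsPrimitiveRoot (om N k) N) {fr : FC N l → SU N} {nu : SU N → ℕ}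
  (hfr : Measurable fr) (hnu : Measurable nu)

theorem Lp_R0 {n L : ℕ} [NeZero n] [NeZero L] (U : Link n L l → SU N) (t : ZMod n) (j : ℕ) :
    Lp hζ fr nu U 0 t j = 1 := by
  unfold Lp Psi zs
  simp [cz_zero]

include hζ hfr hnu in
theorem gg_zero_ge (β : ℝ) : ZZ μ m m' l k β ≤ gg (N := N) μ k m m' l β 0 := by
  have h1 : ph hζ μ fr nu m m' β 0 (2 * m) = N * ZZ μ m m' l k β := by
    unfold ph ZZ
    have h : ∀ U : Cf N m m' l, (trace (Lp hζ fr nu U 0 0 (2 * m)).1).re = (N : ℝ) * 1 := fun U => by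
      rw [Lp_R0, coe_one', Matrix.trace_one]; simp
    simp only [h]
    exact II_smul μ k β (N : ℝ) (f := fun _ => 1)
  have hN : (0 : ℝ) < N := by exact_mod_cast NeZero.pos N
  have hZ := ZZ_pos (N := N) (m := m) (m' := m') (l := l) μ k β
  have h2 := psd hζ hfr hnu μ (m := m) (m' := m') β 0 (by rw [h1]; positivity)
  rw [h1] at h2
  exact le_of_mul_le_mul_left h2 hN

include hfr hnu in
/-- the bound at moderate distance -/
theorem gg_moderate {η δ0 δ : ℝ}
    (hfat : ∀ (U : Cf N m m' l) (t : ZMod (2 * m)) (x : ZMod (2 * m')),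
      (cell k U t x < δ0 → cz hζ (zt fr nu U t x) * cz hζ (zx fr nu U (t + 1) x) =
          cz hζ (zx fr nu U t x) * cz hζ (zt fr nu U t (x + 1))) ∧
      (cell k U t x < δ →
        dd ((fr (fs U t x))⁻¹ * U (0, t, x, 0) * fr (fs U (t + 1) x)) (cz hζ (zt fr nu U t x)) < η ∧
        dd ((fr (fs U t (x + 1)))⁻¹ * U (0, t, x + 1, 0) * fr (fs U (t + 1) (x + 1)))
          (cz hζ (zt fr nu U t (x + 1))) < η))
    {p p' β : ℝ} (hp : ∀ i j : ℕ, II μ k β (bad (N := N) (m := m) (m' := m') (l := l) (k := k) δ0 i j) ≤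
      p * ZZ μ m m' l k β)
    (hp' : ∀ i j : ℕ, II μ k β (bad (N := N) (m := m) (m' := m') (l := l) (k := k) δ i j) ≤
      p' * ZZ μ m m' l k β) {R : ℕ} (hR : 0 < R) {e : ℝ} (he1 : e ≤ 1)
    (h1 : 8 * η ^ 2 ≤ e / 16 * N) (h2 : 8 * p' ≤ e / 16) (h3 : 4 * R * p ≤ e / 8) (he0 : 0 < e) :
    ZZ μ m m' l k β * Real.exp (-(e * m / 2)) ≤ gg μ k m m' l β R := by
  have hN : (0 : ℝ) < N := by exact_mod_cast NeZero.pos N
  have hZ := ZZ_pos (N := N) (m := m) (m' := m') (l := l) μ k β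
  have hph2 := ph_two (m := m) (m' := m') hζ hfr hnu μ hfat hp hp' hR
  have hph0 := ph_zero (m := m) (m' := m') (fr := fr) (nu := nu) hζ μ β R
  have hlow : (1 - e / 4) * (N * ZZ μ m m' l k β) ≤ ph hζ μ fr nu m m' β R 2 := by
    refine le_trans ?_ hph2
    have h4 : (1 - e / 4) * N ≤ (N : ℝ) - 8 * η ^ 2 - 8 * N * p' - 4 * N * R * p := by
      have h5 := mul_le_mul_of_nonneg_left h2 hN.le
      have h6 := mul_le_mul_of_nonneg_left h3 hN.le
      linarith
    have h7 := mul_le_mul_of_nonneg_right h4 hZ.le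
    linarith
  have he4 : 0 < 1 - e / 4 := by linarith
  have hpos : 0 < ph hζ μ fr nu m m' β R 2 := lt_of_lt_of_le (by positivity) hlow
  obtain ⟨hfull, hratio⟩ := ph_full (m := m) (m' := m') hζ hfr hnu μ β R hpos
  have hpsd := psd hζ hfr hnu μ (m := m) (m' := m') β R hfull
  have h8 : 1 - e / 4 ≤ ph hζ μ fr nu m m' β R 2 / ph hζ μ fr nu m m' β R 0 := by
    rw [hph0, le_div_iff₀ (by positivity)]
    exact hlow
  have h9 : (1 - e / 4) ^ m ≤ ph hζ μ fr nu m m' β R (2 * m) / ph hζ μ fr nu m m' β R 0 :=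
    (pow_le_pow_left₀ he4.le h8 m).trans hratio
  rw [hph0, le_div_iff₀ (by positivity)] at h9
  have h10 : Real.exp (-(e * m / 2)) ≤ (1 - e / 4) ^ m := by
    have h11 := exp_le_sub (x := e / 4) (by linarith) (by linarith)
    have h12 := pow_le_pow_left₀ (Real.exp_pos _).le h11 m
    rw [← Real.exp_nat_mul] at h12
    refine le_trans (le_of_eq ?_) h12
    congr 1
    ring
  have h13 : Real.exp (-(e * m / 2)) * (N * ZZ μ m m' l k β) ≤
      N * II μ k β (pol (N := N) (m := m) (m' := m') (l := l) R) :=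
    (mul_le_mul_of_nonneg_right h10 (by positivity)).trans (h9.trans hpsd)
  have h14 : N * (ZZ μ m m' l k β * Real.exp (-(e * m / 2))) ≤
      N * II μ k β (pol (N := N) (m := m) (m' := m') (l := l) R) := by
    linarith
  exact le_of_mul_le_mul_left h14 hN

end

/-- The lower bound. -/
theorem lower (N l k : ℕ) [NeZero N] [NeZero l] (hk : Nat.Coprime k N)
    [MeasurableSpace (SU N)] [BorelSpace (SU N)] (μ : Measure (SU N)) [IsProbabilityMeasure μ]
    [μ.IsHaarMeasure] : ∃ c : ℝ, 0 < c ∧ ∀ ε : ℝ, 0 < ε → ∃ β0 : ℝ, 0 < β0 ∧ ∀ β : ℝ, β0 ≤ β →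
    ∀ (m m' : ℕ) [NeZero m] [NeZero m'] (r : ℕ), 0 < r → r ≤ m' →
      Real.exp (-((2 * m : ℕ) * (ε + Real.exp (-(c * β)) * (2 * r : ℕ)))) / (N : ℝ) ^ 2 ≤
        polyakov (2 * m) (2 * m') l μ k β (2 * r) := by
  have hi := inv_inv' μ
  have hζ := om_prim (N := N) hk
  have hN : (0 : ℝ) < N := by exact_mod_cast NeZero.pos N
  have hN1 : (1 : ℝ) ≤ N := by exact_mod_cast NeZero.pos N
  have hlogN : 0 ≤ Real.log N := Real.log_nonneg hN1
  obtain ⟨δ0, hδ0, hfat⟩ := fat_cell2 (l := l) hζ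
  obtain ⟨C0, hC0, hbad0⟩ := bad_bound (l := l) hζ μ hδ0
  refine ⟨δ0 / 4, by positivity, fun ε hε => ?_⟩
  obtain ⟨e, he⟩ : ∃ e : ℝ, e = min ε 1 := ⟨_, rfl⟩
  have he0 : 0 < e := by rw [he]; exact lt_min hε one_pos
  have heε : e ≤ ε := by rw [he]; exact min_le_left _ _
  have he1 : e ≤ 1 := by rw [he]; exact min_le_right _ _
  obtain ⟨η, hη⟩ : ∃ η : ℝ, η = Real.sqrt (e * N / 128) := ⟨_, rfl⟩
  have hη0 : 0 < η := by rw [hη]; exact Real.sqrt_pos.mpr (by positivity)
  have hη2 : 8 * η ^ 2 ≤ e / 16 * N := by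
    rw [hη, Real.sq_sqrt (by positivity)]
    linarith
  obtain ⟨δ, fr, nu, hδ, hfr, hnu, hcell⟩ := hfat η hη0
  obtain ⟨C1, hC1, hbad1⟩ := bad_bound (l := l) hζ μ hδ
  obtain ⟨K, hK⟩ : ∃ K : ℝ, K = 128 / e * (2 * Real.log N + 1) := ⟨_, rfl⟩
  have hK0 : 0 < K := by rw [hK]; positivity
  -- the threshold
  obtain ⟨β1, hβ1⟩ : ∃ β1 : ℝ, β1 = 2 / δ * (128 * C1 / e) := ⟨_, rfl⟩
  obtain ⟨β2, hβ2⟩ : ∃ β2 : ℝ, β2 = 2 / δ0 * (64 * C0 / e) := ⟨_, rfl⟩
  obtain ⟨β3, hβ3⟩ : ∃ β3 : ℝ, β3 = 4 / δ0 * (K * C0) := ⟨_, rfl⟩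
  have hβ1p : 0 < β1 := by rw [hβ1]; positivity
  have hβ2p : 0 < β2 := by rw [hβ2]; positivity
  have hβ3p : 0 < β3 := by rw [hβ3]; positivity
  refine ⟨β1 + β2 + β3, by positivity, fun β hβ m m' _ _ r hr hrm => ?_⟩
  have hβ0 : 0 ≤ β := by linarith
  have hm : (1 : ℝ) ≤ m := by exact_mod_cast NeZero.pos m
  -- small probabilities
  have small : ∀ (d C X : ℝ), 0 < d → 0 < C → 0 < X → 2 / d * (C * X) ≤ β →
      C * Real.exp (-(β * (d / 2))) ≤ 1 / X := by
    intro d C X hd hC hX hle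
    have h1 : C * X ≤ β * (d / 2) := by
      have := mul_le_mul_of_nonneg_right hle (by positivity : (0 : ℝ) ≤ d / 2)
      have e1 : 2 / d * (C * X) * (d / 2) = C * X := by field_simp
      linarith
    have h2 : C * X ≤ Real.exp (β * (d / 2)) := by
      have := Real.add_one_le_exp (β * (d / 2)); linarith
    rw [Real.exp_neg, ← div_eq_mul_inv, div_le_div_iff₀ (Real.exp_pos _) hX]
    linarith
  obtain ⟨p, hp⟩ : ∃ p : ℝ, p = C0 * Real.exp (-(β * (δ0 / 2))) := ⟨_, rfl⟩
  obtain ⟨p', hp'⟩ : ∃ p' : ℝ, p' = C1 * Real.exp (-(β * (δ / 2))) := ⟨_, rfl⟩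
  have hp0 : 0 < p := by rw [hp]; positivity
  have hp1 : p ≤ e / 64 := by
    have := small δ0 C0 (64 / e) hδ0 hC0 (by positivity) (by
      rw [hβ2] at *
      have e1 : 2 / δ0 * (C0 * (64 / e)) = 2 / δ0 * (64 * C0 / e) := by ring
      rw [e1]; linarith)
    rw [hp]
    refine this.trans (le_of_eq ?_)
    field_simp
  have hp'1 : 8 * p' ≤ e / 16 := by
    have := small δ C1 (128 / e) hδ hC1 (by positivity) (by
      have e1 : 2 / δ * (C1 * (128 / e)) = 2 / δ * (128 * C1 / e) := by ring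
      rw [e1, ← hβ1]; linarith)
    rw [hp']
    have e2 : 1 / (128 / e) = e / 128 := by field_simp
    rw [e2] at this
    linarith
  have hKp : K * p ≤ Real.exp (-(δ0 / 4 * β)) := by
    have h1 : K * C0 ≤ Real.exp (β * (δ0 / 4)) := by
      have h2 : K * C0 ≤ β * (δ0 / 4) := by
        have h3 : β3 ≤ β := by linarith
        rw [hβ3] at h3
        have := mul_le_mul_of_nonneg_right h3 (by positivity : (0 : ℝ) ≤ δ0 / 4)
        have e1 : 4 / δ0 * (K * C0) * (δ0 / 4) = K * C0 := by field_simp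
        linarith
      have := Real.add_one_le_exp (β * (δ0 / 4)); linarith
    rw [hp, ← mul_assoc]
    have e1 : Real.exp (-(β * (δ0 / 2))) = Real.exp (-(β * (δ0 / 4))) * Real.exp (-(β * (δ0 / 4))) := by
      rw [← Real.exp_add]; congr 1; ring
    have e2 : Real.exp (-(δ0 / 4 * β)) = Real.exp (-(β * (δ0 / 4))) := by congr 1; ring
    rw [e1, e2]
    have e3 := Real.exp_pos (-(β * (δ0 / 4)))
    have e4 : K * C0 * Real.exp (-(β * (δ0 / 4))) ≤ 1 := by
      rw [Real.exp_neg, ← div_eq_mul_inv, div_le_one (Real.exp_pos _)]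
      exact h1
    calc K * C0 * (Real.exp (-(β * (δ0 / 4))) * Real.exp (-(β * (δ0 / 4))))
        = (K * C0 * Real.exp (-(β * (δ0 / 4)))) * Real.exp (-(β * (δ0 / 4))) := by ring
      _ ≤ 1 * Real.exp (-(β * (δ0 / 4))) := mul_le_mul_of_nonneg_right e4 e3.le
      _ = _ := one_mul _
  have hb0 : ∀ i j : ℕ, II μ k β (bad (N := N) (m := m) (m' := m') (l := l) (k := k) δ0 i j) ≤
      p * ZZ μ m m' l k β := fun i j => by rw [hp]; exact hbad0 β hβ0 m m' i j
  have hb1 : ∀ i j : ℕ, II μ k β (bad (N := N) (m := m) (m' := m') (l := l) (k := k) δ i j) ≤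
      p' * ZZ μ m m' l k β := fun i j => by rw [hp']; exact hbad1 β hβ0 m m' i j
  have hmod : ∀ R : ℕ, 0 < R → 4 * R * p ≤ e / 8 →
      ZZ μ m m' l k β * Real.exp (-(e * m / 2)) ≤ gg μ k m m' l β R := fun R hR hRp =>
    gg_moderate μ hζ hfr hnu (fun U t x => hcell (2 * m) (2 * m') U t x) hb0 hb1 hR he1 hη2 hp'1
      hRp he0
  have hZ := ZZ_pos (N := N) (m := m) (m' := m') (l := l) μ k β
  have hg0 := gg_zero_ge (m := m) (m' := m') μ hζ hfr hnu β
  have hg0' := gg_zero_le (N := N) (m := m) (m' := m') (l := l) (k := k) μ β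
  rw [polyakov_eq]
  have hr0 : (0 : ℝ) < r := by exact_mod_cast hr
  have hE := Real.exp_pos (-(δ0 / 4 * β))
  by_cases hcase : 64 * r * p ≤ e
  · have h1 := hmod (2 * r) (by omega) (by push_cast; linarith)
    rw [div_le_div_iff₀ (by positivity) (by positivity)]
    have h2 : Real.exp (-((2 * m : ℕ) * (ε + Real.exp (-(δ0 / 4 * β)) * (2 * r : ℕ)))) ≤
        Real.exp (-(e * m / 2)) := by
      refine Real.exp_le_exp.mpr ?_
      push_cast
      have h3 : 0 ≤ m * (Real.exp (-(δ0 / 4 * β)) * r) := by positivity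
      have h5 : e * m ≤ ε * m := mul_le_mul_of_nonneg_right heε (by positivity)
      have h6 : 0 ≤ e * m := by positivity
      linarith
    have h4 : Real.exp (-((2 * m : ℕ) * (ε + Real.exp (-(δ0 / 4 * β)) * (2 * r : ℕ)))) *
        ZZ μ m m' l k β ≤ gg μ k m m' l β (2 * r) := by
      refine le_trans ?_ h1
      rw [mul_comm]
      exact mul_le_mul_of_nonneg_left h2 hZ.le
    have hN2 : (0 : ℝ) < (N : ℝ) ^ 2 := by positivity
    have h5 := mul_le_mul_of_nonneg_right h4 hN2.le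
    linarith
  · push Not at hcase
    -- the reference distance
    obtain ⟨j, hj⟩ : ∃ j : ℕ, j = ⌊e / (64 * p)⌋₊ := ⟨_, rfl⟩
    have hj1 : (j : ℝ) ≤ e / (64 * p) := by rw [hj]; exact Nat.floor_le (by positivity)
    have hj2 : e / (64 * p) < j + 1 := by rw [hj]; exact Nat.lt_floor_add_one _
    have hj3 : 1 ≤ j := by
      rw [hj]
      refine Nat.le_floor ?_
      rw [Nat.cast_one, le_div_iff₀ (by positivity)]
      linarith
    have hj4 : j ≤ r := by
      have h1 : e / (64 * p) < r := by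
        rw [div_lt_iff₀ (by positivity)]
        linarith
      have h2 : (j : ℝ) < r := lt_of_le_of_lt hj1 h1
      exact_mod_cast h2.le
    have hj1' : 64 * j * p ≤ e := by
      rw [le_div_iff₀ (by positivity)] at hj1
      linarith
    have hgj := hmod (2 * j) (by omega) (by push_cast; linarith)
    have hg2 := hmod 2 (by norm_num) (by push_cast; linarith)
    have hg2' : 0 < gg μ k m m' l β 2 := lt_of_lt_of_le (by positivity) hg2
    have hg0p : 0 < gg μ k m m' l β 0 := lt_of_lt_of_le hZ hg0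
    obtain ⟨hgr, hrat⟩ := gg_ratio (m := m) (m' := m') (l := l) (k := k) μ β (j := j) (r := r)
      (by omega) hj4 hrm hg0p hg2'
    have hgjp : 0 < gg μ k m m' l β (2 * j) := lt_of_lt_of_le (by positivity) hgj
    -- logarithms
    have hlog := Real.log_le_log (by positivity) hrat
    rw [Real.log_pow, Real.log_pow] at hlog
    have hq : -(2 * Real.log N + e * m / 2) ≤
        Real.log (gg μ k m m' l β (2 * j) / gg μ k m m' l β 0) := by
      have h1 : Real.exp (-(e * m / 2)) / (N : ℝ) ^ 2 ≤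
          gg μ k m m' l β (2 * j) / gg μ k m m' l β 0 := by
        rw [div_le_div_iff₀ (by positivity) hg0p]
        calc Real.exp (-(e * m / 2)) * gg μ k m m' l β 0
            ≤ Real.exp (-(e * m / 2)) * ((N : ℝ) ^ 2 * ZZ μ m m' l k β) :=
              mul_le_mul_of_nonneg_left hg0' (Real.exp_pos _).le
          _ = (ZZ μ m m' l k β * Real.exp (-(e * m / 2))) * (N : ℝ) ^ 2 := by ring
          _ ≤ gg μ k m m' l β (2 * j) * (N : ℝ) ^ 2 :=
              mul_le_mul_of_nonneg_right hgj (by positivity)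
      have h2 := Real.log_le_log (by positivity) h1
      rw [Real.log_div (Real.exp_pos _).ne' (by positivity), Real.log_exp, Real.log_pow] at h2
      push_cast at h2
      linarith
    have hjp : (0 : ℝ) < j := by exact_mod_cast hj3
    -- `j log (g(2r)/g(0)) ≥ - r (2 log N + e m / 2)`
    have h3 : -(r * (2 * Real.log N + e * m / 2)) ≤
        j * Real.log (gg μ k m m' l β (2 * r) / gg μ k m m' l β 0) := by
      refine le_trans ?_ hlog
      have := mul_le_mul_of_nonneg_left hq hr0.le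
      linarith
    have h4 : e ≤ 128 * p * j := by
      have h5 : e < (j + 1) * (64 * p) := by
        rw [div_lt_iff₀ (by positivity)] at hj2
        exact hj2
      have h6 : (1 : ℝ) ≤ j := by exact_mod_cast hj3
      have h7 := mul_le_mul_of_nonneg_right h6 (by positivity : (0 : ℝ) ≤ 64 * p)
      linarith
    -- the quantity `r (2 log N + e m / 2)` is at most `j K p r m`
    have h7 : r * (2 * Real.log N + e * m / 2) ≤ j * (K * p * (r * m)) := by
      have h8 : 2 * Real.log N + e * m / 2 ≤ (2 * Real.log N + 1) * m := by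
        have a1 := mul_le_mul_of_nonneg_left hm (by positivity : (0 : ℝ) ≤ 2 * Real.log N)
        have a2 := mul_le_mul_of_nonneg_right he1 (by positivity : (0 : ℝ) ≤ m)
        linarith
      have h9 : r * (2 * Real.log N + e * m / 2) ≤ r * ((2 * Real.log N + 1) * m) :=
        mul_le_mul_of_nonneg_left h8 hr0.le
      refine h9.trans ?_
      have h10 : j * (K * p * (r * m)) = (128 * p * j) / e * ((2 * Real.log N + 1) * (r * m)) := by
        rw [hK]; field_simp
      rw [h10]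
      have h11 : 1 ≤ 128 * p * j / e := by rw [le_div_iff₀ he0]; linarith
      have h12 : 0 ≤ (2 * Real.log N + 1) * (r * m) := by positivity
      calc r * ((2 * Real.log N + 1) * m) = 1 * ((2 * Real.log N + 1) * (r * m)) := by ring
        _ ≤ 128 * p * j / e * ((2 * Real.log N + 1) * (r * m)) :=
            mul_le_mul_of_nonneg_right h11 h12
    have h13 : -(K * p * (r * m)) ≤ Real.log (gg μ k m m' l β (2 * r) / gg μ k m m' l β 0) := by
      have h14 : j * (-(K * p * (r * m))) ≤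
          j * Real.log (gg μ k m m' l β (2 * r) / gg μ k m m' l β 0) := by
        linarith
      exact le_of_mul_le_mul_left h14 hjp
    have h15 : Real.exp (-(K * p * (r * m))) ≤ gg μ k m m' l β (2 * r) / gg μ k m m' l β 0 := by
      rw [← Real.log_le_log_iff (Real.exp_pos _) (by positivity), Real.log_exp]
      exact h13
    rw [le_div_iff₀ hg0p] at h15
    have h16 : Real.exp (-((2 * m : ℕ) * (ε + Real.exp (-(δ0 / 4 * β)) * (2 * r : ℕ)))) ≤
        Real.exp (-(K * p * (r * m))) := by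
      refine Real.exp_le_exp.mpr (neg_le_neg ?_)
      push_cast
      have h17 : K * p * (r * m) ≤ Real.exp (-(δ0 / 4 * β)) * (r * m) :=
        mul_le_mul_of_nonneg_right hKp (by positivity)
      have h18 : 0 ≤ Real.exp (-(δ0 / 4 * β)) * (r * m) := by positivity
      have h20 : 0 ≤ m * ε := by positivity
      linarith
    rw [div_le_div_iff₀ (by positivity) (by positivity)]
    have h19 : Real.exp (-((2 * m : ℕ) * (ε + Real.exp (-(δ0 / 4 * β)) * (2 * r : ℕ)))) *
        ZZ μ m m' l k β ≤ gg μ k m m' l β (2 * r) := by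
      refine le_trans ?_ h15
      exact mul_le_mul h16 hg0 hZ.le (Real.exp_pos _).le
    have hN2 : (0 : ℝ) < (N : ℝ) ^ 2 := by positivity
    have h20 := mul_le_mul_of_nonneg_right h19 hN2.le
    linarith

end

end Run7.h4.YM
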